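import Mathlib
import Pool.Agent.Lib.OX.Defs2
import Pool.Agent.Lib.OX.Bas

/-!
# MP_927447_nt: `F(n) = n + √n + O(n^(1/2 - δ))` outside a set of power-saving size.
Exact statements of the rows.  helper82.  Text: `/team-store/tt7_927447.md`.

`Ey`, `Sy`, `my`, `SP` (long prime polynomial), `nt`, `g`, `xt` are those of project OX.
-/

set_option autoImplicit false

namespace Pool.Agent.FN82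

open Finset Pool.Agent.MRL Pool.Agent.MRF Pool.Agent.OX

noncomputable section

/-- ROW ZDE: zero density near the line 1 (all zeros, no sparseness). -/
def ZDE : Prop := ∀ ε : ℝ, 0 < ε → ∃ κ C : ℝ, 0 < κ ∧ κ ≤ 1 / 16 ∧ 1 ≤ C ∧
  ∀ T σ : ℝ, C ≤ T → 1 - κ ≤ σ → σ ≤ 1 → ∀ Z : Finset ℂ,
  (∀ ρ ∈ Z, riemannZeta ρ = 0 ∧ σ ≤ ρ.re ∧ T ≤ |ρ.im| ∧ |ρ.im| ≤ 8 * T) →
  (∀ ρ ∈ Z, ∀ ρ' ∈ Z, ρ ≠ ρ' → 1 ≤ |ρ.im - ρ'.im|) →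
  (Z.card : ℝ) ≤ T ^ (ε * (1 - σ)) * (Real.log T) ^ C

/-- ROW EL1: the error term of the long prime polynomial is a negative power of `X` outside a set
`R` of unit cells, over which its sum is smaller than any power of the logarithm. -/
def EL1 : Prop := ∃ κ : ℝ, 0 < κ ∧ κ ≤ 1 / 16 ∧ ∀ B : ℝ, ∃ C X₀ : ℝ, 0 < C ∧
  ∀ X y : ℝ, X₀ ≤ X → √X / 2 ≤ y → y ≤ X ^ 2 → ∃ R : Finset ℤ,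
  (∀ t : ℝ, |t| ≤ 2 * X → ⌊t⌋ ∉ R → ‖Ey y t‖ ≤ X ^ (-κ)) ∧
  ∀ τ : ℤ → ℝ, (∀ i ∈ R, τ i ∈ Set.Icc (i : ℝ) (i + 1)) →
    ∑ i ∈ R, ‖Ey y (τ i)‖ ≤ C * (Real.log X) ^ (-B)

/-- the primes in `((1 - 2ρ)Y, (1 - ρ)Y]` -/
def Iq (Y ρ : ℝ) : Finset ℕ :=
  (Icc 1 ⌊(1 - ρ) * Y⌋₊).filter (fun q : ℕ => q.Prime ∧ (1 - 2 * ρ) * Y < (q : ℝ))

/-- the sum of their reciprocals -/
def SI (Y ρ : ℝ) : ℝ := ∑ q ∈ Iq Y ρ, 1 / (q : ℝ)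

/-- the short prime polynomial -/
def Pq (Y ρ t : ℝ) : ℂ := ∑ q ∈ Iq Y ρ, ((1 / (q : ℝ) : ℝ) : ℂ) * nt q t

/-- ROW HOH: primes in intervals of length `Y^(1-δ)` (Hoheisel). -/
def HOH : Prop := ∃ δ c Y₀ : ℝ, 0 < δ ∧ 0 < c ∧ ∀ Y ρ : ℝ, Y₀ ≤ Y → Y ^ (-δ) ≤ ρ → ρ ≤ 1 / 4 →
  c * ρ / (Real.log Y) ^ 2 ≤ SI Y ρ

/-- the height -/
def TF (N ρ : ℝ) : ℝ := 32 * Real.log N * √N / ρ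

/-- ROW BADQ: a bad point makes the error integral large. -/
def BADQ : Prop := ∃ c N₀ : ℝ, 0 < c ∧ ∀ N ρ x : ℝ, N₀ ≤ N → N ^ (-(1 / 8) : ℝ) ≤ ρ →
  ρ ≤ 1 / 4 → N / 2 ≤ x → x ≤ 2 * N →
  (∀ q ∈ Iq (√N) ρ, ∀ s : ℕ, s.Prime → ρ / (4 * √N) ≤ |Real.log ((q : ℝ) * s / x)|) →
  c * SI (√N) ρ ≤ ‖∫ t : ℝ, Pq (√N) ρ t * Ey (√N) t * xt x t * (g (TF N ρ) t : ℂ)‖

/-- ROW MVP: mean square of the short prime polynomial. -/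
def MVP : Prop := ∃ C N₀ : ℝ, 0 < C ∧ ∀ N ρ : ℝ, N₀ ≤ N → 0 < ρ → ρ ≤ 1 / 4 →
  ∫ t : ℝ, ‖Pq (√N) ρ t‖ ^ 2 * g (TF N ρ) t ≤ C * (Real.log N / ρ) * SI (√N) ρ

/-- ROW MVD: mean square of a sum over well spaced points. -/
def MVD : Prop := ∃ C N₀ : ℝ, 0 < C ∧ ∀ N ρ : ℝ, N₀ ≤ N → 0 < ρ → ρ ≤ 1 / 4 →
  ∀ (J : Finset ℝ) (c : ℝ → ℂ), (∀ x ∈ J, N / 2 ≤ x ∧ x ≤ 2 * N) →
  (∀ x ∈ J, ∀ x' ∈ J, x ≠ x' → ρ * √N ≤ |x - x'|) → (∀ x, ‖c x‖ ≤ 1) →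
  ∫ t : ℝ, ‖∑ x ∈ J, c x * xt x t‖ ^ 2 * g (TF N ρ) t ≤ C * J.card * TF N ρ

/-- ROW CORE: few well spaced bad points. -/
def COREF : Prop := ∃ κ C N₀ : ℝ, 0 < κ ∧ κ ≤ 1 / 16 ∧ 0 < C ∧ ∀ N ρ : ℝ, N₀ ≤ N →
  N ^ (-κ) ≤ ρ → ρ ≤ 1 / 4 → ∀ J : Finset ℝ, (∀ x ∈ J, N / 2 ≤ x ∧ x ≤ 2 * N) →
  (∀ x ∈ J, ∀ x' ∈ J, x ≠ x' → ρ * √N ≤ |x - x'|) →
  (∀ x ∈ J, ∀ q ∈ Iq (√N) ρ, ∀ s : ℕ, s.Prime → ρ / (4 * √N) ≤ |Real.log ((q : ℝ) * s / x)|) →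
  (J.card : ℝ) ≤ C * N ^ (1 / 2 - 8 * κ) * ρ ^ (-(3 : ℝ))

/-- `F n` is the maximum of `m + p(m)` over composite `m < n`, where `p(m)` is the least prime
factor of `m` (and `F n = 0` if there is no composite below `n`, i.e. for `n ≤ 4`). -/
def F (n : ℕ) : ℕ :=
  ((Finset.range n).filter (fun m => 1 < m ∧ ¬ Nat.Prime m)).sup (fun m => m + Nat.minFac m)

/-- ROW FIN: the theorem. -/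
def FINF : Prop := ∃ δ C : ℝ, 0 < δ ∧ ∀ x : ℝ, 1 ≤ x →
  (Set.ncard {n : ℕ | 5 ≤ n ∧ (n : ℝ) ≤ x ∧
    (n : ℝ) ^ (1 / 2 - δ) < |(F n : ℝ) - (n + √n)|} : ℝ) ≤ C * x ^ (1 - δ)

end

end Pool.Agent.FN82
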