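import Mathlib
import Pool.Agent.Lib.FN82.Defs
import Pool.Agent.Lib.OX.MT
import Pool.Agent.Lib.OX.BADI

/-!
# PROJECT FN82, row BADQ: a bad point makes the error integral large.  helper41.
-/

set_option autoImplicit false

namespace Pool.Agent.FN82

open Finset MeasureTheory Pool.Agent.MRL Pool.Agent.MRF Pool.Agent.OX

namespace BADQ

noncomputable section

theorem pair_mul (B C : Finset ℕ) (h k : ℕ → ℂ) (X Y : ℂ) :
    (∑ q ∈ B, h q) * (∑ s ∈ C, k s) * X * Y = ∑ q ∈ B, ∑ s ∈ C, h q * k s * X * Y := by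
  rw [Finset.sum_mul_sum, Finset.sum_mul, Finset.sum_mul]
  refine Finset.sum_congr rfl fun q _ => ?_
  rw [Finset.sum_mul, Finset.sum_mul]

theorem single_mul (B : Finset ℕ) (h : ℕ → ℂ) (M X Y : ℂ) :
    (∑ q ∈ B, h q) * M * X * Y = ∑ q ∈ B, h q * M * X * Y := by
  rw [Finset.sum_mul, Finset.sum_mul, Finset.sum_mul]

/-- the left side of the Perron formula. -/
theorem integral_F (A : Finset ℕ) (hA : ∀ q ∈ A, 0 < q) (y T x : ℝ) (hT : 0 < T) (hx : 0 < x) :
    ∫ t : ℝ, (∑ q ∈ A, ((1 / (q : ℝ) : ℝ) : ℂ) * nt q t) * Sy y t * xt x t * (g T t : ℂ) =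
      ((√Real.pi * T * ∑ q ∈ A, ∑ s ∈ SP y, Real.log s *
        Real.exp (-(Real.log ((s : ℝ) / y)) ^ 2 / 4) / (q * s) *
        Real.exp (-(T * Real.log (q * s / x)) ^ 2 / 4) : ℝ) : ℂ) := by
  have hF : ∀ t : ℝ, (∑ q ∈ A, ((1 / (q : ℝ) : ℝ) : ℂ) * nt q t) * Sy y t * xt x t * (g T t : ℂ) =
      ∑ q ∈ A, ∑ s ∈ SP y,
        ((Real.log s * Real.exp (-(Real.log ((s : ℝ) / y)) ^ 2 / 4) / (q * s) : ℝ) : ℂ) *
          (eu (Real.log (q * s / x)) t * (g T t : ℂ)) := by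
    intro t
    unfold Sy
    rw [pair_mul]
    refine Finset.sum_congr rfl fun q hq => ?_
    refine Finset.sum_congr rfl fun s hs => ?_
    have hq' : (q : ℝ) ≠ 0 := by exact_mod_cast (hA q hq).ne'
    have hs' : (s : ℝ) ≠ 0 := by exact_mod_cast (SP_pos hs).ne'
    have e1 : eu (Real.log (q * s / x)) t = nt q t * nt s t * xt x t := by
      rw [nt_eq_eu, nt_eq_eu, xt_eq_eu, eu_mul, eu_mul,
        Real.log_div (by positivity) hx.ne', Real.log_mul hq' hs']
      rfl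
    have e2 : ((Real.log s * Real.exp (-(Real.log ((s : ℝ) / y)) ^ 2 / 4) / (q * s) : ℝ) : ℂ) =
        ((1 / (q : ℝ) : ℝ) : ℂ) *
          ((Real.log s * Real.exp (-(Real.log ((s : ℝ) / y)) ^ 2 / 4) / s : ℝ) : ℂ) := by
      rw [← Complex.ofReal_mul]
      congr 1
      field_simp
    rw [e1, e2]
    ring
  have hi : ∀ u : ℝ, Integrable (fun t => eu u t * (g T t : ℂ)) := fun u =>
    integrable_mul_g hT (continuous_eu u) (B := 1) (fun t => (norm_eu u t).le)
  simp_rw [hF]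
  rw [integral_finsetSum _ fun q _ => integrable_finsetSum _ fun s _ => (hi _).const_mul _,
    Finset.mul_sum, Complex.ofReal_sum]
  refine Finset.sum_congr rfl fun q _ => ?_
  rw [integral_finsetSum _ fun s _ => (hi _).const_mul _, Finset.mul_sum, Complex.ofReal_sum]
  refine Finset.sum_congr rfl fun s _ => ?_
  rw [integral_const_mul, integral_eu_g hT, ← Complex.ofReal_mul]
  congr 1
  ring

/-- the main term. -/
theorem integral_M (A : Finset ℕ) (hA : ∀ q ∈ A, 0 < q) (y T x : ℝ) (hy : 0 < y) (hT : 0 < T)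
    (hx : 0 < x) :
    ∫ t : ℝ, (∑ q ∈ A, ((1 / (q : ℝ) : ℝ) : ℂ) * nt q t) * my y t * xt x t * (g T t : ℂ) =
      ((∑ q ∈ A, 1 / (q : ℝ) *
        (2 * √Real.pi * (√(Real.pi / (1 + 1 / T ^ 2)) *
          Real.exp (-(Real.log (q * y / x)) ^ 2 / (4 * (1 + 1 / T ^ 2))))) : ℝ) : ℂ) := by
  have hb : 0 < 1 + 1 / T ^ 2 := by positivity
  have hM : ∀ t : ℝ, (∑ q ∈ A, ((1 / (q : ℝ) : ℝ) : ℂ) * nt q t) * my y t * xt x t * (g T t : ℂ) =
      ∑ q ∈ A, ((1 / (q : ℝ) * (2 * √Real.pi) : ℝ) : ℂ) *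
          (eu (Real.log (q * y / x)) t * ((Real.exp (-(1 + 1 / T ^ 2) * t ^ 2) : ℝ) : ℂ)) := by
    intro t
    rw [single_mul]
    refine Finset.sum_congr rfl fun q hq => ?_
    have hq' : (q : ℝ) ≠ 0 := by exact_mod_cast (hA q hq).ne'
    have e1 : eu (Real.log (q * y / x)) t = nt q t * eu (Real.log y) t * xt x t := by
      rw [nt_eq_eu, xt_eq_eu, eu_mul, eu_mul,
        Real.log_div (by positivity) hx.ne', Real.log_mul hq' hy.ne']
      rfl
    have e2 : Real.exp (-(1 + 1 / T ^ 2) * t ^ 2) = Real.exp (-t ^ 2) * g T t := by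
      rw [MRL.Bas.g_eq, ← Real.exp_add]
      congr 1
      ring
    have e3 : my y t = ((2 * √Real.pi * Real.exp (-t ^ 2) : ℝ) : ℂ) * eu (Real.log y) t := rfl
    rw [e1, e2, e3]
    push_cast
    ring
  have hi : ∀ u : ℝ, Integrable (fun t => eu u t * ((Real.exp (-(1 + 1 / T ^ 2) * t ^ 2) : ℝ) : ℂ)) := by
    intro u
    have h : Integrable (fun t : ℝ => ((Real.exp (-(1 + 1 / T ^ 2) * t ^ 2) : ℝ) : ℂ)) :=
      (integrable_exp_neg_mul_sq hb).ofReal
    exact h.bdd_mul (c := 1) (continuous_eu u).aestronglyMeasurable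
      (Filter.Eventually.of_forall fun t => (norm_eu u t).le)
  simp_rw [hM]
  rw [integral_finsetSum _ fun q _ => (hi _).const_mul _, Complex.ofReal_sum]
  refine Finset.sum_congr rfl fun q _ => ?_
  rw [integral_const_mul, integral_eu_gauss hb, ← Complex.ofReal_mul]
  congr 1
  ring

theorem continuous_P (A : Finset ℕ) :
    Continuous fun t : ℝ => ∑ q ∈ A, ((1 / (q : ℝ) : ℝ) : ℂ) * nt q t :=
  continuous_finsetSum _ fun s _ => continuous_const.mul (MRF.continuous_nt s)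

theorem norm_P_le (A : Finset ℕ) (t : ℝ) :
    ‖∑ q ∈ A, ((1 / (q : ℝ) : ℝ) : ℂ) * nt q t‖ ≤ ∑ q ∈ A, 1 / (q : ℝ) := by
  refine (norm_sum_le _ _).trans (Finset.sum_le_sum fun q _ => ?_)
  rw [norm_mul, MRF.norm_nt, mul_one, Complex.norm_real, Real.norm_eq_abs,
    abs_of_nonneg (by positivity)]

/-- the error integral is the main term minus the smooth sum. -/
theorem integral_E (A : Finset ℕ) (hA : ∀ q ∈ A, 0 < q) (y T x : ℝ) (hy : 0 < y) (hT : 0 < T)
    (hx : 0 < x) :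
    ∫ t : ℝ, (∑ q ∈ A, ((1 / (q : ℝ) : ℝ) : ℂ) * nt q t) * Ey y t * xt x t * (g T t : ℂ) =
      ((√Real.pi * T * ∑ q ∈ A, ∑ s ∈ SP y, Real.log s *
        Real.exp (-(Real.log ((s : ℝ) / y)) ^ 2 / 4) / (q * s) *
        Real.exp (-(T * Real.log (q * s / x)) ^ 2 / 4) : ℝ) : ℂ) -
      ((∑ q ∈ A, 1 / (q : ℝ) *
        (2 * √Real.pi * (√(Real.pi / (1 + 1 / T ^ 2)) *
          Real.exp (-(Real.log (q * y / x)) ^ 2 / (4 * (1 + 1 / T ^ 2))))) : ℝ) : ℂ) := by
  rw [← integral_F A hA y T x hT hx, ← integral_M A hA y T x hy hT hx, ← integral_sub]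
  · congr 1
    funext t
    unfold Ey
    ring
  · refine integrable_mul_g hT (((continuous_P A).mul (continuous_Sy y)).mul (continuous_xt x))
      (B := (∑ q ∈ A, 1 / (q : ℝ)) * (∑ s ∈ SP y, Real.log s / s)) ?_
    intro t
    rw [norm_mul, norm_xt, mul_one, norm_mul]
    gcongr
    · exact norm_P_le A t
    · exact norm_Sy_le y t
  · refine integrable_mul_g hT (((continuous_P A).mul (continuous_my y)).mul (continuous_xt x))
      (B := (∑ q ∈ A, 1 / (q : ℝ)) * 4) ?_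
    intro t
    rw [norm_mul, norm_xt, mul_one, norm_mul]
    gcongr
    · exact norm_P_le A t
    · exact norm_my_le y t

/-- if all the products are far from `x` then the smooth sum is tiny -/
theorem W_le (A : Finset ℕ) {y T x E : ℝ} (hy : 0 ≤ y) (hE : 0 ≤ E)
    (h : ∀ q ∈ A, ∀ s ∈ SP y, Real.exp (-(T * Real.log (q * s / x)) ^ 2 / 4) ≤ E) :
    ∑ q ∈ A, ∑ s ∈ SP y, Real.log s *
        Real.exp (-(Real.log ((s : ℝ) / y)) ^ 2 / 4) / (q * s) *
        Real.exp (-(T * Real.log (q * s / x)) ^ 2 / 4) ≤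
      (∑ q ∈ A, 1 / (q : ℝ)) * (y ^ 2 * E) := by
  rw [Finset.sum_mul]
  refine Finset.sum_le_sum fun q hq => ?_
  have h1 : ∑ s ∈ SP y, Real.log s * Real.exp (-(Real.log ((s : ℝ) / y)) ^ 2 / 4) /
      (q * s) * Real.exp (-(T * Real.log (q * s / x)) ^ 2 / 4) ≤
      ∑ s ∈ SP y, 1 / (q : ℝ) * E * (Real.log s / s) := by
    refine Finset.sum_le_sum fun s hs => ?_
    have hs1 : 1 ≤ s := SP_pos hs
    have hl : 0 ≤ Real.log s := Real.log_nonneg (by exact_mod_cast hs1)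
    have e1 : Real.exp (-(Real.log ((s : ℝ) / y)) ^ 2 / 4) ≤ 1 := by
      rw [Real.exp_le_one_iff]
      have := sq_nonneg (Real.log ((s : ℝ) / y))
      linarith
    have e2 := h q hq s hs
    have hs0 : (0 : ℝ) < s := by exact_mod_cast hs1
    have hq0 : (0 : ℝ) ≤ q := Nat.cast_nonneg q
    have e3 : Real.log s * Real.exp (-(Real.log ((s : ℝ) / y)) ^ 2 / 4) / (q * s) ≤
        Real.log s / (q * s) := by
      refine div_le_div_of_nonneg_right ?_ (by positivity)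
      exact mul_le_of_le_one_right hl e1
    calc Real.log s * Real.exp (-(Real.log ((s : ℝ) / y)) ^ 2 / 4) / (q * s) *
          Real.exp (-(T * Real.log (q * s / x)) ^ 2 / 4)
        ≤ Real.log s / (q * s) * E :=
          mul_le_mul e3 e2 (Real.exp_pos _).le (by positivity)
      _ = 1 / (q : ℝ) * E * (Real.log s / s) := by
          simp only [div_eq_mul_inv, mul_inv]
          ring
  refine h1.trans ?_
  rw [← Finset.mul_sum]
  have h2 := OX.BADI.sum_SP_le hy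
  have h3 : 0 ≤ 1 / (q : ℝ) * E := by positivity
  calc 1 / (q : ℝ) * E * ∑ s ∈ SP y, Real.log s / s
      ≤ 1 / (q : ℝ) * E * y ^ 2 := mul_le_mul_of_nonneg_left h2 h3
    _ = _ := by ring

theorem mem_Iq {Y ρ : ℝ} {q : ℕ} (h : q ∈ Iq Y ρ) (hY : 0 ≤ Y) (hρ : ρ ≤ 1 / 4) :
    0 < q ∧ (1 - 2 * ρ) * Y < q ∧ (q : ℝ) ≤ (1 - ρ) * Y := by
  unfold Iq at h
  rw [Finset.mem_filter, Finset.mem_Icc] at h
  obtain ⟨⟨h1, h2⟩, _, h3⟩ := h
  refine ⟨h1, h3, ?_⟩
  rwa [Nat.le_floor_iff (mul_nonneg (by linarith) hY)] at h2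

/-- the conditions on a large `N` -/
theorem large (c : ℝ) (hc : 0 < c) : ∃ N₀ : ℝ, ∀ N : ℝ, N₀ ≤ N → 1 ≤ N ∧ 1 ≤ Real.log N ∧
    64 * (Real.log N * Real.exp (2 * Real.log N - 16 * (Real.log N) ^ 2)) ≤ c := by
  have h1 : ∀ᶠ N : ℝ in Filter.atTop, 1 ≤ N := Filter.eventually_ge_atTop 1
  have h2 : ∀ᶠ N : ℝ in Filter.atTop, 1 ≤ Real.log N :=
    Real.tendsto_log_atTop.eventually_ge_atTop 1
  have h4 : Filter.Tendsto (fun L : ℝ => 64 * Real.exp (-L)) Filter.atTop (nhds 0) := by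
    have h6 := Real.tendsto_exp_neg_atTop_nhds_zero.const_mul 64
    simpa using h6
  have h5 : ∀ᶠ N : ℝ in Filter.atTop,
      64 * (Real.log N * Real.exp (2 * Real.log N - 16 * (Real.log N) ^ 2)) ≤ c := by
    have h6 : ∀ᶠ L : ℝ in Filter.atTop, 64 * Real.exp (-L) < c := h4.eventually (gt_mem_nhds hc)
    filter_upwards [Real.tendsto_log_atTop.eventually h6, h2] with N hN hN2
    refine le_trans ?_ hN.le
    have h7 : Real.log N ≤ Real.exp (Real.log N) := by
      have := Real.add_one_le_exp (Real.log N)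
      linarith
    have h8 : Real.log N * Real.exp (2 * Real.log N - 16 * (Real.log N) ^ 2) ≤
        Real.exp (Real.log N) * Real.exp (2 * Real.log N - 16 * (Real.log N) ^ 2) :=
      mul_le_mul_of_nonneg_right h7 (Real.exp_pos _).le
    rw [← Real.exp_add] at h8
    have h9 : Real.exp (Real.log N + (2 * Real.log N - 16 * (Real.log N) ^ 2)) ≤
        Real.exp (-Real.log N) := by
      rw [Real.exp_le_exp]
      nlinarith
    linarith
  obtain ⟨N₀, hN₀⟩ := Filter.eventually_atTop.1 (h1.and (h2.and h5))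
  exact ⟨N₀, hN₀⟩

end

end BADQ

open BADQ in
/-- ROW BADQ. -/
theorem badq : BADQ := by
  obtain ⟨N₀, hN₀⟩ := large (Real.exp (-1) / 2) (by positivity)
  refine ⟨Real.exp (-1) / 2, N₀, by positivity, ?_⟩
  intro N ρ x hN hρ hρ4 hx1 hx2 hbad
  obtain ⟨hN1, hL1, hE⟩ := hN₀ N hN
  obtain ⟨L, hL⟩ : ∃ L : ℝ, L = Real.log N := ⟨_, rfl⟩
  rw [← hL] at hL1 hE
  have hN0 : 0 < N := by linarith
  have hs0 : 0 < √N := Real.sqrt_pos.2 hN0
  have hss : √N * √N = N := Real.mul_self_sqrt hN0.le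
  have hρ0 : 0 < ρ := lt_of_lt_of_le (Real.rpow_pos_of_pos hN0 _) hρ
  have hx0 : 0 < x := by linarith
  obtain ⟨T, hT⟩ : ∃ T : ℝ, T = TF N ρ := ⟨_, rfl⟩
  have hTe : T = 32 * L * √N / ρ := by
    rw [hT, hL]
    rfl
  have hT0 : 0 < T := by
    rw [hTe]
    positivity
  have hs1 : 1 ≤ √N := by
    rw [Real.one_le_sqrt]
    exact hN1
  have hT1 : 1 ≤ T := by
    rw [hTe, le_div_iff₀ hρ0]
    nlinarith
  -- the terms of the smooth sum are tiny
  have hA : ∀ q ∈ Iq (√N) ρ, 0 < q := fun q hq => (mem_Iq hq hs0.le hρ4).1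
  have hterm : ∀ q ∈ Iq (√N) ρ, ∀ s ∈ SP (√N),
      Real.exp (-(T * Real.log (q * s / x)) ^ 2 / 4) ≤ Real.exp (-(16 * L ^ 2)) := by
    intro q hq s hs
    have h1 := hbad q hq s (Finset.mem_filter.1 hs).2.1
    have h2 : T * (ρ / (4 * √N)) = 8 * L := by
      rw [hTe]
      field_simp
      norm_num
    have h3 : 8 * L ≤ |T * Real.log (q * s / x)| := by
      rw [abs_mul, abs_of_pos hT0, ← h2]
      exact mul_le_mul_of_nonneg_left h1 hT0.le
    have h4 : (8 * L) ^ 2 ≤ (T * Real.log (q * s / x)) ^ 2 := by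
      rw [← sq_abs (T * Real.log (q * s / x))]
      exact pow_le_pow_left₀ (by positivity) h3 2
    rw [Real.exp_le_exp]
    nlinarith
  have hW := W_le (Iq (√N) ρ) (x := x) hs0.le (Real.exp_pos (-(16 * L ^ 2))).le hterm
  obtain ⟨S, hS⟩ : ∃ S : ℝ, S = ∑ q ∈ Iq (√N) ρ, 1 / (q : ℝ) := ⟨_, rfl⟩
  rw [← hS] at hW
  have hS0 : 0 ≤ S := by
    rw [hS]
    exact Finset.sum_nonneg fun p _ => by positivity
  obtain ⟨W, hWW⟩ : ∃ W : ℝ, W = ∑ q ∈ Iq (√N) ρ, ∑ s ∈ SP (√N), Real.log s *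
        Real.exp (-(Real.log ((s : ℝ) / √N)) ^ 2 / 4) / (q * s) *
        Real.exp (-(T * Real.log (q * s / x)) ^ 2 / 4) := ⟨_, rfl⟩
  obtain ⟨M, hM⟩ : ∃ M : ℝ, M = ∑ q ∈ Iq (√N) ρ, 1 / (q : ℝ) *
        (2 * √Real.pi * (√(Real.pi / (1 + 1 / T ^ 2)) *
          Real.exp (-(Real.log (q * √N / x)) ^ 2 / (4 * (1 + 1 / T ^ 2))))) := ⟨_, rfl⟩
  have hint := integral_E (Iq (√N) ρ) hA (√N) T x hs0 hT0 hx0
  rw [← hWW, ← hM] at hint
  rw [← hWW] at hW
  -- the main term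
  have hMS : Real.exp (-1) * S ≤ M := by
    rw [hM, hS, Finset.mul_sum]
    refine Finset.sum_le_sum fun q hq => ?_
    obtain ⟨q0, q1, q2⟩ := mem_Iq hq hs0.le hρ4
    have hq' : (0 : ℝ) < q := by exact_mod_cast q0
    have hT2 : 1 / T ^ 2 ≤ 1 := by
      rw [div_le_one (by positivity)]
      nlinarith
    have hT3 : 0 < 1 / T ^ 2 := by positivity
    have hpi : (1 : ℝ) ≤ √Real.pi := by
      rw [Real.one_le_sqrt]
      linarith [Real.pi_gt_three]
    have hpi2 : (1 : ℝ) ≤ √(Real.pi / (1 + 1 / T ^ 2)) := by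
      rw [Real.one_le_sqrt, le_div_iff₀ (by positivity)]
      linarith [Real.pi_gt_three]
    have hlo : 1 / 4 ≤ q * √N / x := by
      rw [le_div_iff₀ hx0]
      have h1 : √N / 2 ≤ q := by nlinarith
      nlinarith
    have hup : q * √N / x ≤ 4 := by
      rw [div_le_iff₀ hx0]
      have h1 : (q : ℝ) ≤ √N := by nlinarith
      nlinarith
    have he2 : (4 : ℝ) ≤ Real.exp 2 := by
      have h1 : Real.exp 2 = Real.exp 1 * Real.exp 1 := by
        rw [← Real.exp_add]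
        norm_num
      have h2 := Real.exp_one_gt_d9
      nlinarith
    have hlog : (Real.log (q * √N / x)) ^ 2 ≤ 4 := by
      have h1 : Real.log (q * √N / x) ≤ 2 := by
        rw [Real.log_le_iff_le_exp (by positivity)]
        exact hup.trans he2
      have h2 : -2 ≤ Real.log (q * √N / x) := by
        rw [Real.le_log_iff_exp_le (by positivity)]
        refine le_trans ?_ hlo
        rw [Real.exp_neg, one_div]
        exact inv_anti₀ (by norm_num) he2
      nlinarith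
    have hexp : Real.exp (-1) ≤
        Real.exp (-(Real.log (q * √N / x)) ^ 2 / (4 * (1 + 1 / T ^ 2))) := by
      rw [Real.exp_le_exp, le_div_iff₀ (by positivity)]
      nlinarith
    have hk : Real.exp (-1) ≤ 2 * √Real.pi * (√(Real.pi / (1 + 1 / T ^ 2)) *
          Real.exp (-(Real.log (q * √N / x)) ^ 2 / (4 * (1 + 1 / T ^ 2)))) := by
      calc Real.exp (-1) = 1 * (1 * Real.exp (-1)) := by ring
        _ ≤ 2 * √Real.pi * (√(Real.pi / (1 + 1 / T ^ 2)) *
          Real.exp (-(Real.log (q * √N / x)) ^ 2 / (4 * (1 + 1 / T ^ 2)))) := by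
          gcongr
          linarith
    calc Real.exp (-1) * (1 / (q : ℝ)) = 1 / (q : ℝ) * Real.exp (-1) := by ring
      _ ≤ _ := by gcongr
  -- the smooth sum
  have hsmall : √Real.pi * T * W ≤ Real.exp (-1) / 2 * S := by
    have h1 : √Real.pi ≤ 2 := by
      rw [Real.sqrt_le_left (by norm_num)]
      linarith [Real.pi_lt_four]
    have h2 : Real.exp (2 * L) = N ^ 2 := by
      have h3 : Real.exp L = N := by
        rw [hL]
        exact Real.exp_log hN0
      have h4 : Real.exp (2 * L) = Real.exp L ^ 2 := by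
        rw [← Real.exp_nat_mul]
        norm_num
      rw [h4, h3]
    have h3 : Real.exp (2 * L - 16 * L ^ 2) = N ^ 2 * Real.exp (-(16 * L ^ 2)) := by
      rw [← h2, ← Real.exp_add]
      congr 1
    rw [h3] at hE
    have h4 : (√N) ^ 2 = N := Real.sq_sqrt hN0.le
    rw [h4] at hW
    -- `T ≤ 32 L N`
    have h5 : √N / ρ ≤ N := by
      rw [div_le_iff₀ hρ0]
      have h6 : N ^ (-(1 / 2) : ℝ) ≤ ρ := by
        refine le_trans ?_ hρ
        exact Real.rpow_le_rpow_of_exponent_le hN1 (by norm_num)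
      calc √N = N * N ^ (-(1 / 2) : ℝ) := by
            rw [Real.sqrt_eq_rpow]
            nth_rewrite 2 [← Real.rpow_one N]
            rw [← Real.rpow_add hN0]
            norm_num
        _ ≤ N * ρ := mul_le_mul_of_nonneg_left h6 hN0.le
    have h6 : T ≤ 32 * L * N := by
      rw [hTe, mul_div_assoc]
      exact mul_le_mul_of_nonneg_left h5 (by positivity)
    have h7 : √Real.pi * T ≤ 2 * (32 * L * N) := mul_le_mul h1 h6 hT0.le (by norm_num)
    have h8 : 0 ≤ S * (N * Real.exp (-(16 * L ^ 2))) := by positivity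
    calc √Real.pi * T * W ≤ √Real.pi * T * (S * (N * Real.exp (-(16 * L ^ 2)))) :=
          mul_le_mul_of_nonneg_left hW (by positivity)
      _ ≤ 2 * (32 * L * N) * (S * (N * Real.exp (-(16 * L ^ 2)))) :=
          mul_le_mul_of_nonneg_right h7 h8
      _ = (64 * (L * (N ^ 2 * Real.exp (-(16 * L ^ 2))))) * S := by ring
      _ ≤ _ := mul_le_mul_of_nonneg_right hE hS0
  have hfin : ‖∫ t : ℝ, Pq (√N) ρ t * Ey (√N) t * xt x t * (g (TF N ρ) t : ℂ)‖ ≥
      M - √Real.pi * T * W := by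
    have h1 : (fun t : ℝ => Pq (√N) ρ t * Ey (√N) t * xt x t * (g (TF N ρ) t : ℂ)) =
        fun t : ℝ => (∑ q ∈ Iq (√N) ρ, ((1 / (q : ℝ) : ℝ) : ℂ) * nt q t) * Ey (√N) t * xt x t *
          (g T t : ℂ) := by
      rw [hT]
      rfl
    rw [h1, hint, ← Complex.ofReal_sub, Complex.norm_real, Real.norm_eq_abs]
    have := neg_abs_le (√Real.pi * T * W - M)
    linarith
  have hSI : SI (√N) ρ = S := by
    rw [hS]
    rfl
  rw [hSI]
  linarith

end Pool.Agent.FN82
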