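import Mathlib
import Pool.Agent.Lib.FN82.Defs
import Pool.Agent.Lib.OX.CORE

/-!
# MP_927447_nt, row CORE: few well spaced bad points (helper16)
-/

set_option autoImplicit false

namespace Pool.Agent.FN82

open Finset MeasureTheory Filter Pool.Agent.MRL Pool.Agent.MRF Pool.Agent.OX

namespace CoreF

open Pool.Agent.OX.CORE1

theorem norm_Pq_le (Y ρ t : ℝ) : ‖Pq Y ρ t‖ ≤ SI Y ρ := by
  unfold Pq SI
  refine (norm_sum_le _ _).trans (Finset.sum_le_sum fun q _ => ?_)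
  rw [norm_mul, MRF.norm_nt, mul_one, Complex.norm_real, Real.norm_eq_abs,
    abs_of_nonneg (by positivity)]

theorem continuous_Pq (Y ρ : ℝ) : Continuous (Pq Y ρ) := by
  unfold Pq
  exact continuous_finsetSum _ fun s _ => continuous_const.mul (MRF.continuous_nt s)

theorem SI_nonneg (Y ρ : ℝ) : 0 ≤ SI Y ρ := by
  unfold SI
  exact Finset.sum_nonneg fun q _ => by positivity

/-- the integral of the error term at `x`. -/
noncomputable def Er (N ρ x : ℝ) : ℂ :=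
  ∫ t : ℝ, Pq (√N) ρ t * Ey (√N) t * xt x t * (g (TF N ρ) t : ℂ)

theorem sum_Er {N ρ : ℝ} (hT : 0 < TF N ρ) (J : Finset ℝ) :
    ∑ x ∈ J, ‖Er N ρ x‖ ≤
    ∫ t : ℝ, ‖Pq (√N) ρ t‖ * ‖∑ x ∈ J, uc (Er N ρ x) * xt x t‖ * ‖Ey (√N) t‖ *
      g (TF N ρ) t := by
  obtain ⟨Y, hY⟩ : ∃ Y, Y = √N := ⟨_, rfl⟩
  obtain ⟨T, hTe⟩ : ∃ T, T = TF N ρ := ⟨_, rfl⟩
  rw [← hY, ← hTe]
  rw [← hTe] at hT
  have hcont : ∀ x : ℝ, Continuous (fun t : ℝ => Pq Y ρ t * Ey Y t * xt x t) := by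
    intro x
    exact ((continuous_Pq Y ρ).mul (continuous_Ey Y)).mul (continuous_xt x)
  have hbd : ∀ x t : ℝ, ‖Pq Y ρ t * Ey Y t * xt x t‖ ≤
      SI Y ρ * (∑ s ∈ SP Y, Real.log s / s + 4) := by
    intro x t
    rw [norm_mul, norm_xt, mul_one, norm_mul]
    exact mul_le_mul (norm_Pq_le Y ρ t) (norm_Ey_le Y t) (norm_nonneg _) (SI_nonneg Y ρ)
  have hint : ∀ x : ℝ, Integrable (fun t : ℝ => Pq Y ρ t * Ey Y t * xt x t * (g T t : ℂ)) :=
    fun x => integrable_mul_g hT (hcont x) (hbd x)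
  have hEr : ∀ x, Er N ρ x = ∫ t : ℝ, Pq Y ρ t * Ey Y t * xt x t * (g T t : ℂ) := by
    intro x
    unfold Er
    rw [hY, hTe]
  have h1 : ((∑ x ∈ J, ‖Er N ρ x‖ : ℝ) : ℂ) = ∫ t : ℝ, ∑ x ∈ J, uc (Er N ρ x) *
      (Pq Y ρ t * Ey Y t * xt x t * (g T t : ℂ)) := by
    rw [integral_finsetSum _ (fun x _ => (hint x).const_mul _), Complex.ofReal_sum]
    refine Finset.sum_congr rfl fun x _ => ?_
    rw [integral_const_mul, ← uc_mul, ← hEr]
  have h2 : ∑ x ∈ J, ‖Er N ρ x‖ = ‖∫ t : ℝ, ∑ x ∈ J, uc (Er N ρ x) *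
      (Pq Y ρ t * Ey Y t * xt x t * (g T t : ℂ))‖ := by
    rw [← h1, Complex.norm_real, Real.norm_eq_abs, abs_of_nonneg
      (Finset.sum_nonneg fun x _ => norm_nonneg _)]
  rw [h2]
  refine (norm_integral_le_integral_norm _).trans (le_of_eq ?_)
  refine integral_congr_ae (Filter.Eventually.of_forall fun t => ?_)
  simp only
  rw [← norm_mul, ← norm_mul, ← norm_mul_g]
  congr 1
  rw [Finset.mul_sum, Finset.sum_mul, Finset.sum_mul]
  refine Finset.sum_congr rfl fun x _ => ?_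
  ring

/-- a nonnegative bounded continuous function times the weight -/
theorem int_bdd {T : ℝ} (hT : 0 < T) {f : ℝ → ℝ} (hf : Continuous f) {B : ℝ}
    (hB : ∀ t, ‖f t‖ ≤ B) : Integrable (fun t => f t * g T t) :=
  (MRL.Bas.integrable_g hT).bdd_mul (c := B) hf.aestronglyMeasurable
    (Filter.Eventually.of_forall hB)

/-- the splitting of the integral -/
theorem split {P D E : ℝ → ℂ} (hP : Continuous P) (hD : Continuous D)
    {S j M η T X l : ℝ} (hPS : ∀ t, ‖P t‖ ≤ S) (hDj : ∀ t, ‖D t‖ ≤ j) (hEM : ∀ t, ‖E t‖ ≤ M)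
    (hη : 0 ≤ η) (hT : 0 < T) (hX : 0 ≤ X) (R : Finset ℤ)
    (h1 : ∀ t : ℝ, |t| ≤ X → ⌊t⌋ ∉ R → ‖E t‖ ≤ η) (τ : ℤ → ℝ)
    (hτ : ∀ i : ℤ, ∀ t ∈ Set.Icc (i : ℝ) (i + 1), ‖E t‖ ≤ ‖E (τ i)‖) (hl : 0 < l) :
    ∫ t : ℝ, ‖P t‖ * ‖D t‖ * ‖E t‖ * g T t ≤
      η * (l / 2 * ∫ t : ℝ, ‖P t‖ ^ 2 * g T t) + η * (1 / (2 * l) * ∫ t : ℝ, ‖D t‖ ^ 2 * g T t) +
      S * j * ∑ i ∈ R, ‖E (τ i)‖ +
      S * j * M * Real.exp (-(X / T) ^ 2 / 2) * (T * √(2 * Real.pi)) := by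
  have hS0 : 0 ≤ S := (norm_nonneg _).trans (hPS 0)
  have hj0 : 0 ≤ j := (norm_nonneg _).trans (hDj 0)
  have hM0 : 0 ≤ M := (norm_nonneg _).trans (hEM 0)
  have i1 : Integrable fun t : ℝ => ‖P t‖ ^ 2 * g T t :=
    int_bdd hT (hP.norm.pow 2) (B := S ^ 2) fun t => by
      rw [Real.norm_eq_abs, abs_of_nonneg (by positivity)]
      exact pow_le_pow_left₀ (norm_nonneg _) (hPS t) 2
  have i2 : Integrable fun t : ℝ => ‖D t‖ ^ 2 * g T t :=
    int_bdd hT (hD.norm.pow 2) (B := j ^ 2) fun t => by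
      rw [Real.norm_eq_abs, abs_of_nonneg (by positivity)]
      exact pow_le_pow_left₀ (norm_nonneg _) (hDj t) 2
  have i3 : Integrable fun t : ℝ => ∑ i ∈ R,
      (Set.Ico (i : ℝ) (i + 1)).indicator (fun _ => ‖E (τ i)‖) t := by
    refine integrable_finsetSum _ fun i _ => ?_
    refine (integrable_indicator_iff measurableSet_Ico).2 ?_
    exact integrableOn_const (by simp)
  have i4 : Integrable fun t : ℝ => Real.exp (-(1 / (2 * T ^ 2)) * t ^ 2) :=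
    integrable_exp_neg_mul_sq (by positivity)
  have e4 : ∫ t : ℝ, Real.exp (-(1 / (2 * T ^ 2)) * t ^ 2) = T * √(2 * Real.pi) := by
    rw [integral_gaussian]
    have : Real.pi / (1 / (2 * T ^ 2)) = T ^ 2 * (2 * Real.pi) := by field_simp
    rw [this, Real.sqrt_mul (by positivity), Real.sqrt_sq hT.le]
  have e3 : ∫ t : ℝ, ∑ i ∈ R, (Set.Ico (i : ℝ) (i + 1)).indicator (fun _ => ‖E (τ i)‖) t =
      ∑ i ∈ R, ‖E (τ i)‖ := by
    rw [integral_finsetSum]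
    · refine Finset.sum_congr rfl fun i _ => ?_
      rw [integral_indicator measurableSet_Ico, setIntegral_const]
      simp
    · intro i _
      refine (integrable_indicator_iff measurableSet_Ico).2 ?_
      exact integrableOn_const (by simp)
  have hpt : ∀ t : ℝ, ‖P t‖ * ‖D t‖ * ‖E t‖ * g T t ≤
      (η * (l / 2)) * (‖P t‖ ^ 2 * g T t) + (η * (1 / (2 * l))) * (‖D t‖ ^ 2 * g T t) +
      (S * j) * (∑ i ∈ R, (Set.Ico (i : ℝ) (i + 1)).indicator (fun _ => ‖E (τ i)‖) t) +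
      (S * j * M * Real.exp (-(X / T) ^ 2 / 2)) * Real.exp (-(1 / (2 * T ^ 2)) * t ^ 2) := by
    intro t
    have hg0 := MRL.Bas.g_nonneg T t
    have hg1 : g T t ≤ 1 := by
      unfold g
      rw [Real.exp_le_one_iff]
      exact neg_nonpos.mpr (sq_nonneg _)
    have t1 : 0 ≤ (η * (l / 2)) * (‖P t‖ ^ 2 * g T t) := by positivity
    have t2 : 0 ≤ (η * (1 / (2 * l))) * (‖D t‖ ^ 2 * g T t) := by positivity
    have t3' : 0 ≤ ∑ i ∈ R, (Set.Ico (i : ℝ) (i + 1)).indicator (fun _ => ‖E (τ i)‖) t :=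
      Finset.sum_nonneg fun i _ => Set.indicator_nonneg (fun _ _ => norm_nonneg _) t
    have t3 : 0 ≤ (S * j) *
        (∑ i ∈ R, (Set.Ico (i : ℝ) (i + 1)).indicator (fun _ => ‖E (τ i)‖) t) := by positivity
    have t4 : 0 ≤ (S * j * M * Real.exp (-(X / T) ^ 2 / 2)) *
        Real.exp (-(1 / (2 * T ^ 2)) * t ^ 2) := by positivity
    have hPD : ‖P t‖ * ‖D t‖ ≤ S * j := mul_le_mul (hPS t) (hDj t) (norm_nonneg _) hS0
    rcases le_or_gt |t| X with h | h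
    · by_cases hR : ⌊t⌋ ∈ R
      · have h2 : ‖E t‖ ≤ ∑ i ∈ R,
            (Set.Ico (i : ℝ) (i + 1)).indicator (fun _ => ‖E (τ i)‖) t := by
          have h3 : t ∈ Set.Ico ((⌊t⌋ : ℤ) : ℝ) ((⌊t⌋ : ℤ) + 1) :=
            ⟨Int.floor_le t, Int.lt_floor_add_one t⟩
          have h4 := Finset.single_le_sum (f := fun i : ℤ =>
            (Set.Ico (i : ℝ) (i + 1)).indicator (fun _ => ‖E (τ i)‖) t)
            (fun i _ => Set.indicator_nonneg (fun _ _ => norm_nonneg _) t) hR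
          simp only [Set.indicator_of_mem h3] at h4
          exact (hτ ⌊t⌋ t ⟨h3.1, h3.2.le⟩).trans h4
        have h5 : ‖P t‖ * ‖D t‖ * ‖E t‖ * g T t ≤ (S * j) *
            (∑ i ∈ R, (Set.Ico (i : ℝ) (i + 1)).indicator (fun _ => ‖E (τ i)‖) t) * 1 :=
          mul_le_mul (mul_le_mul hPD h2 (norm_nonneg _) (by positivity)) hg1 hg0 (by positivity)
        linarith
      · have h2 := h1 t h hR
        have h3 : ‖P t‖ * ‖D t‖ ≤ l / 2 * ‖P t‖ ^ 2 + 1 / (2 * l) * ‖D t‖ ^ 2 := by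
          have h4 : 0 ≤ (l * ‖P t‖ - ‖D t‖) ^ 2 / (2 * l) := by positivity
          have h5 : (l * ‖P t‖ - ‖D t‖) ^ 2 / (2 * l) =
              l / 2 * ‖P t‖ ^ 2 + 1 / (2 * l) * ‖D t‖ ^ 2 - ‖P t‖ * ‖D t‖ := by
            field_simp
            ring
          linarith
        have h6 : ‖P t‖ * ‖D t‖ * ‖E t‖ * g T t ≤
            (l / 2 * ‖P t‖ ^ 2 + 1 / (2 * l) * ‖D t‖ ^ 2) * η * g T t :=
          mul_le_mul_of_nonneg_right (mul_le_mul h3 h2 (norm_nonneg _) (by positivity)) hg0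
        have h7 : (l / 2 * ‖P t‖ ^ 2 + 1 / (2 * l) * ‖D t‖ ^ 2) * η * g T t =
            (η * (l / 2)) * (‖P t‖ ^ 2 * g T t) +
              (η * (1 / (2 * l))) * (‖D t‖ ^ 2 * g T t) := by ring
        linarith
    · have h2 : g T t ≤ Real.exp (-(X / T) ^ 2 / 2) * Real.exp (-(1 / (2 * T ^ 2)) * t ^ 2) := by
        unfold g
        rw [← Real.exp_add, Real.exp_le_exp]
        have h3 : X ^ 2 ≤ t ^ 2 := by
          rw [← sq_abs t]
          exact pow_le_pow_left₀ hX h.le 2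
        have h4 : (X / T) ^ 2 ≤ (t / T) ^ 2 := by
          rw [div_pow, div_pow]
          exact div_le_div_of_nonneg_right h3 (by positivity)
        have h5 : -(1 / (2 * T ^ 2)) * t ^ 2 = -(t / T) ^ 2 / 2 := by
          field_simp
        rw [h5]
        linarith
      have h3 : ‖P t‖ * ‖D t‖ * ‖E t‖ * g T t ≤ (S * j * M) *
          (Real.exp (-(X / T) ^ 2 / 2) * Real.exp (-(1 / (2 * T ^ 2)) * t ^ 2)) :=
        mul_le_mul (mul_le_mul hPD (hEM t) (norm_nonneg _) (by positivity)) h2 hg0 (by positivity)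
      have h4 : (S * j * M) *
          (Real.exp (-(X / T) ^ 2 / 2) * Real.exp (-(1 / (2 * T ^ 2)) * t ^ 2)) =
          (S * j * M * Real.exp (-(X / T) ^ 2 / 2)) *
            Real.exp (-(1 / (2 * T ^ 2)) * t ^ 2) := by ring
      linarith
  have hI := ((((i1.const_mul (η * (l / 2))).add (i2.const_mul (η * (1 / (2 * l))))).add
    (i3.const_mul (S * j))).add (i4.const_mul (S * j * M * Real.exp (-(X / T) ^ 2 / 2))))
  have h0 := integral_mono_of_nonneg (μ := volume)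
    (Filter.Eventually.of_forall fun t => by
      have := MRL.Bas.g_nonneg T t
      show 0 ≤ ‖P t‖ * ‖D t‖ * ‖E t‖ * g T t
      positivity) hI (Filter.Eventually.of_forall hpt)
  refine h0.trans (le_of_eq ?_)
  have hA := ((i1.const_mul (η * (l / 2))).add (i2.const_mul (η * (1 / (2 * l)))))
  have hA2 := hA.add (i3.const_mul (S * j))
  have s1 := integral_add hA2 (i4.const_mul (S * j * M * Real.exp (-(X / T) ^ 2 / 2)))
  have s2 := integral_add hA (i3.const_mul (S * j))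
  have s3 := integral_add (i1.const_mul (η * (l / 2))) (i2.const_mul (η * (1 / (2 * l))))
  simp only [Pi.add_apply] at s1 s2 s3 ⊢
  rw [s1, s2, s3, integral_const_mul, integral_const_mul, integral_const_mul, integral_const_mul,
    e3, e4]
  ring

/-- the numerical end -/
theorem num {c cH CP CD κ₁ N ρ S T L X η l j : ℝ} (hc : 0 < c) (hcH : 0 < cH) (hCP : 0 < CP)
    (hCD : 0 < CD) (hN : 1 ≤ N) (hρ : 0 < ρ) (hL : 0 < L) (hT : T = 32 * L * √N / ρ)
    (hX : √N ≤ X) (hκ : 0 < κ₁) (hη : η = X ^ (-κ₁)) (hl : l = 2 * CD * η * T / (c * S))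
    (hS : cH * ρ / (L / 2) ^ 2 ≤ S) (hj : 0 ≤ j) (hL4 : L ^ 4 ≤ N ^ (κ₁ / 2))
    (h : j * (c * S) ≤ η * (l / 2 * (CP * (L / ρ) * S)) + η * (1 / (2 * l) * (CD * j * T)) +
      c / 8 * (S * j) + c / 8 * (S * j)) :
    j ≤ 16 * CP * CD / (c ^ 2 * cH) * N ^ (1 / 2 - κ₁ / 2) * ρ ^ (-(3 : ℝ)) := by
  have hN0 : 0 < N := by linarith
  have hY0 : 0 < √N := Real.sqrt_pos.2 hN0
  have hX0 : 0 < X := lt_of_lt_of_le hY0 hX
  have hη0 : 0 < η := by rw [hη]; positivity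
  have hS1 : 0 < cH * ρ / (L / 2) ^ 2 := by positivity
  have hS0 : 0 < S := lt_of_lt_of_le hS1 hS
  have hT0 : 0 < T := by rw [hT]; positivity
  have e1 : η * (l / 2 * (CP * (L / ρ) * S)) = CD * CP * η ^ 2 * T * L / (c * ρ) := by
    rw [hl]
    field_simp
  have e2 : η * (1 / (2 * l) * (CD * j * T)) = c / 4 * (S * j) := by
    rw [hl]
    field_simp
    ring
  rw [e1, e2] at h
  have h1 : j * S ≤ 2 * (CD * CP * η ^ 2 * T * L) / (c ^ 2 * ρ) := by
    have h2 : c / 2 * (j * S) ≤ CD * CP * η ^ 2 * T * L / (c * ρ) := by linarith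
    have h3 : 2 * (CD * CP * η ^ 2 * T * L) / (c ^ 2 * ρ) =
        2 / c * (CD * CP * η ^ 2 * T * L / (c * ρ)) := by
      field_simp
    rw [h3]
    calc j * S = 2 / c * (c / 2 * (j * S)) := by field_simp
      _ ≤ _ := mul_le_mul_of_nonneg_left h2 (by positivity)
  have h2 : j * (cH * ρ / (L / 2) ^ 2) ≤ 2 * (CD * CP * η ^ 2 * T * L) / (c ^ 2 * ρ) :=
    (mul_le_mul_of_nonneg_left hS hj).trans h1
  have h3 : j ≤ 16 * CP * CD / (c ^ 2 * cH) * (η ^ 2 * L ^ 4 * √N) / ρ ^ 3 := by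
    have h4 : 2 * (CD * CP * η ^ 2 * T * L) / (c ^ 2 * ρ) =
        16 * CP * CD / (c ^ 2 * cH) * (η ^ 2 * L ^ 4 * √N) / ρ ^ 3 *
          (cH * ρ / (L / 2) ^ 2) := by
      rw [hT]
      field_simp
      ring
    rw [h4] at h2
    exact le_of_mul_le_mul_right h2 hS1
  have h5 : η ^ 2 ≤ N ^ (-κ₁) := by
    have h6 : η ≤ (√N) ^ (-κ₁) := by
      rw [hη]
      exact Real.rpow_le_rpow_of_nonpos hY0 hX (by linarith)
    calc η ^ 2 ≤ ((√N) ^ (-κ₁)) ^ 2 := pow_le_pow_left₀ hη0.le h6 2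
      _ = N ^ (-κ₁) := by
          rw [Real.sqrt_eq_rpow, ← Real.rpow_mul hN0.le, ← Real.rpow_natCast,
            ← Real.rpow_mul hN0.le]
          congr 1
          push_cast
          ring
  have h6 : η ^ 2 * L ^ 4 * √N ≤ N ^ (1 / 2 - κ₁ / 2) := by
    calc η ^ 2 * L ^ 4 * √N ≤ N ^ (-κ₁) * N ^ (κ₁ / 2) * N ^ (1 / 2 : ℝ) := by
          rw [Real.sqrt_eq_rpow]
          gcongr
      _ = N ^ (1 / 2 - κ₁ / 2) := by
          rw [← Real.rpow_add hN0, ← Real.rpow_add hN0]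
          congr 1
          ring
  have h7 : ρ ^ (-(3 : ℝ)) = 1 / ρ ^ 3 := by
    rw [Real.rpow_neg hρ.le, one_div]
    congr 1
    exact_mod_cast Real.rpow_natCast ρ 3
  rw [h7, mul_one_div]
  refine h3.trans (div_le_div_of_nonneg_right ?_ (by positivity))
  exact mul_le_mul_of_nonneg_left h6 (by positivity)

theorem sum_SP_le {y : ℝ} : ∑ s ∈ SP y, Real.log s / s ≤ y ^ 2 := by
  have h1 : ∀ s ∈ SP y, Real.log s / s ≤ 1 := by
    intro s hs
    have hs1 : 1 ≤ s := (Finset.mem_Icc.1 (Finset.mem_filter.1 hs).1).1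
    have hs0 : (0 : ℝ) < s := by exact_mod_cast hs1
    rw [div_le_one hs0]
    exact (Real.log_le_sub_one_of_pos hs0).trans (by linarith)
  refine (Finset.sum_le_card_nsmul _ _ _ h1).trans ?_
  rw [nsmul_eq_mul, mul_one]
  have h2 : (SP y).card ≤ ⌊y ^ 2⌋₊ := by
    refine (Finset.card_le_card (Finset.filter_subset _ _)).trans ?_
    simp
  exact (Nat.cast_le.2 h2).trans (Nat.floor_le (by positivity))

/-- the tail -/
theorem tail {c N L ρ T : ℝ} (hc : 0 < c) (hN : 1 ≤ N) (hL : L = Real.log N) (hL8 : 8 ≤ L)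
    (hρ : N ^ (-(1 / 16) : ℝ) ≤ ρ) (hT : T = 32 * L * √N / ρ) (hN2 : 3840 / c ≤ N) :
    (N + 4) * Real.exp (-L ^ 2 / 2) * (T * √(2 * Real.pi)) ≤ c / 8 := by
  have hN0 : 0 < N := by linarith
  have hρ0 : 0 < ρ := lt_of_lt_of_le (by positivity) hρ
  have h1 : Real.exp (-L ^ 2 / 2) ≤ 1 / N ^ 4 := by
    have h2 : N ^ 4 = Real.exp (4 * L) := by
      rw [hL, mul_comm, Real.exp_mul, Real.exp_log hN0]
      exact_mod_cast (Real.rpow_natCast N 4).symm
    rw [h2, one_div, ← Real.exp_neg, Real.exp_le_exp]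
    nlinarith
  have h3 : T ≤ 32 * N ^ 2 := by
    have h4 : L ≤ N := by
      rw [hL]
      exact (Real.log_le_sub_one_of_pos hN0).trans (by linarith)
    have h5 : √N / ρ ≤ N := by
      rw [div_le_iff₀ hρ0]
      calc √N = N ^ (1 / 2 : ℝ) := Real.sqrt_eq_rpow N
        _ ≤ N ^ (1 + (-(1 / 16)) : ℝ) := Real.rpow_le_rpow_of_exponent_le hN (by norm_num)
        _ = N * N ^ (-(1 / 16) : ℝ) := by rw [Real.rpow_add hN0, Real.rpow_one]
        _ ≤ N * ρ := mul_le_mul_of_nonneg_left hρ hN0.le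
    rw [hT]
    calc 32 * L * √N / ρ = 32 * L * (√N / ρ) := by ring
      _ ≤ 32 * N * N := by gcongr
      _ = 32 * N ^ 2 := by ring
  have h4 : √(2 * Real.pi) ≤ 3 := by
    rw [Real.sqrt_le_left (by norm_num)]
    linarith [Real.pi_lt_four]
  have hT0 : 0 ≤ T := by
    rw [hT]
    have : 0 ≤ L := by linarith
    positivity
  calc (N + 4) * Real.exp (-L ^ 2 / 2) * (T * √(2 * Real.pi))
      ≤ (5 * N) * (1 / N ^ 4) * (32 * N ^ 2 * 3) := by
        gcongr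
        linarith
    _ = 480 / N := by
        field_simp
        ring
    _ ≤ c / 8 := by
        rw [div_le_iff₀ hc] at hN2
        rw [div_le_iff₀ hN0]
        linarith

end CoreF

open CoreF in
open Pool.Agent.OX.CORE1 (uc norm_uc) in
/-- **Row CORE.** -/
theorem coref (hE : EL1) (hH : HOH) (hB : BADQ) (hP : MVP) (hD : MVD) : COREF := by
  classical
  obtain ⟨κ₁, hκ1, hκ1', hE⟩ := hE
  obtain ⟨CE, X0, hCE, hE⟩ := hE 1
  obtain ⟨δ, cH, Y0, hδ, hcH, hH⟩ := hH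
  obtain ⟨c, N1, hc, hB⟩ := hB
  obtain ⟨CP, N2, hCP, hP⟩ := hP
  obtain ⟨CD, N3, hCD, hD⟩ := hD
  obtain ⟨κ, hκ⟩ : ∃ κ, κ = min (κ₁ / 16) (δ / 2) := ⟨_, rfl⟩
  have hκ0 : 0 < κ := by rw [hκ]; exact lt_min (by linarith) (by linarith)
  have hκa : κ ≤ κ₁ / 16 := by rw [hκ]; exact min_le_left _ _
  have hκb : κ ≤ δ / 2 := by rw [hκ]; exact min_le_right _ _
  -- eventual facts
  have hlog : Tendsto (fun N : ℝ => Real.log N) atTop atTop := Real.tendsto_log_atTop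
  have hsq : Tendsto (fun N : ℝ => √N) atTop atTop := Real.tendsto_sqrt_atTop
  have e3 : ∀ᶠ N : ℝ in atTop, 8 * Real.log N ^ 2 ≤ N ^ (7 / 16 : ℝ) := by
    have h := (isLittleO_log_rpow_rpow_atTop (s := 7 / 16) 2
      (by norm_num)).bound (show (0 : ℝ) < 1 / 8 by norm_num)
    filter_upwards [h, eventually_ge_atTop 1] with N hN h1
    have hl := Real.log_nonneg h1
    rw [Real.norm_eq_abs, Real.norm_eq_abs, abs_of_nonneg (by positivity),
      abs_of_nonneg (by positivity), Real.rpow_two] at hN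
    linarith
  have e6 : ∀ᶠ N : ℝ in atTop, Real.log N ^ 4 ≤ N ^ (κ₁ / 2) := by
    have h := (isLittleO_log_rpow_rpow_atTop (s := κ₁ / 2) 4
      (by positivity)).bound (show (0 : ℝ) < 1 by norm_num)
    filter_upwards [h, eventually_ge_atTop 1] with N hN h1
    have hl := Real.log_nonneg h1
    rw [Real.norm_eq_abs, Real.norm_eq_abs, abs_of_nonneg (by positivity),
      abs_of_nonneg (by positivity), one_mul] at hN
    have h4 : Real.log N ^ (4 : ℝ) = Real.log N ^ 4 := by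
      exact_mod_cast Real.rpow_natCast (Real.log N) 4
    rwa [h4] at hN
  obtain ⟨N0, hN0⟩ := ((((eventually_ge_atTop (max N1 (max N2 N3))).and
    (hsq.eventually_ge_atTop (max X0 Y0))).and (e3.and e6)).and
    (((hlog.eventually_ge_atTop (16 * CE / c)).and (hlog.eventually_ge_atTop 8)).and
      ((eventually_ge_atTop (1 : ℝ)).and
        (eventually_ge_atTop (3840 / c))))).exists_forall_of_atTop
  refine ⟨κ, 16 * CP * CD / (c ^ 2 * cH), N0, hκ0, by linarith, by positivity, ?_⟩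
  intro N ρ hN hρκ hρ4 J hJ1 hJ2 hJ3
  obtain ⟨⟨⟨f1, f2⟩, f3, f6⟩, ⟨f4, f5⟩, f7, f8⟩ := hN0 N hN
  obtain ⟨L, hL⟩ : ∃ L, L = Real.log N := ⟨_, rfl⟩
  rw [← hL] at f3 f6 f4 f5
  have hN1 : N1 ≤ N := (le_max_left _ _).trans f1
  have hN2 : N2 ≤ N := ((le_max_left _ _).trans (le_max_right _ _)).trans f1
  have hN3 : N3 ≤ N := ((le_max_right _ _).trans (le_max_right _ _)).trans f1
  have hX0 : X0 ≤ √N := (le_max_left _ _).trans f2
  have hY0 : Y0 ≤ √N := (le_max_right _ _).trans f2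
  have hNpos : 0 < N := by linarith
  have hL0 : 0 < L := by linarith
  have hρ16 : N ^ (-(1 / 16) : ℝ) ≤ ρ :=
    (Real.rpow_le_rpow_of_exponent_le f7 (by linarith)).trans hρκ
  have hρ8 : N ^ (-(1 / 8) : ℝ) ≤ ρ :=
    (Real.rpow_le_rpow_of_exponent_le f7 (by norm_num)).trans hρ16
  have hρ0 : 0 < ρ := lt_of_lt_of_le (by positivity) hρ16
  have hsN0 : 0 < √N := Real.sqrt_pos.2 hNpos
  have hsN1 : 1 ≤ √N := Real.one_le_sqrt.2 f7
  obtain ⟨T, hT⟩ : ∃ T, T = TF N ρ := ⟨_, rfl⟩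
  have hTe : T = 32 * L * √N / ρ := by rw [hT, TF, hL]
  have hT0 : 0 < T := by rw [hTe]; positivity
  obtain ⟨X, hX⟩ : ∃ X, X = T * L := ⟨_, rfl⟩
  have hYT : √N ≤ T := by
    rw [hTe, le_div_iff₀ hρ0]
    nlinarith
  have hYX : √N ≤ X := by
    rw [hX]
    nlinarith
  have hX0' : 0 < X := by linarith
  -- the conditions of row EL1
  have hXN : X ≤ 4 * N := by
    have h1 : 8 * L ^ 2 ≤ ρ * √N := by
      calc 8 * L ^ 2 ≤ N ^ (7 / 16 : ℝ) := f3
        _ = N ^ (-(1 / 16) : ℝ) * N ^ (1 / 2 : ℝ) := by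
            rw [← Real.rpow_add hNpos]
            norm_num
        _ ≤ ρ * √N := by
            rw [Real.sqrt_eq_rpow]
            exact mul_le_mul_of_nonneg_right hρ16 (by positivity)
    have h2 : √N * √N = N := Real.mul_self_sqrt hNpos.le
    have h3 : X = 32 * L ^ 2 * √N / ρ := by
      rw [hX, hTe]
      ring
    rw [h3, div_le_iff₀ hρ0]
    calc 32 * L ^ 2 * √N = 4 * (8 * L ^ 2) * √N := by ring
      _ ≤ 4 * (ρ * √N) * √N := by gcongr
      _ = 4 * (√N * √N) * ρ := by ring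
      _ = 4 * N * ρ := by rw [h2]
  have hc1 : √X / 2 ≤ √N := by
    have h1 : √X ≤ √(4 * N) := Real.sqrt_le_sqrt hXN
    rw [show (4 : ℝ) = 2 ^ 2 by norm_num, Real.sqrt_mul (by norm_num),
      Real.sqrt_sq (by norm_num)] at h1
    linarith
  have hc2 : √N ≤ X ^ 2 := by nlinarith
  obtain ⟨R, hR1, hR2⟩ := hE X (√N) (hX0.trans hYX) hc1 hc2
  -- the maxima over the cells
  have hmax : ∀ i : ℤ, ∃ s ∈ Set.Icc (i : ℝ) (i + 1), ∀ t ∈ Set.Icc (i : ℝ) (i + 1),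
      ‖Ey (√N) t‖ ≤ ‖Ey (√N) s‖ := by
    intro i
    obtain ⟨s, hs, hs2⟩ := isCompact_Icc.exists_isMaxOn (s := Set.Icc (i : ℝ) (i + 1))
      ⟨(i : ℝ), by simp⟩ (continuous_Ey (√N)).norm.continuousOn
    exact ⟨s, hs, fun t ht => hs2 ht⟩
  choose τ hτ1 hτ2 using hmax
  have hRsum := hR2 τ fun i _ => hτ1 i
  -- the sum over the bad points
  obtain ⟨S, hS⟩ : ∃ S, S = SI (√N) ρ := ⟨_, rfl⟩
  have hbad : ∀ x ∈ J, c * S ≤ ‖Er N ρ x‖ := by
    intro x hx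
    have h1 := hB N ρ x hN1 hρ8 hρ4 (hJ1 x hx).1 (hJ1 x hx).2 (hJ3 x hx)
    rw [hS]
    exact h1
  have hsum : (J.card : ℝ) * (c * S) ≤ ∑ x ∈ J, ‖Er N ρ x‖ := by
    have h1 := Finset.card_nsmul_le_sum J (fun x => ‖Er N ρ x‖) (c * S) hbad
    rwa [nsmul_eq_mul] at h1
  obtain ⟨D, hDd⟩ : ∃ D : ℝ → ℂ, D = fun t => ∑ x ∈ J, uc (Er N ρ x) * xt x t := ⟨_, rfl⟩
  have hDc : Continuous D := by
    rw [hDd]
    exact continuous_finsetSum _ fun x _ => continuous_const.mul (continuous_xt x)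
  have hDn : ∀ t, ‖D t‖ ≤ J.card := by
    intro t
    rw [hDd]
    refine (norm_sum_le _ _).trans ?_
    have : ∀ x ∈ J, ‖uc (Er N ρ x) * xt x t‖ ≤ 1 := by
      intro x _
      rw [norm_mul, norm_uc, norm_xt, mul_one]
    refine (Finset.sum_le_card_nsmul _ _ _ this).trans ?_
    rw [nsmul_eq_mul, mul_one]
  obtain ⟨η, hη⟩ : ∃ η, η = X ^ (-κ₁) := ⟨_, rfl⟩
  have hη0 : 0 < η := by rw [hη]; positivity
  have hSlow : cH * ρ / (L / 2) ^ 2 ≤ S := by
    have h1 : (√N) ^ (-δ) ≤ ρ := by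
      refine le_trans ?_ hρκ
      rw [Real.sqrt_eq_rpow, ← Real.rpow_mul hNpos.le]
      exact Real.rpow_le_rpow_of_exponent_le f7 (by linarith)
    have h2 := hH (√N) ρ hY0 h1 hρ4
    rw [Real.log_sqrt hNpos.le, ← hL, ← hS] at h2
    exact h2
  have hS0 : 0 < S := lt_of_lt_of_le (by positivity) hSlow
  obtain ⟨l, hl⟩ : ∃ l, l = 2 * CD * η * T / (c * S) := ⟨_, rfl⟩
  have hl0 : 0 < l := by rw [hl]; positivity
  have h0 : ∑ x ∈ J, ‖Er N ρ x‖ ≤
      ∫ t : ℝ, ‖Pq (√N) ρ t‖ * ‖D t‖ * ‖Ey (√N) t‖ * g T t := by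
    rw [hDd, hT]
    exact sum_Er (by rw [← hT]; exact hT0) J
  have h1 := split (P := Pq (√N) ρ) (D := D) (E := Ey (√N)) (S := S) (j := (J.card : ℝ))
    (M := ∑ s ∈ SP (√N), Real.log s / s + 4) (η := η) (T := T) (X := X) (l := l)
    (continuous_Pq _ _) hDc (fun t => by rw [hS]; exact norm_Pq_le _ _ t) hDn (norm_Ey_le _)
    hη0.le hT0 hX0'.le R (fun t ht hR => by
      rw [hη]
      exact hR1 t (by linarith) hR) τ hτ2 hl0
  have hmain := (hsum.trans h0).trans h1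
  have hP' := hP N ρ hN2 hρ0 hρ4
  have hD' := hD N ρ hN3 hρ0 hρ4 J (fun x => uc (Er N ρ x)) hJ1 hJ2 (fun x => (norm_uc _).le)
  rw [← hT, ← hL, ← hS] at hP'
  rw [← hT] at hD'
  have hD2 : ∫ t : ℝ, ‖D t‖ ^ 2 * g T t ≤ CD * J.card * T := by
    rw [hDd]
    exact hD'
  have hj0 : (0 : ℝ) ≤ J.card := Nat.cast_nonneg _
  have hSj : 0 ≤ S * (J.card : ℝ) := mul_nonneg hS0.le hj0
  -- the four terms
  have t1 : η * (l / 2 * ∫ t : ℝ, ‖Pq (√N) ρ t‖ ^ 2 * g T t) ≤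
      η * (l / 2 * (CP * (L / ρ) * S)) := by gcongr
  have t2 : η * (1 / (2 * l) * ∫ t : ℝ, ‖D t‖ ^ 2 * g T t) ≤
      η * (1 / (2 * l) * (CD * J.card * T)) := by gcongr
  have t3 : S * (J.card : ℝ) * ∑ i ∈ R, ‖Ey (√N) (τ i)‖ ≤ c / 8 * (S * J.card) := by
    have h1 : CE * Real.log X ^ (-(1 : ℝ)) ≤ c / 8 := by
      have h2 : L / 2 ≤ Real.log X := by
        rw [hL, ← Real.log_sqrt hNpos.le]
        exact Real.log_le_log hsN0 hYX
      have h3 : 0 < Real.log X := by linarith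
      rw [Real.rpow_neg h3.le, Real.rpow_one, ← div_eq_mul_inv, div_le_iff₀ h3]
      rw [div_le_iff₀ hc] at f4
      nlinarith
    calc S * (J.card : ℝ) * ∑ i ∈ R, ‖Ey (√N) (τ i)‖ ≤ S * (J.card : ℝ) * (c / 8) :=
          mul_le_mul_of_nonneg_left (hRsum.trans h1) hSj
      _ = c / 8 * (S * J.card) := by ring
  have t4 : S * (J.card : ℝ) * (∑ s ∈ SP (√N), Real.log s / s + 4) *
      Real.exp (-(X / T) ^ 2 / 2) * (T * √(2 * Real.pi)) ≤ c / 8 * (S * J.card) := by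
    have h1 : X / T = L := by
      rw [hX]
      field_simp
    have h2 := tail hc f7 hL f5 hρ16 hTe f8
    have h3 : ∑ s ∈ SP (√N), Real.log s / s + 4 ≤ N + 4 := by
      have h4 := sum_SP_le (y := √N)
      rw [Real.sq_sqrt hNpos.le] at h4
      linarith
    have h5 : 0 ≤ Real.exp (-L ^ 2 / 2) * (T * √(2 * Real.pi)) := by positivity
    rw [h1]
    calc S * (J.card : ℝ) * (∑ s ∈ SP (√N), Real.log s / s + 4) *
          Real.exp (-L ^ 2 / 2) * (T * √(2 * Real.pi))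
        = S * (J.card : ℝ) * ((∑ s ∈ SP (√N), Real.log s / s + 4) *
          (Real.exp (-L ^ 2 / 2) * (T * √(2 * Real.pi)))) := by ring
      _ ≤ S * (J.card : ℝ) * ((N + 4) * (Real.exp (-L ^ 2 / 2) * (T * √(2 * Real.pi)))) := by
          gcongr
      _ = S * (J.card : ℝ) * ((N + 4) * Real.exp (-L ^ 2 / 2) * (T * √(2 * Real.pi))) := by ring
      _ ≤ S * (J.card : ℝ) * (c / 8) := mul_le_mul_of_nonneg_left h2 hSj
      _ = c / 8 * (S * J.card) := by ring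
  have hfin := num hc hcH hCP hCD f7 hρ0 hL0 hTe hYX hκ1 hη hl hSlow hj0 f6 (by linarith)
  refine hfin.trans ?_
  refine mul_le_mul_of_nonneg_right (mul_le_mul_of_nonneg_left ?_ (by positivity))
    (by positivity)
  exact Real.rpow_le_rpow_of_exponent_le f7 (by linarith)

end Pool.Agent.FN82
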