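import Mathlib
import Pool.Agent.Lib.FN82.Defs
import Pool.Agent.Lib.OX.SQH
import Pool.Agent.Lib.OX.SQL

/-!
# PROJECT FN82 (MP_927447_nt), row EL1: the error term of the long prime polynomial is a negative
power of `X` outside a set of unit cells over which its sum is smaller than any power of the
logarithm.  helper54.

Adapted from the rows SQL, SQH, SQ of project OX (helper99, helper16): first powers instead of
squares, and a zero density estimate without sparseness.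
-/

set_option autoImplicit false

namespace Pool.Agent.FN82

open Finset Filter Topology Pool.Agent.MRL Pool.Agent.MRF Pool.Agent.OX

namespace EL1r

/-- one cell. -/
theorem cell1 {CG CP : ℝ} (hCG : 0 < CG) (hCP : 0 < CP)
    (hG : ∀ X δ t₀ : ℝ, 3 ≤ X → 1 / Real.log X ≤ δ → δ ≤ 1 / 16 →
      |t₀| ≤ X → (∀ s : ℂ, 1 - 2 * δ < s.re → |s.im - t₀| ≤ 1 → riemannZeta₁ s ≠ 0) →
      ∀ s : ℂ, s.im = t₀ → 1 - δ ≤ s.re → s.re ≤ 3 →
        ‖logDeriv riemannZeta₁ s‖ ≤ CG * (Real.log X) ^ 2)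
    (hP : ∀ y V δ B t : ℝ, 3 ≤ y → 1 ≤ V → 0 < δ → δ ≤ 1 / 16 →
      1 ≤ B → (∀ s : ℂ, 1 - δ ≤ s.re → s.re ≤ 3 → |s.im - t| ≤ V →
        riemannZeta₁ s ≠ 0 ∧ ‖logDeriv riemannZeta₁ s‖ ≤ B) →
      ‖Ey y t‖ ≤ CP * (B * y ^ (-δ) + (B + Real.log y) * Real.exp (-V ^ 2 / 2)))
    {X y δ τ : ℝ} {i : ℤ} (hL : 4 ≤ Real.log X) (hX0 : 0 < X) (hy1 : √X / 2 ≤ y)
    (hy2 : y ≤ X ^ 2) (hi : |(i : ℝ)| ≤ 3 * X)
    (hτ : τ ∈ Set.Icc (i : ℝ) (i + 1)) (hδ : 1 / Real.log X ≤ δ) (hδ' : δ ≤ 1 / 16)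
    (hz : ∀ s : ℂ, 1 - 2 * δ < s.re → |s.im - i| ≤ Real.log X + 3 → riemannZeta₁ s ≠ 0) :
    ‖Ey y τ‖ ≤ 3 * CP * (9 * CG + 11) * (Real.log X) ^ 2 * X ^ (-(δ / 2)) := by
  set L := Real.log X with hLd
  have hL0 : 0 < L := by linarith
  have hXe : X = Real.exp L := (Real.exp_log hX0).symm
  have hX36 : 36 ≤ X := by
    rw [hXe]
    have h1 : Real.exp 4 ≤ Real.exp L := Real.exp_le_exp.2 hL
    have h2 : (36 : ℝ) ≤ Real.exp 4 := by
      have h3 : (2.7 : ℝ) < Real.exp 1 := by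
        have := Real.exp_one_gt_d9
        linarith
      have h4 : Real.exp 4 = (Real.exp 1) ^ 4 := by
        rw [← Real.exp_nat_mul]
        norm_num
      rw [h4]
      have h5 : (2.7 : ℝ) ^ 4 ≤ (Real.exp 1) ^ 4 := pow_le_pow_left₀ (by norm_num) h3.le 4
      norm_num at h5
      linarith
    linarith
  have hLX : L ≤ X := by
    have := Real.add_one_le_exp L
    rw [← hXe] at this
    linarith
  have hs6 : 6 ≤ √X := by
    rw [show (6 : ℝ) = √36 by rw [show (36 : ℝ) = 6 ^ 2 by norm_num]; simp]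
    exact Real.sqrt_le_sqrt hX36
  have hy3 : 3 ≤ y := by linarith
  have hδ0 : 0 < δ := lt_of_lt_of_le (by positivity) hδ
  have hτ' : |τ - i| ≤ 1 := by
    rw [abs_le]
    constructor <;> linarith [hτ.1, hτ.2]
  -- the bound for the logarithmic derivative
  have hlog8 : Real.log (8 * X) ≤ 3 * L := by
    have h1 : 8 * X ≤ X ^ 3 := by nlinarith [hX36, sq_nonneg X]
    have h2 := Real.log_le_log (by positivity) h1
    rw [Real.log_pow] at h2
    push_cast at h2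
    exact h2
  have hlog8' : L ≤ Real.log (8 * X) := Real.log_le_log hX0 (by linarith)
  have hB : ∀ s : ℂ, 1 - δ ≤ s.re → s.re ≤ 3 → |s.im - τ| ≤ L →
      riemannZeta₁ s ≠ 0 ∧ ‖logDeriv riemannZeta₁ s‖ ≤ 9 * (CG + 1) * L ^ 2 := by
    intro s hs1 hs3 hsτ
    have hsi : |s.im - i| ≤ L + 1 := by
      have := abs_sub_le s.im τ i
      linarith
    refine ⟨hz s (by linarith) (by linarith), ?_⟩
    have hsim : |s.im| ≤ 8 * X := by
      have h1 : |s.im| ≤ |s.im - i| + |(i : ℝ)| := by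
        have := abs_sub_le s.im i 0
        simpa using this
      linarith
    have h1 := hG (8 * X) δ s.im (by linarith) ?_ hδ' hsim ?_ s rfl hs1 hs3
    · refine h1.trans ?_
      have h2 : (Real.log (8 * X)) ^ 2 ≤ (3 * L) ^ 2 :=
        pow_le_pow_left₀ (by linarith) hlog8 2
      have h3 : CG * (Real.log (8 * X)) ^ 2 ≤ CG * (3 * L) ^ 2 :=
        mul_le_mul_of_nonneg_left h2 hCG.le
      nlinarith [sq_nonneg L]
    · refine le_trans ?_ hδ
      exact one_div_le_one_div_of_le hL0 hlog8'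
    · intro s' hs' hs'im
      refine hz s' hs' ?_
      have := abs_sub_le s'.im s.im i
      linarith
  have hP1 := hP y L δ (9 * (CG + 1) * L ^ 2) τ hy3 (by linarith) hδ0 hδ'
    (by nlinarith [mul_pos hCG hL0, mul_pos (mul_pos hCG hL0) hL0]) hB
  have hlogy : Real.log y ≤ 2 * L ^ 2 := by
    have h1 := Real.log_le_log (by linarith) hy2
    rw [Real.log_pow] at h1
    push_cast at h1
    nlinarith
  -- the powers
  have hpy : y ^ (-δ) ≤ 2 * X ^ (-(δ / 2)) := by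
    have h1 : y ^ (-δ) ≤ (√X / 2) ^ (-δ) :=
      Real.rpow_le_rpow_of_nonpos (by positivity) hy1 (by linarith)
    refine h1.trans ?_
    rw [Real.div_rpow (Real.sqrt_nonneg _) (by norm_num), Real.sqrt_eq_rpow,
      ← Real.rpow_mul hX0.le]
    have h2 : (1 / 2 : ℝ) * (-δ) = -(δ / 2) := by ring
    rw [h2]
    have h3 : (2 : ℝ) ^ (-δ) ≥ 1 / 2 := by
      have h4 : (2 : ℝ) ^ (-1 : ℝ) ≤ (2 : ℝ) ^ (-δ) :=
        Real.rpow_le_rpow_of_exponent_le (by norm_num) (by linarith)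
      rw [Real.rpow_neg_one] at h4
      linarith
    have h5 : 0 < X ^ (-(δ / 2)) := Real.rpow_pos_of_pos hX0 _
    rw [div_le_iff₀ (by positivity)]
    nlinarith
  have hpe : Real.exp (-L ^ 2 / 2) ≤ X ^ (-(δ / 2)) := by
    rw [Real.rpow_def_of_pos hX0, ← hLd]
    refine Real.exp_le_exp.2 ?_
    nlinarith [mul_pos hδ0 hL0]
  have hpos : 0 < X ^ (-(δ / 2)) := Real.rpow_pos_of_pos hX0 _
  refine hP1.trans ?_
  have h1 : 9 * (CG + 1) * L ^ 2 * y ^ (-δ) ≤
      9 * (CG + 1) * L ^ 2 * (2 * X ^ (-(δ / 2))) :=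
    mul_le_mul_of_nonneg_left hpy (by positivity)
  have h2 : (9 * (CG + 1) * L ^ 2 + Real.log y) * Real.exp (-L ^ 2 / 2) ≤
      ((9 * CG + 11) * L ^ 2) * X ^ (-(δ / 2)) := by
    refine mul_le_mul (by nlinarith) hpe (Real.exp_pos _).le (by positivity)
  have h3 : 9 * (CG + 1) * L ^ 2 * y ^ (-δ) +
      (9 * (CG + 1) * L ^ 2 + Real.log y) * Real.exp (-L ^ 2 / 2) ≤
      3 * (9 * CG + 11) * L ^ 2 * X ^ (-(δ / 2)) := by
    have h4 : 0 ≤ L ^ 2 * X ^ (-(δ / 2)) := by positivity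
    nlinarith
  calc CP * (9 * (CG + 1) * L ^ 2 * y ^ (-δ) +
      (9 * (CG + 1) * L ^ 2 + Real.log y) * Real.exp (-L ^ 2 / 2))
      ≤ CP * (3 * (9 * CG + 11) * L ^ 2 * X ^ (-(δ / 2))) :=
        mul_le_mul_of_nonneg_left h3 hCP.le
    _ = _ := by ring

/-- the number of cells of one type. -/
theorem ncount1 {κ CD : ℝ} (hCD : 1 ≤ CD)
    (hD : ∀ T σ : ℝ, CD ≤ T → 1 - κ ≤ σ → σ ≤ 1 → ∀ Z : Finset ℂ,
      (∀ ρ ∈ Z, riemannZeta ρ = 0 ∧ σ ≤ ρ.re ∧ T ≤ |ρ.im| ∧ |ρ.im| ≤ 8 * T) →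
      (∀ ρ ∈ Z, ∀ ρ' ∈ Z, ρ ≠ ρ' → 1 ≤ |ρ.im - ρ'.im|) →
      (Z.card : ℝ) ≤ T ^ ((1 / 20) * (1 - σ)) * (Real.log T) ^ CD)
    {X T δ : ℝ} (hL : 4 ≤ Real.log X) (hX0 : 0 < X) (hT1 : Real.log X + 7 + CD ≤ T / 2)
    (hTX : T ≤ X) (hδ0 : 0 < δ) (h4 : 4 * δ ≤ κ) (R : Finset ℤ)
    (hR : ∀ i ∈ R, T ≤ |(i : ℝ)| ∧ |(i : ℝ)| ≤ 2 * T + 1)
    (hz : ∀ i ∈ R, ∃ s : ℂ, 1 - 4 * δ < s.re ∧ |s.im - i| ≤ Real.log X + 3 ∧
      riemannZeta₁ s = 0) :
    (R.card : ℝ) ≤ 11 * (Real.log X) ^ (1 + CD) * X ^ (δ / 5) := by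
  classical
  set L := Real.log X with hLd
  have hL0 : 0 < L := by linarith
  have hch : ∀ i : ℤ, ∃ s : ℂ, i ∈ R → 1 - 4 * δ < s.re ∧ |s.im - i| ≤ L + 3 ∧
      riemannZeta₁ s = 0 := by
    intro i
    by_cases hi : i ∈ R
    · obtain ⟨s, hs⟩ := hz i hi
      exact ⟨s, fun _ => hs⟩
    · exact ⟨0, fun h => absurd h hi⟩
  choose f hf using hch
  have hT24 : 24 ≤ T := by linarith
  have hT2 : 1 ≤ T / 2 := by linarith
  have hcount := SQHr.count R L ((T / 2) ^ (δ / 5) * (Real.log (T / 2)) ^ CD) hL0.le f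
    (fun i hi => (hf i hi).2.1) (fun Z hZ hsep => by
      have h3 := hD (T / 2) (1 - 4 * δ) (by linarith) (by linarith) (by linarith) Z
        (fun ρ hρ => by
          obtain ⟨i, hi, rfl⟩ := Finset.mem_image.1 (hZ hρ)
          obtain ⟨hs1, hs2, hs3⟩ := hf i hi
          have hlow : T / 2 ≤ |(f i).im| := by
            have h5 : |(i : ℝ)| ≤ |(i : ℝ) - (f i).im| + |(f i).im| := by
              have := abs_sub_le (i : ℝ) (f i).im 0
              simpa using this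
            rw [abs_sub_comm] at h5
            have := (hR i hi).1
            linarith
          have hup : |(f i).im| ≤ 8 * (T / 2) := by
            have h5 : |(f i).im| ≤ |(f i).im - i| + |(i : ℝ)| := by
              have := abs_sub_le (f i).im (i : ℝ) 0
              simpa using this
            have := (hR i hi).2
            linarith
          refine ⟨SQHr.zeta_zero hs3 ?_, by linarith, hlow, hup⟩
          intro h6
          rw [h6] at hlow
          simp at hlow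
          linarith) hsep
      have h6 : (1 / 20 : ℝ) * (1 - (1 - 4 * δ)) = δ / 5 := by ring
      rw [h6] at h3
      exact h3)
  refine hcount.trans ?_
  have hlogT : Real.log (T / 2) ≤ L := Real.log_le_log (by linarith) (by linarith)
  have hlogT0 : 0 ≤ Real.log (T / 2) := Real.log_nonneg hT2
  have h1 : (T / 2) ^ (δ / 5) ≤ X ^ (δ / 5) :=
    Real.rpow_le_rpow (by linarith) (by linarith) (by positivity)
  have h2 : (Real.log (T / 2)) ^ CD ≤ L ^ CD := Real.rpow_le_rpow hlogT0 hlogT (by linarith)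
  have h3 : (T / 2) ^ (δ / 5) * (Real.log (T / 2)) ^ CD ≤ X ^ (δ / 5) * L ^ CD :=
    mul_le_mul h1 h2 (Real.rpow_nonneg hlogT0 _) (Real.rpow_nonneg hX0.le _)
  have h5 : 0 ≤ X ^ (δ / 5) * L ^ CD :=
    mul_nonneg (Real.rpow_nonneg hX0.le _) (Real.rpow_nonneg hL0.le _)
  calc (2 * L + 9) * ((T / 2) ^ (δ / 5) * (Real.log (T / 2)) ^ CD)
      ≤ (2 * L + 9) * (X ^ (δ / 5) * L ^ CD) := mul_le_mul_of_nonneg_left h3 (by linarith)
    _ ≤ (11 * L) * (X ^ (δ / 5) * L ^ CD) := mul_le_mul_of_nonneg_right (by linarith) h5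
    _ = 11 * L ^ (1 + CD) * X ^ (δ / 5) := by
      rw [Real.rpow_add hL0, Real.rpow_one]
      ring

/-- one dyadic range of heights. -/
theorem sqh1 (hG : ZG) (hP : PG) (hF : ZF) (hD : ZDE) : ∃ δ₀ : ℝ, 0 < δ₀ ∧ δ₀ ≤ 1 / 64 ∧
    ∀ B : ℝ, ∃ C X₀ : ℝ, 0 < C ∧ ∀ X y T : ℝ, X₀ ≤ X →
    √X / 2 ≤ y → y ≤ X ^ 2 → Real.exp (√(Real.log X)) ≤ T → T ≤ X →
    ∀ (R : Finset ℤ) (τ : ℤ → ℝ), (∀ i ∈ R, T ≤ |(i : ℝ)| ∧ |(i : ℝ)| ≤ 2 * T + 1) →
    (∀ i ∈ R, ∃ s : ℂ, 1 - 2 * δ₀ < s.re ∧ |s.im - i| ≤ Real.log X + 3 ∧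
      riemannZeta₁ s = 0) → (∀ i ∈ R, τ i ∈ Set.Icc (i : ℝ) (i + 1)) →
    ∑ i ∈ R, ‖Ey y (τ i)‖ ≤ C * (Real.log X) ^ (-B) := by
  classical
  obtain ⟨CG, hCG, hG⟩ := hG
  obtain ⟨CP, hCP, hP⟩ := hP
  obtain ⟨cF, CF, hcF, hCF, hF⟩ := hF
  obtain ⟨κ, CD, hκ0, hκ, hCD, hD⟩ := hD (1 / 20) (by norm_num)
  refine ⟨κ / 4, by linarith, by linarith, fun B => ?_⟩
  set c0 : ℝ := cF / 8 with hc0
  have hc00 : 0 < c0 := by positivity
  set K : ℝ := 3 * CP * (9 * CG + 11) with hK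
  have hK0 : 0 < K := by positivity
  -- the eventual conditions
  have hev1 : ∀ᶠ L : ℝ in Filter.atTop, max (1 / c0) (4 * c0 / κ) ≤ L ^ (1 / 20 : ℝ) :=
    (tendsto_rpow_atTop (by norm_num : (0 : ℝ) < 1 / 20)).eventually_ge_atTop _
  have hev2 := SQHr.lim_aux (4 + CD + B) (3 / 10 * c0) (by positivity)
  obtain ⟨L0, hL0⟩ := Filter.eventually_atTop.1
    ((hev1.and hev2).and (Filter.eventually_ge_atTop (128 * (8 + CD))))
  refine ⟨11 * K * (κ / (4 * c0)), Real.exp (max L0 4), by positivity, ?_⟩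
  intro X y T hX hy1 hy2 hT1 hTX R τ hR hzR hτ
  have hX0 : 0 < X := lt_of_lt_of_le (Real.exp_pos _) hX
  set L := Real.log X with hLd
  have hLge : max L0 4 ≤ L := by
    rw [hLd, ← Real.log_exp (max L0 4)]
    exact Real.log_le_log (Real.exp_pos _) hX
  have hL4 : 4 ≤ L := (le_max_right _ _).trans hLge
  have hLpos : 0 < L := by linarith
  obtain ⟨⟨hc1, hc2⟩, hc3⟩ := hL0 L ((le_max_left _ _).trans hLge)
  have hXe : X = Real.exp L := (Real.exp_log hX0).symm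
  -- T is large
  have hT2 : L + 7 + CD ≤ T / 2 := by
    have h1 : (1 + √L / 2 + (√L / 2) ^ 2 / 2) ^ 2 ≤ Real.exp (√L) := by
      have h2 := Real.quadratic_le_exp_of_nonneg (show 0 ≤ √L / 2 by positivity)
      have h3 : Real.exp (√L) = (Real.exp (√L / 2)) ^ 2 := by
        rw [← Real.exp_nat_mul]
        congr 1
        push_cast
        ring
      rw [h3]
      exact pow_le_pow_left₀ (by positivity) h2 2
    have hsq : √L ^ 2 = L := Real.sq_sqrt hLpos.le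
    have h4 : (L / 8) ^ 2 ≤ (1 + √L / 2 + (√L / 2) ^ 2 / 2) ^ 2 := by
      refine pow_le_pow_left₀ (by positivity) ?_ 2
      have : (√L / 2) ^ 2 / 2 = L / 8 := by
        rw [div_pow, hsq]
        ring
      rw [this]
      have := Real.sqrt_nonneg L
      linarith
    have h5 : (L / 8) ^ 2 ≤ T := h4.trans (h1.trans hT1)
    nlinarith
  have hT24 : 24 ≤ T := by linarith
  -- 2 X + L + 6 ≤ X ^ 2
  have hXL : L + 1 ≤ X := by
    have := Real.add_one_le_exp L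
    rw [← hXe] at this
    exact this
  have hX24 : 24 ≤ X := by linarith
  have hlog2 : Real.log (2 * X + L + 7) ≤ 2 * L := by
    have h1 : 2 * X + L + 7 ≤ X ^ 2 := by nlinarith
    have h2 := Real.log_le_log (by positivity) h1
    rw [Real.log_pow] at h2
    push_cast at h2
    exact h2
  -- the sequence δ_j
  set d : ℕ → ℝ := fun j => κ / 4 * (1 / 2 : ℝ) ^ j with hd
  have hd0 : ∀ j, 0 < d j := fun j => by simp only [hd]; positivity
  have hdS : ∀ j, d j = 2 * d (j + 1) := fun j => by simp only [hd, pow_succ]; ring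
  have hdle : ∀ j, 4 * d j ≤ κ := fun j => by
    simp only [hd]
    have : (1 / 2 : ℝ) ^ j ≤ 1 := pow_le_one₀ (by norm_num) (by norm_num)
    nlinarith
  have hdanti : ∀ i j, i ≤ j → d j ≤ d i := fun i j hij => by
    simp only [hd]
    refine mul_le_mul_of_nonneg_left ?_ (by linarith)
    exact pow_le_pow_of_le_one (by norm_num) (by norm_num) hij
  set D : ℝ := cF / (2 * (2 * L) ^ (19 / 20 : ℝ)) with hDd
  have h2L : 0 < (2 * L) ^ (19 / 20 : ℝ) := Real.rpow_pos_of_pos (by linarith) _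
  have hD0 : 0 < D := by positivity
  have hexJ : ∃ j, d j ≤ D := by
    have h1 : Filter.Tendsto d Filter.atTop (nhds 0) := by
      have := (tendsto_pow_atTop_nhds_zero_of_lt_one (r := (1 / 2 : ℝ)) (by norm_num)
        (by norm_num)).const_mul (κ / 4)
      simpa [hd] using this
    have h2 := h1.eventually (eventually_le_nhds hD0)
    exact h2.exists
  set J := Nat.find hexJ with hJ
  have hJ1 : d J ≤ D := Nat.find_spec hexJ
  -- lower bound for d J
  have hL1920 : 0 < L ^ (19 / 20 : ℝ) := Real.rpow_pos_of_pos hLpos _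
  have hL20 : L ^ (19 / 20 : ℝ) * L ^ (1 / 20 : ℝ) = L := by
    rw [← Real.rpow_add hLpos]
    norm_num
  have hdJ : c0 / L ^ (19 / 20 : ℝ) ≤ d J := by
    rcases Nat.eq_zero_or_pos J with h0 | h0
    · have h1 : d J = κ / 4 := by rw [h0]; simp [hd]
      rw [h1, div_le_iff₀ hL1920]
      have h2 : L ^ (1 / 20 : ℝ) ≤ L ^ (19 / 20 : ℝ) :=
        Real.rpow_le_rpow_of_exponent_le (by linarith) (by norm_num)
      have h3 : 4 * c0 / κ ≤ L ^ (19 / 20 : ℝ) := ((le_max_right _ _).trans hc1).trans h2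
      rw [div_le_iff₀ hκ0] at h3
      linarith
    · have h1 : ¬ d (J - 1) ≤ D := Nat.find_min hexJ (by omega)
      have h2 := hdS (J - 1)
      rw [Nat.sub_add_cancel h0] at h2
      push Not at h1
      rw [h2] at h1
      have h3 : (2 * L) ^ (19 / 20 : ℝ) ≤ 2 * L ^ (19 / 20 : ℝ) := by
        rw [Real.mul_rpow (by norm_num) hLpos.le]
        refine mul_le_mul_of_nonneg_right ?_ hL1920.le
        have : (2 : ℝ) ^ (19 / 20 : ℝ) ≤ (2 : ℝ) ^ (1 : ℝ) :=
          Real.rpow_le_rpow_of_exponent_le (by norm_num) (by norm_num)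
        simpa using this
      have h4 : cF / (2 * (2 * L ^ (19 / 20 : ℝ))) ≤ D :=
        div_le_div_of_nonneg_left hcF.le (by positivity) (by linarith)
      have h5 : c0 / L ^ (19 / 20 : ℝ) = (cF / (2 * (2 * L ^ (19 / 20 : ℝ)))) / 2 := by
        rw [hc0]
        field_simp
        ring
      rw [h5]
      linarith
  have hdJ1 : 1 / L ≤ d J := by
    refine le_trans ?_ hdJ
    rw [div_le_div_iff₀ hLpos hL1920]
    have h1 : 1 / c0 ≤ L ^ (1 / 20 : ℝ) := (le_max_left _ _).trans hc1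
    rw [div_le_iff₀ hc00] at h1
    have h2 : L ^ (19 / 20 : ℝ) * 1 ≤ L ^ (19 / 20 : ℝ) * (L ^ (1 / 20 : ℝ) * c0) :=
      mul_le_mul_of_nonneg_left h1 hL1920.le
    rw [← mul_assoc, hL20] at h2
    linarith
  -- the property
  set P : ℤ → ℕ → Prop := fun i j => ∀ s : ℂ, 1 - 2 * d j < s.re →
    |s.im - i| ≤ L + 3 → riemannZeta₁ s ≠ 0 with hPd
  have hP0 : ∀ i ∈ R, ¬ P i 0 := by
    intro i hi h0
    obtain ⟨s, hs1, hs2, hs3⟩ := hzR i hi
    refine h0 s ?_ hs2 hs3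
    simp only [hd, pow_zero, mul_one]
    linarith
  have hPJ : ∀ i ∈ R, P i J := by
    intro i hi s hs1 hs2
    rcases le_or_gt 1 s.re with h1 | h1
    · exact SQHr.zeta1_ne h1
    refine (hF s ?_ (by linarith)).1
    have him : |s.im| ≤ 2 * X + L + 4 := by
      have h5 : |s.im| ≤ |s.im - i| + |(i : ℝ)| := by
        have := abs_sub_le s.im (i : ℝ) 0
        simpa using this
      have := (hR i hi).2
      linarith
    have h2 : Real.log (3 + |s.im|) ≤ 2 * L := by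
      refine le_trans (Real.log_le_log (by positivity) (by linarith)) hlog2
    have h3 : 0 < Real.log (3 + |s.im|) := Real.log_pos (by linarith [abs_nonneg s.im])
    have h4 : (Real.log (3 + |s.im|)) ^ (19 / 20 : ℝ) ≤ (2 * L) ^ (19 / 20 : ℝ) :=
      Real.rpow_le_rpow h3.le h2 (by norm_num)
    have h5 : cF / (2 * L) ^ (19 / 20 : ℝ) ≤ cF / (Real.log (3 + |s.im|)) ^ (19 / 20 : ℝ) :=
      div_le_div_of_nonneg_left hcF.le (Real.rpow_pos_of_pos h3 _) h4
    have h6 : 2 * D = cF / (2 * L) ^ (19 / 20 : ℝ) := by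
      rw [hDd]
      field_simp
    linarith
  set jj : ℤ → ℕ := fun i => sInf {j | P i j} with hjj
  have hjj1 : ∀ i ∈ R, P i (jj i) := fun i hi => Nat.sInf_mem (s := {j | P i j}) ⟨J, hPJ i hi⟩
  have hjj2 : ∀ i ∈ R, jj i ≤ J := fun i hi => Nat.sInf_le (hPJ i hi)
  -- one type
  have htype : ∀ j ∈ Finset.range (J + 1),
      ∑ i ∈ R.filter (fun i => jj i = j), ‖Ey y (τ i)‖ ≤
        11 * K * L ^ (3 + CD) * Real.exp (-(3 / 10 * c0 * L ^ (1 / 20 : ℝ))) := by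
    intro j hj
    have hjJ : j ≤ J := by
      rw [Finset.mem_range] at hj
      omega
    have hdj : d J ≤ d j := hdanti j J hjJ
    have hcell : ∀ i ∈ R.filter (fun i => jj i = j),
        ‖Ey y (τ i)‖ ≤ K * L ^ 2 * X ^ (-(d j / 2)) := by
      intro i hi
      rw [Finset.mem_filter] at hi
      refine cell1 hCG hCP hG hP hL4 hX0 hy1 hy2 (by linarith [(hR i hi.1).2]) (hτ i hi.1)
        (hdJ1.trans hdj) (by linarith [hdle j]) ?_
      have := hjj1 i hi.1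
      rw [hi.2] at this
      exact this
    have hN : ((R.filter (fun i => jj i = j)).card : ℝ) ≤
        11 * L ^ (1 + CD) * X ^ (d j / 5) := by
      rcases Nat.eq_zero_or_pos j with h0 | h0
      · have h1 : R.filter (fun i => jj i = j) = ∅ := by
          rw [Finset.filter_eq_empty_iff]
          intro i hi hij
          have h2 := hjj1 i hi
          rw [hij, h0] at h2
          exact hP0 i hi h2
        rw [h1, Finset.card_empty, Nat.cast_zero]
        positivity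
      · refine ncount1 hCD hD hL4 hX0 hT2 hTX (hd0 j) (hdle j) _ ?_ ?_
        · intro i hi
          exact hR i (Finset.mem_filter.1 hi).1
        · intro i hi
          rw [Finset.mem_filter] at hi
          have h1 : j - 1 < jj i := by omega
          have h2 : j - 1 ∉ {j | P i j} := Nat.notMem_of_lt_sInf h1
          change ¬ P i (j - 1) at h2
          simp only [hPd] at h2
          push Not at h2
          obtain ⟨s, hs1, hs2, hs3⟩ := h2
          refine ⟨s, ?_, hs2, hs3⟩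
          have h3 := hdS (j - 1)
          rw [Nat.sub_add_cancel h0] at h3
          linarith
    have hXp : 0 < X ^ (-(d j / 2)) := Real.rpow_pos_of_pos hX0 _
    calc ∑ i ∈ R.filter (fun i => jj i = j), ‖Ey y (τ i)‖
        ≤ ∑ i ∈ R.filter (fun i => jj i = j), K * L ^ 2 * X ^ (-(d j / 2)) :=
          Finset.sum_le_sum hcell
      _ = ((R.filter (fun i => jj i = j)).card : ℝ) * (K * L ^ 2 * X ^ (-(d j / 2))) := by
          rw [Finset.sum_const, nsmul_eq_mul]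
      _ ≤ (11 * L ^ (1 + CD) * X ^ (d j / 5)) * (K * L ^ 2 * X ^ (-(d j / 2))) :=
          mul_le_mul_of_nonneg_right hN (by positivity)
      _ = 11 * K * (L ^ (1 + CD) * L ^ 2) * (X ^ (d j / 5) * X ^ (-(d j / 2))) := by ring
      _ = 11 * K * L ^ (3 + CD) * Real.exp (-(3 / 10 * d j * L)) := by
          rw [← Real.rpow_add hX0, ← Real.rpow_natCast L 2, ← Real.rpow_add hLpos,
            Real.rpow_def_of_pos hX0, ← hLd]
          congr 2
          · congr 1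
            push_cast
            ring
          · ring
      _ ≤ _ := by
          refine mul_le_mul_of_nonneg_left ?_ (by positivity)
          refine Real.exp_le_exp.2 ?_
          have h1 : c0 * L ^ (1 / 20 : ℝ) ≤ d j * L := by
            have h2 : c0 / L ^ (19 / 20 : ℝ) * L ≤ d j * L :=
              mul_le_mul_of_nonneg_right (hdJ.trans hdj) hLpos.le
            have h3 : c0 / L ^ (19 / 20 : ℝ) * L = c0 * L ^ (1 / 20 : ℝ) := by
              rw [div_mul_eq_mul_div, div_eq_iff hL1920.ne']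
              rw [mul_assoc, mul_comm (L ^ (1 / 20 : ℝ)), hL20]
            linarith
          linarith
  -- the number of types
  have hJn : ((J + 1 : ℕ) : ℝ) ≤ κ / (4 * c0) * L := by
    have h1 : ((J + 1 : ℕ) : ℝ) ≤ 2 ^ J := by
      exact_mod_cast Nat.lt_two_pow_self
    refine h1.trans ?_
    have h2 : c0 / L ^ (19 / 20 : ℝ) * 2 ^ J ≤ κ / 4 := by
      have h3 : d J * 2 ^ J = κ / 4 := by
        simp only [hd]
        rw [mul_assoc, ← mul_pow]
        norm_num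
      have h4 : c0 / L ^ (19 / 20 : ℝ) * 2 ^ J ≤ d J * 2 ^ J :=
        mul_le_mul_of_nonneg_right hdJ (by positivity)
      linarith
    have h5 : (2 : ℝ) ^ J ≤ κ / (4 * c0) * L ^ (19 / 20 : ℝ) := by
      rw [div_mul_eq_mul_div, div_le_iff₀ hL1920] at h2
      rw [div_mul_eq_mul_div, le_div_iff₀ (by positivity)]
      linarith
    have h6 : L ^ (19 / 20 : ℝ) ≤ L := by
      have := Real.rpow_le_rpow_of_exponent_le (show 1 ≤ L by linarith)
        (show (19 / 20 : ℝ) ≤ 1 by norm_num)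
      simpa using this
    exact h5.trans (mul_le_mul_of_nonneg_left h6 (by positivity))
  -- the sum
  rw [← Finset.sum_fiberwise_of_maps_to (s := R) (t := Finset.range (J + 1)) (g := jj)
    (fun i hi => Finset.mem_range.2 (by have := hjj2 i hi; omega))]
  refine (Finset.sum_le_sum htype).trans ?_
  rw [Finset.sum_const, nsmul_eq_mul, Finset.card_range]
  set E := Real.exp (-(3 / 10 * c0 * L ^ (1 / 20 : ℝ))) with hE
  have hE0 : 0 < E := Real.exp_pos _
  have hLB : 0 < L ^ (-B) := Real.rpow_pos_of_pos hLpos _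
  calc ((J + 1 : ℕ) : ℝ) * (11 * K * L ^ (3 + CD) * E)
      ≤ (κ / (4 * c0) * L) * (11 * K * L ^ (3 + CD) * E) :=
        mul_le_mul_of_nonneg_right hJn (by positivity)
    _ = 11 * K * (κ / (4 * c0)) * ((L ^ (4 + CD + B) * E) * L ^ (-B)) := by
        have h1 : L ^ (4 + CD + B) * L ^ (-B) = L * L ^ (3 + CD) := by
          rw [← Real.rpow_add hLpos]
          nth_rewrite 2 [← Real.rpow_one L]
          rw [← Real.rpow_add hLpos]
          congr 1
          ring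
        calc (κ / (4 * c0) * L) * (11 * K * L ^ (3 + CD) * E)
            = 11 * K * (κ / (4 * c0)) * ((L * L ^ (3 + CD)) * E) := by ring
          _ = _ := by
            rw [← h1]
            ring
    _ ≤ 11 * K * (κ / (4 * c0)) * (1 * L ^ (-B)) := by
        refine mul_le_mul_of_nonneg_left ?_ (by positivity)
        exact mul_le_mul_of_nonneg_right hc2 hLB.le
    _ = _ := by rw [one_mul]

/-- small heights. -/
theorem sql1 (hP : PP) : ∀ B : ℝ, ∃ C X₀ : ℝ, 0 < C ∧ ∀ X y : ℝ, X₀ ≤ X →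
    √X / 2 ≤ y → y ≤ X ^ 2 → ∀ (R : Finset ℤ) (τ : ℤ → ℝ),
    (∀ i ∈ R, |(i : ℝ)| ≤ 2 * Real.exp (√(Real.log X))) →
    (∀ i ∈ R, τ i ∈ Set.Icc (i : ℝ) (i + 1)) →
    ∑ i ∈ R, ‖Ey y (τ i)‖ ≤ C * (Real.log X) ^ (-B) := by
  obtain ⟨c, C, hc, hC, hPP⟩ := hP
  intro B
  set c₁ : ℝ := c / 16 with hc₁
  have hc₁0 : 0 < c₁ := by positivity
  obtain ⟨l₀, hl₀⟩ := SQL.decay (5 * (C * 125)) (c₁ / 2) B (by positivity) (by positivity)
  -- eventually `4 + 2 exp √l + 2 l ≤ exp (3 √l)`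
  obtain ⟨l₁, hl₁⟩ : ∃ l₁ : ℝ, ∀ l : ℝ, l₁ ≤ l →
      5 + 2 * Real.exp (√l) + 2 * l ≤ Real.exp (3 * √l) := by
    refine ⟨100, fun l hl => ?_⟩
    have hs : 10 ≤ √l := by
      rw [show (10 : ℝ) = √100 by rw [show (100 : ℝ) = 10 ^ 2 by norm_num]; simp]
      exact Real.sqrt_le_sqrt hl
    have hl0 : 0 ≤ l := by linarith
    have h1 : l = √l ^ 2 := (Real.sq_sqrt hl0).symm
    have h2 : √l + 1 ≤ Real.exp (√l) := Real.add_one_le_exp _
    have h3 : Real.exp (3 * √l) = Real.exp (√l) ^ 3 := by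
      rw [← Real.exp_nat_mul]
      norm_num
    rw [h3]
    set u := Real.exp (√l) with hu
    have hu11 : 11 ≤ u := by linarith
    have h4 : l ≤ u ^ 2 := by
      rw [h1]
      exact pow_le_pow_left₀ (by linarith) (by linarith) 2
    have h5 : 5 + 2 * u + 2 * u ^ 2 ≤ u ^ 3 := by nlinarith [sq_nonneg u]
    linarith
  refine ⟨1, Real.exp (max (max l₀ l₁) 100), one_pos, fun X y hX hy1 hy2 R τ hR hτ => ?_⟩
  have hX0 : 0 < X := (Real.exp_pos _).trans_le hX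
  set l : ℝ := Real.log X with hl
  have hlm : max (max l₀ l₁) 100 ≤ l := by
    rw [hl, Real.le_log_iff_exp_le hX0]
    exact hX
  have hl0 : l₀ ≤ l := ((le_max_left _ _).trans (le_max_left _ _)).trans hlm
  have hl1 : l₁ ≤ l := ((le_max_right _ _).trans (le_max_left _ _)).trans hlm
  have hl100 : 100 ≤ l := (le_max_right _ _).trans hlm
  have hs10 : 10 ≤ √l := by
    rw [show (10 : ℝ) = √100 by rw [show (100 : ℝ) = 10 ^ 2 by norm_num]; simp]
    exact Real.sqrt_le_sqrt hl100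
  have hsl : √l ^ 2 = l := Real.sq_sqrt (by linarith)
  have hXe : X = Real.exp l := by rw [hl, Real.exp_log hX0]
  have hsX : √X = Real.exp (l / 2) := by
    rw [hXe, Real.sqrt_eq_iff_mul_self_eq_of_pos (Real.exp_pos _), ← Real.exp_add]
    congr 1
    ring
  have hlog2 : Real.log 2 ≤ 1 := by
    have := Real.log_two_lt_d9
    linarith
  have hy0 : 0 < y := lt_of_lt_of_le (by rw [hsX]; positivity) hy1
  have hly1 : l / 4 ≤ Real.log y := by
    have h1 : Real.log (√X / 2) ≤ Real.log y := Real.log_le_log (by rw [hsX]; positivity) hy1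
    rw [hsX, Real.log_div (Real.exp_pos _).ne' two_ne_zero, Real.log_exp] at h1
    linarith
  have hly2 : Real.log y ≤ 2 * l := by
    have h1 : Real.log y ≤ Real.log (X ^ 2) := Real.log_le_log hy0 hy2
    rw [Real.log_pow] at h1
    exact_mod_cast h1
  have hy3 : 3 ≤ y := by
    have h1 : Real.exp 25 ≤ y := by
      rw [← Real.le_log_iff_exp_le hy0]
      linarith
    have h2 := Real.add_one_le_exp (25 : ℝ)
    linarith
  -- the pointwise bound
  have hpt : ∀ i ∈ R, ‖Ey y (τ i)‖ ≤ C * 125 * l ^ 3 *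
      Real.exp (-(c₁ * l ^ (21 / 40 : ℝ))) := by
    intro i hi
    have h1 := hPP y (τ i) hy3
    obtain ⟨h2, h3⟩ := hτ i hi
    have h4 := hR i hi
    have ht : |τ i| ≤ 2 * Real.exp (√l) + 1 := by
      have h5 := abs_le.1 h4
      rw [abs_le]
      constructor
      · linarith [h5.1]
      · linarith [h5.2]
    have hE : 3 + |τ i| + Real.log y ≤ Real.exp (3 * √l) := by
      have := hl₁ l hl1
      linarith
    have habs := abs_nonneg (τ i)
    have hlyp : 0 ≤ Real.log y := by linarith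
    have hL : Real.log (3 + |τ i| + Real.log y) ≤ 3 * √l := by
      rw [← Real.log_exp (3 * √l)]
      exact Real.log_le_log (by linarith) hE
    have hL0 : 0 < Real.log (3 + |τ i| + Real.log y) := Real.log_pos (by linarith)
    have hL' : Real.log (3 + |τ i|) ≤ 3 * √l := by
      refine le_trans (Real.log_le_log (by linarith) ?_) hL
      linarith
    have hD : Real.log y + Real.log (3 + |τ i|) ≤ 5 * l := by
      have : 3 * √l ≤ 3 * l := by nlinarith
      linarith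
    have hD0 : 0 ≤ Real.log y + Real.log (3 + |τ i|) := by
      have : 0 ≤ Real.log (3 + |τ i|) := Real.log_nonneg (by linarith)
      linarith
    have hM : (Real.log (3 + |τ i| + Real.log y)) ^ (19 / 20 : ℝ) ≤ 4 * l ^ (19 / 40 : ℝ) := by
      have g1 : (Real.log (3 + |τ i| + Real.log y)) ^ (19 / 20 : ℝ) ≤
          (4 * √l) ^ (19 / 20 : ℝ) :=
        Real.rpow_le_rpow hL0.le (by linarith) (by norm_num)
      refine g1.trans ?_
      rw [Real.mul_rpow (by norm_num) (by positivity), Real.sqrt_eq_rpow,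
        ← Real.rpow_mul (by linarith)]
      have g2 : (4 : ℝ) ^ (19 / 20 : ℝ) ≤ 4 := by
        calc (4 : ℝ) ^ (19 / 20 : ℝ) ≤ 4 ^ (1 : ℝ) :=
              Real.rpow_le_rpow_of_exponent_le (by norm_num) (by norm_num)
          _ = 4 := Real.rpow_one 4
      have g3 : (1 / 2 : ℝ) * (19 / 20) = 19 / 40 := by norm_num
      rw [g3]
      exact mul_le_mul_of_nonneg_right g2 (by positivity)
    have hM0 : 0 < (Real.log (3 + |τ i| + Real.log y)) ^ (19 / 20 : ℝ) :=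
      Real.rpow_pos_of_pos hL0 _
    have hexp : Real.exp (-(c * Real.log y /
        (Real.log (3 + |τ i| + Real.log y)) ^ (19 / 20 : ℝ))) ≤
        Real.exp (-(c₁ * l ^ (21 / 40 : ℝ))) := by
      refine Real.exp_le_exp.2 (neg_le_neg ?_)
      rw [le_div_iff₀ hM0]
      have g4 : l ^ (21 / 40 : ℝ) * l ^ (19 / 40 : ℝ) = l := by
        rw [← Real.rpow_add (by linarith)]
        norm_num
      calc c₁ * l ^ (21 / 40 : ℝ) *
            (Real.log (3 + |τ i| + Real.log y)) ^ (19 / 20 : ℝ) ≤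
            c₁ * l ^ (21 / 40 : ℝ) * (4 * l ^ (19 / 40 : ℝ)) :=
            mul_le_mul_of_nonneg_left hM (by positivity)
        _ = 4 * c₁ * (l ^ (21 / 40 : ℝ) * l ^ (19 / 40 : ℝ)) := by ring
        _ = c * (l / 4) := by rw [g4, hc₁]; ring
        _ ≤ c * Real.log y := mul_le_mul_of_nonneg_left hly1 hc.le
    refine h1.trans ?_
    have h6 : (Real.log y + Real.log (3 + |τ i|)) ^ 3 ≤ (5 * l) ^ 3 :=
      pow_le_pow_left₀ hD0 hD 3
    calc C * (Real.log y + Real.log (3 + |τ i|)) ^ 3 *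
          Real.exp (-(c * Real.log y /
            (Real.log (3 + |τ i| + Real.log y)) ^ (19 / 20 : ℝ))) ≤
          C * (5 * l) ^ 3 * Real.exp (-(c₁ * l ^ (21 / 40 : ℝ))) :=
          mul_le_mul (mul_le_mul_of_nonneg_left h6 hC.le) hexp (Real.exp_pos _).le
            (by positivity)
      _ = _ := by ring
  -- summation
  have hcard := SQL.card_le (Real.one_le_exp (Real.sqrt_nonneg l)) R hR
  rw [one_mul]
  refine le_trans ?_ (hl₀ l hl0)
  have hl36 : l ^ 3 ≤ l ^ 6 := pow_le_pow_right₀ (by linarith) (by norm_num)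
  have hexpe : Real.exp (-(2 * (c₁ / 2) * l ^ (21 / 40 : ℝ))) =
      Real.exp (-(c₁ * l ^ (21 / 40 : ℝ))) := by
    congr 1
    ring
  rw [hexpe]
  calc ∑ i ∈ R, ‖Ey y (τ i)‖ ≤ ∑ _i ∈ R, C * 125 * l ^ 3 *
        Real.exp (-(c₁ * l ^ (21 / 40 : ℝ))) := Finset.sum_le_sum hpt
    _ = R.card * (C * 125 * l ^ 3 * Real.exp (-(c₁ * l ^ (21 / 40 : ℝ)))) := by
        rw [Finset.sum_const, nsmul_eq_mul]
    _ ≤ 5 * Real.exp (√l) * (C * 125 * l ^ 6 * Real.exp (-(c₁ * l ^ (21 / 40 : ℝ)))) := by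
        refine mul_le_mul hcard ?_ (by positivity) (by positivity)
        exact mul_le_mul_of_nonneg_right (mul_le_mul_of_nonneg_left hl36 (by positivity))
          (Real.exp_pos _).le
    _ = _ := by ring

open Classical in
/-- the sum over all the exceptional cells. -/
theorem sq1 (hPP : PP) {δ₀ : ℝ}
    (hH : ∀ B : ℝ, ∃ C X₀ : ℝ, 0 < C ∧ ∀ X y T : ℝ, X₀ ≤ X →
      √X / 2 ≤ y → y ≤ X ^ 2 → Real.exp (√(Real.log X)) ≤ T → T ≤ X →
      ∀ (R : Finset ℤ) (τ : ℤ → ℝ), (∀ i ∈ R, T ≤ |(i : ℝ)| ∧ |(i : ℝ)| ≤ 2 * T + 1) →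
      (∀ i ∈ R, ∃ s : ℂ, 1 - 2 * δ₀ < s.re ∧ |s.im - i| ≤ Real.log X + 3 ∧
        riemannZeta₁ s = 0) → (∀ i ∈ R, τ i ∈ Set.Icc (i : ℝ) (i + 1)) →
      ∑ i ∈ R, ‖Ey y (τ i)‖ ≤ C * (Real.log X) ^ (-B)) :
    ∀ B : ℝ, ∃ C X₀ : ℝ, 0 < C ∧ ∀ X y : ℝ, X₀ ≤ X → √X / 2 ≤ y → y ≤ X ^ 2 →
      ∀ (R : Finset ℤ) (τ : ℤ → ℝ), (∀ i ∈ R, |(i : ℝ)| ≤ 2 * X + 1) →
      (∀ i ∈ R, |(i : ℝ)| ≤ 2 * Real.exp (√(Real.log X)) ∨
        ∃ s : ℂ, 1 - 2 * δ₀ < s.re ∧ |s.im - i| ≤ Real.log X + 3 ∧ riemannZeta₁ s = 0) →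
      (∀ i ∈ R, τ i ∈ Set.Icc (i : ℝ) (i + 1)) →
      ∑ i ∈ R, ‖Ey y (τ i)‖ ≤ C * (Real.log X) ^ (-B) := by
  intro B
  obtain ⟨C₁, X₁, hC₁, h1⟩ := sql1 hPP B
  obtain ⟨C₂, X₂, hC₂, h2⟩ := hH (B + 1)
  refine ⟨C₁ + 4 * C₂, max (max X₁ X₂) (Real.exp 1), by positivity, ?_⟩
  intro X y hX hy1 hy2 R τ hR hzR hτ
  have hX1 : X₁ ≤ X := ((le_max_left _ _).trans (le_max_left _ _)).trans hX
  have hX2 : X₂ ≤ X := ((le_max_right _ _).trans (le_max_left _ _)).trans hX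
  have hXe : Real.exp 1 ≤ X := (le_max_right _ _).trans hX
  have hX0 : 0 < X := (Real.exp_pos 1).trans_le hXe
  obtain ⟨L, hLd⟩ : ∃ L, L = Real.log X := ⟨_, rfl⟩
  have hL1 : 1 ≤ L := by
    rw [hLd, Real.le_log_iff_exp_le hX0]
    exact hXe
  have hL0 : 0 < L := by linarith
  obtain ⟨E, hE⟩ : ∃ E, E = Real.exp (√L) := ⟨_, rfl⟩
  have hsL : 1 ≤ √L := Real.one_le_sqrt.2 hL1
  have hsL2 : √L ≤ L := Real.sqrt_le_left (by linarith) |>.2 (by nlinarith)
  have hE1 : 1 ≤ E := by rw [hE]; exact Real.one_le_exp (by linarith)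
  have hE0 : 0 < E := by linarith
  have hEX : E ≤ X := by
    rw [hE, ← Real.exp_log hX0, ← hLd]
    exact Real.exp_le_exp.2 hsL2
  obtain ⟨M, hM⟩ : ∃ M, M = ⌊2 * L⌋₊ + 1 := ⟨_, rfl⟩
  have hM3 : (M : ℝ) + 1 ≤ 4 * L := by
    rw [hM]
    push_cast
    have := Nat.floor_le (show 0 ≤ 2 * L by linarith)
    linarith
  set F : ℤ → ℝ := fun i => ‖Ey y (τ i)‖ with hF
  have hF0 : ∀ i, 0 ≤ F i := fun i => norm_nonneg _
  have hpow : L ^ (-(B + 1)) * L = L ^ (-B) := by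
    rw [← Real.rpow_add_one hL0.ne']
    congr 1
    ring
  have hpow0 : 0 < L ^ (-(B + 1)) := Real.rpow_pos_of_pos hL0 _
  -- the three parts
  have e0 : ∑ i ∈ R.filter (fun i : ℤ => |(i : ℝ)| ≤ 2 * E), F i ≤ C₁ * L ^ (-B) := by
    rw [hLd]
    refine h1 X y hX1 hy1 hy2 _ τ ?_ fun i hi => hτ i (mem_filter.1 hi).1
    intro i hi
    rw [← hLd, ← hE]
    exact (mem_filter.1 hi).2
  have eX : ∑ i ∈ R.filter (fun i : ℤ => ¬ |(i : ℝ)| ≤ 2 * E ∧ X ≤ |(i : ℝ)|), F i ≤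
      C₂ * L ^ (-(B + 1)) := by
    rw [hLd]
    refine h2 X y X hX2 hy1 hy2 ?_ le_rfl _ τ ?_ ?_ fun i hi => hτ i (mem_filter.1 hi).1
    · rw [← hLd, ← hE]
      exact hEX
    · intro i hi
      exact ⟨(mem_filter.1 hi).2.2, hR i (mem_filter.1 hi).1⟩
    · intro i hi
      rcases hzR i (mem_filter.1 hi).1 with h | h
      · rw [← hLd, ← hE] at h
        exact absurd h (mem_filter.1 hi).2.1
      · exact h
  have ek : ∀ k : ℕ, ∑ i ∈ R.filter (fun i : ℤ => ¬ |(i : ℝ)| ≤ 2 * E ∧ 2 ^ k * E ≤ X ∧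
      2 ^ k * E ≤ |(i : ℝ)| ∧ |(i : ℝ)| ≤ 2 * (2 ^ k * E)), F i ≤ C₂ * L ^ (-(B + 1)) := by
    intro k
    by_cases hk : 2 ^ k * E ≤ X
    · have hkE : E ≤ 2 ^ k * E := by
        have : (1 : ℝ) ≤ 2 ^ k := one_le_pow₀ (by norm_num)
        nlinarith
      rw [hLd]
      refine h2 X y (2 ^ k * E) hX2 hy1 hy2 ?_ hk _ τ ?_ ?_ fun i hi => hτ i (mem_filter.1 hi).1
      · rw [← hLd, ← hE]
        exact hkE
      · intro i hi
        exact ⟨(mem_filter.1 hi).2.2.2.1, by linarith [(mem_filter.1 hi).2.2.2.2]⟩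
      · intro i hi
        rcases hzR i (mem_filter.1 hi).1 with h | h
        · rw [← hLd, ← hE] at h
          exact absurd h (mem_filter.1 hi).2.1
        · exact h
    · have : R.filter (fun i : ℤ => ¬ |(i : ℝ)| ≤ 2 * E ∧ 2 ^ k * E ≤ X ∧
          2 ^ k * E ≤ |(i : ℝ)| ∧ |(i : ℝ)| ≤ 2 * (2 ^ k * E)) = ∅ := by
        rw [filter_eq_empty_iff]
        rintro i - ⟨-, h, -⟩
        exact hk h
      rw [this, sum_empty]
      positivity
  have key : ∑ i ∈ R, F i ≤ ∑ i ∈ R.filter (fun i : ℤ => |(i : ℝ)| ≤ 2 * E), F i +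
      ∑ i ∈ R.filter (fun i : ℤ => ¬ |(i : ℝ)| ≤ 2 * E ∧ X ≤ |(i : ℝ)|), F i +
      ∑ k ∈ range M, ∑ i ∈ R.filter (fun i : ℤ => ¬ |(i : ℝ)| ≤ 2 * E ∧ 2 ^ k * E ≤ X ∧
      2 ^ k * E ≤ |(i : ℝ)| ∧ |(i : ℝ)| ≤ 2 * (2 ^ k * E)), F i := by
    simp only [sum_filter]
    rw [sum_comm, ← sum_add_distrib, ← sum_add_distrib]
    refine sum_le_sum fun i hi => ?_
    have hs0 : 0 ≤ ∑ k ∈ range M, (if ¬ |(i : ℝ)| ≤ 2 * E ∧ 2 ^ k * E ≤ X ∧ 2 ^ k * E ≤ |(i : ℝ)| ∧
        |(i : ℝ)| ≤ 2 * (2 ^ k * E) then F i else 0) := by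
      refine sum_nonneg fun k _ => ?_
      split_ifs
      · exact hF0 i
      · exact le_rfl
    by_cases c1 : |(i : ℝ)| ≤ 2 * E
    · rw [if_pos c1]
      have : 0 ≤ (if ¬ |(i : ℝ)| ≤ 2 * E ∧ X ≤ |(i : ℝ)| then F i else 0) := by
        split_ifs
        · exact hF0 i
        · exact le_rfl
      linarith
    · rw [if_neg c1]
      by_cases c2 : X ≤ |(i : ℝ)|
      · rw [if_pos ⟨c1, c2⟩]
        linarith
      · rw [if_neg (fun h => c2 h.2)]
        have c1' := c1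
        push Not at c1 c2
        have hi1 : 1 ≤ |(i : ℝ)| / E := by
          rw [le_div_iff₀ hE0]
          linarith
        obtain ⟨k, hk1, hk2⟩ := exists_nat_pow_near hi1 (one_lt_two : (1 : ℝ) < 2)
        have hk1' : 2 ^ k * E ≤ |(i : ℝ)| := by rwa [le_div_iff₀ hE0] at hk1
        have hk2' : |(i : ℝ)| < 2 ^ (k + 1) * E := by rwa [div_lt_iff₀ hE0] at hk2
        have hkM : k < M := by
          have h3 : (2 : ℝ) ^ k ≤ X := by
            have : (2 : ℝ) ^ k * 1 ≤ 2 ^ k * E := by gcongr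
            linarith
          have h4 : (k : ℝ) * Real.log 2 ≤ L := by
            rw [hLd, ← Real.log_pow]
            exact Real.log_le_log (by positivity) h3
          have h5 : (k : ℝ) ≤ 2 * L := by
            have := Real.log_two_gt_d9
            have h6 : (k : ℝ) * (1 / 2) ≤ k * Real.log 2 := by
              gcongr
              linarith
            linarith
          rw [hM, Nat.lt_add_one_iff]
          exact Nat.le_floor h5
        have h7 : (if ¬ |(i : ℝ)| ≤ 2 * E ∧ 2 ^ k * E ≤ X ∧ 2 ^ k * E ≤ |(i : ℝ)| ∧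
            |(i : ℝ)| ≤ 2 * (2 ^ k * E) then F i else 0) = F i := by
          rw [if_pos]
          refine ⟨c1', by linarith, hk1', ?_⟩
          rw [pow_succ] at hk2'
          linarith
        have h8 := single_le_sum (f := fun k : ℕ => if ¬ |(i : ℝ)| ≤ 2 * E ∧ 2 ^ k * E ≤ X ∧ 2 ^ k * E ≤ |(i : ℝ)| ∧
            |(i : ℝ)| ≤ 2 * (2 ^ k * E) then F i else 0) (s := range M)
          (fun k _ => by
            split_ifs
            · exact hF0 i
            · exact le_rfl) (mem_range.2 hkM)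
        beta_reduce at h8
        rw [h7] at h8
        linarith
  have esum : ∑ k ∈ range M, ∑ i ∈ R.filter (fun i : ℤ => ¬ |(i : ℝ)| ≤ 2 * E ∧ 2 ^ k * E ≤ X ∧
      2 ^ k * E ≤ |(i : ℝ)| ∧ |(i : ℝ)| ≤ 2 * (2 ^ k * E)), F i ≤ M * (C₂ * L ^ (-(B + 1))) := by
    refine (sum_le_sum fun k _ => ek k).trans (le_of_eq ?_)
    rw [sum_const, card_range, nsmul_eq_mul]
  have hfin : ((M : ℝ) + 1) * (C₂ * L ^ (-(B + 1))) ≤ 4 * C₂ * L ^ (-B) := by
    have : ((M : ℝ) + 1) * (C₂ * L ^ (-(B + 1))) ≤ (4 * L) * (C₂ * L ^ (-(B + 1))) := by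
      gcongr
    refine this.trans (le_of_eq ?_)
    rw [← hpow]
    ring
  rw [← hLd]
  change ∑ i ∈ R, F i ≤ _
  linarith

end EL1r

open Classical in
/-- ROW EL1. -/
theorem el1 (hG : ZG) (hP : PG) (hF : ZF) (hPP : PP) (hZ : ZDE) : EL1 := by
  obtain ⟨δ₀, hδ₀, hδ₁, hH⟩ := EL1r.sqh1 hG hP hF hZ
  have hS := EL1r.sq1 hPP hH
  obtain ⟨CG, hCG, hG⟩ := hG
  obtain ⟨CP, hCP, hP⟩ := hP
  refine ⟨δ₀ / 4, by linarith, by linarith, fun B => ?_⟩
  obtain ⟨C, X₁, hC, hS⟩ := hS B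
  -- `K L² X ^ (-(δ₀/2)) ≤ X ^ (-(δ₀/4))`
  have hlim : ∀ᶠ L : ℝ in atTop, 3 * CP * (9 * CG + 11) * L ^ 2 * Real.exp (-(δ₀ / 4) * L) ≤ 1 := by
    have h1 := tendsto_rpow_mul_exp_neg_mul_atTop_nhds_zero 2 (δ₀ / 4) (by linarith)
    have h2 := h1.const_mul (3 * CP * (9 * CG + 11))
    rw [mul_zero] at h2
    filter_upwards [h2.eventually (eventually_le_nhds (show (0 : ℝ) < 1 by norm_num))] with L hL
    rw [← mul_assoc] at hL
    have h3 : L ^ (2 : ℝ) = L ^ 2 := by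
      rw [← Real.rpow_natCast]
      norm_num
    rwa [h3] at hL
  obtain ⟨L₀, hL₀⟩ := eventually_atTop.1 (hlim.and (eventually_ge_atTop (64 / δ₀)))
  refine ⟨C, max X₁ (Real.exp (max L₀ 4)), hC, fun X y hX hy1 hy2 => ?_⟩
  have hX1 : X₁ ≤ X := (le_max_left _ _).trans hX
  have hXe : Real.exp (max L₀ 4) ≤ X := (le_max_right _ _).trans hX
  have hX0 : 0 < X := (Real.exp_pos _).trans_le hXe
  have hLL : max L₀ 4 ≤ Real.log X := by
    rw [Real.le_log_iff_exp_le hX0]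
    exact hXe
  have hL4 : 4 ≤ Real.log X := (le_max_right _ _).trans hLL
  obtain ⟨hk1, hk2⟩ := hL₀ (Real.log X) ((le_max_left _ _).trans hLL)
  have hXL : Real.log X + 1 ≤ X := by
    have := Real.add_one_le_exp (Real.log X)
    rwa [Real.exp_log hX0] at this
  have hX5 : 5 ≤ X := by linarith
  refine ⟨(Finset.Icc (-⌊2 * X + 1⌋) ⌊2 * X + 1⌋).filter (fun i : ℤ =>
    |(i : ℝ)| ≤ 2 * Real.exp (√(Real.log X)) ∨
      ∃ s : ℂ, 1 - 2 * δ₀ < s.re ∧ |s.im - i| ≤ Real.log X + 3 ∧ riemannZeta₁ s = 0), ?_, ?_⟩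
  · intro t ht hR
    have h1 := abs_le.1 ht
    have h2 := Int.floor_le t
    have h3 := Int.lt_floor_add_one t
    have hi : |((⌊t⌋ : ℤ) : ℝ)| ≤ 2 * X + 1 := by
      rw [abs_le]
      constructor <;> linarith [h1.1, h1.2]
    have hmem : ⌊t⌋ ∈ Finset.Icc (-⌊2 * X + 1⌋) ⌊2 * X + 1⌋ := by
      rw [Finset.mem_Icc]
      have h4 := abs_le.1 hi
      constructor
      · have h5 : -⌊t⌋ ≤ ⌊2 * X + 1⌋ := Int.le_floor.2 (by push_cast; linarith [h4.1])
        linarith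
      · exact Int.le_floor.2 h4.2
    rw [Finset.mem_filter, not_and, not_or] at hR
    obtain ⟨-, hR2⟩ := hR hmem
    push Not at hR2
    have h5 := EL1r.cell1 hCG hCP hG hP (τ := t) (i := ⌊t⌋) (δ := δ₀) hL4 hX0 hy1 hy2
      (by linarith) ⟨h2, h3.le⟩ ?_ (by linarith) hR2
    · refine h5.trans ?_
      have h6 : X ^ (-(δ₀ / 2)) = Real.exp (-(δ₀ / 4) * Real.log X) * X ^ (-(δ₀ / 4)) := by
        rw [Real.rpow_def_of_pos hX0, Real.rpow_def_of_pos hX0, ← Real.exp_add]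
        congr 1
        ring
      rw [h6, ← mul_assoc]
      exact mul_le_of_le_one_left (Real.rpow_pos_of_pos hX0 _).le hk1
    · rw [div_le_iff₀ (by linarith)]
      rw [div_le_iff₀ hδ₀] at hk2
      linarith
  · intro τ hτ
    refine hS X y hX1 hy1 hy2 _ τ ?_ ?_ hτ
    · intro i hi
      have h1 := Finset.mem_Icc.1 (Finset.mem_filter.1 hi).1
      have h2 : ((⌊2 * X + 1⌋ : ℤ) : ℝ) ≤ 2 * X + 1 := Int.floor_le _
      have h3 : (i : ℝ) ≤ ((⌊2 * X + 1⌋ : ℤ) : ℝ) := by exact_mod_cast h1.2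
      have h4 : -((⌊2 * X + 1⌋ : ℤ) : ℝ) ≤ (i : ℝ) := by exact_mod_cast h1.1
      rw [abs_le]
      constructor <;> linarith
    · intro i hi
      exact (Finset.mem_filter.1 hi).2

end Pool.Agent.FN82
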