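import Mathlib
import Pool.Agent.Lib.FN82.Defs

/-!
# FN82, row FIN: from well spaced bad points to the exceptional set of `F(n)`.  helper99.
-/

set_option autoImplicit false

namespace Pool.Agent.FN82

open Finset

/-- the trivial upper bound -/
theorem F_le (n : ℕ) : (F n : ℝ) ≤ n + √n := by
  have h1 : F n ≤ n + Nat.sqrt n := by
    refine Finset.sup_le fun m hm => ?_
    obtain ⟨hr, h1, hp⟩ := Finset.mem_filter.1 hm
    have hmn := Finset.mem_range.1 hr
    have h2 : Nat.minFac m ^ 2 ≤ m := Nat.minFac_sq_le_self (by omega) hp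
    have h3 : Nat.minFac m ≤ Nat.sqrt n := Nat.le_sqrt'.2 (h2.trans hmn.le)
    omega
  calc (F n : ℝ) ≤ ((n + Nat.sqrt n : ℕ) : ℝ) := by exact_mod_cast h1
    _ = n + (Nat.sqrt n : ℝ) := by push_cast; rfl
    _ ≤ n + √n := by
      have := Real.nat_sqrt_le_real_sqrt (a := n)
      linarith

/-- a product of two primes in the window makes `F n` large -/
theorem key_F {N ρ : ℝ} (hN : 100 ≤ N) (hρ : 0 < ρ) (hρ4 : ρ ≤ 1 / 4) {n : ℕ} (hn1 : N ≤ n)
    (hn2 : (n : ℝ) ≤ (1 + ρ) * N) {q : ℕ} (hq : q ∈ Iq (√N) ρ) {s : ℕ} (hs : s.Prime)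
    (h : |Real.log ((q : ℝ) * s / (n - ρ * √N))| < ρ / (4 * √N)) :
    (n : ℝ) + √n - 4 * ρ * √N ≤ F n := by
  set R := √N with hR
  have hR2 : R ^ 2 = N := Real.sq_sqrt (by linarith)
  have hR10 : 10 ≤ R := by
    rw [hR, Real.le_sqrt (by norm_num) (by linarith)]
    linarith
  have hR0 : 0 < R := by linarith
  obtain ⟨hq1, hqp, hq2⟩ := Finset.mem_filter.1 hq
  have hq3 : (q : ℝ) ≤ (1 - ρ) * R := by
    have h1 := (Finset.mem_Icc.1 hq1).2
    have h2 : 0 ≤ (1 - ρ) * R := by nlinarith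
    exact (Nat.cast_le.2 h1).trans (Nat.floor_le h2)
  set x : ℝ := n - ρ * R with hx
  have hρR : ρ * R ≤ R / 4 := by nlinarith
  have hxpos : 0 < x := by nlinarith
  have hxle : x ≤ 5 / 4 * R ^ 2 := by
    have : 0 ≤ ρ * R := by positivity
    nlinarith
  set ε : ℝ := ρ / (4 * R) with hε
  have hε0 : 0 < ε := by positivity
  have hε1 : ε ≤ 1 / 160 := by
    rw [hε, div_le_iff₀ (by positivity)]
    nlinarith
  have hεx : ε * x ≤ 5 / 16 * (ρ * R) := by
    have h1 : ε * x ≤ ε * (5 / 4 * R ^ 2) := mul_le_mul_of_nonneg_left hxle hε0.le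
    have h2 : ε * (5 / 4 * R ^ 2) = 5 / 16 * (ρ * R) := by
      rw [hε]
      field_simp
      ring
    linarith
  have hq0 : (0 : ℝ) < q := by exact_mod_cast hqp.pos
  have hs0 : (0 : ℝ) < s := by exact_mod_cast hs.pos
  set y : ℝ := (q : ℝ) * s / x with hy
  have hy0 : 0 < y := by positivity
  have hyx : y * x = (q : ℝ) * s := by
    rw [hy]
    field_simp
  obtain ⟨ha, hb⟩ := abs_lt.1 h
  -- lower bound
  have h1 : 1 - ε < y := by
    have h2 : Real.exp (-ε) < y := by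
      rw [← Real.lt_log_iff_exp_lt hy0]
      exact ha
    have h3 := Real.add_one_le_exp (-ε)
    linarith
  -- upper bound
  have h2 : y * (1 - ε) < 1 := by
    have h3 : y < Real.exp ε := by
      rw [← Real.log_lt_iff_lt_exp hy0]
      exact hb
    have h4 := Real.add_one_le_exp (-ε)
    have h5 : Real.exp ε * Real.exp (-ε) = 1 := by rw [← Real.exp_add]; simp
    have h6 : 0 < Real.exp ε := Real.exp_pos _
    nlinarith [Real.exp_pos (-ε)]
  have hρR0 : 0 < ρ * R := by positivity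
  have hlow : (n : ℝ) - 3 / 2 * (ρ * R) < (q : ℝ) * s := by
    rw [← hyx]
    have h3 : (1 - ε) * x < y * x := mul_lt_mul_of_pos_right h1 hxpos
    have h4 : x = n - ρ * R := hx
    nlinarith
  have hup : (q : ℝ) * s < n - 1 / 2 * (ρ * R) := by
    rw [← hyx]
    have h3 : y * (1 - ε) * x < 1 * x := mul_lt_mul_of_pos_right h2 hxpos
    have h4 : x = n - ρ * R := hx
    by_contra h5
    push Not at h5
    have h6 : (x + 1 / 2 * (ρ * R)) * (1 - ε) ≤ y * x * (1 - ε) :=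
      mul_le_mul_of_nonneg_right (by linarith) (by linarith)
    nlinarith
  -- s is larger than q
  have hsR : R ≤ s := by
    by_contra h3
    push Not at h3
    have h4 : (q : ℝ) * s ≤ (1 - ρ) * R * R :=
      mul_le_mul hq3 h3.le hs0.le (by nlinarith)
    nlinarith
  have hqs : q < s := by
    have : (q : ℝ) < s := by nlinarith
    exact_mod_cast this
  have hmlt : q * s < n := by
    have : ((q * s : ℕ) : ℝ) < n := by push_cast; linarith
    exact_mod_cast this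
  have hm : q * s + Nat.minFac (q * s) ≤ F n := by
    refine Finset.le_sup (f := fun m => m + Nat.minFac m) ?_
    rw [Finset.mem_filter, Finset.mem_range]
    refine ⟨hmlt, ?_, Nat.not_prime_mul hqp.ne_one hs.ne_one⟩
    have h3 := hqp.two_le
    have h4 := hs.two_le
    nlinarith
  have hmin : q ≤ Nat.minFac (q * s) := by
    have hne : q * s ≠ 1 := by
      intro h3
      exact hqp.ne_one (Nat.eq_one_of_mul_eq_one_right h3)
    have hp := Nat.minFac_prime hne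
    rcases (Nat.Prime.dvd_mul hp).1 (Nat.minFac_dvd (q * s)) with h3 | h3
    · exact ((Nat.prime_dvd_prime_iff_eq hp hqp).1 h3).ge
    · rw [(Nat.prime_dvd_prime_iff_eq hp hs).1 h3]
      exact hqs.le
  have hF : (q : ℝ) * s + q ≤ F n := by
    have h3 : q * s + q ≤ F n := by omega
    have h4 : ((q * s + q : ℕ) : ℝ) ≤ F n := by exact_mod_cast h3
    push_cast at h4
    exact h4
  have hsq : √(n : ℝ) ≤ (1 + ρ / 2) * R := by
    rw [Real.sqrt_le_left (by positivity)]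
    nlinarith [sq_nonneg (ρ * R)]
  nlinarith

/-- the bad integers -/
def Bad (δ : ℝ) (n : ℕ) : Prop :=
  5 ≤ n ∧ (n : ℝ) ^ (1 / 2 - δ) < |(F n : ℝ) - (n + √n)|

/-- one block and one residue class -/
theorem block_class {κ C N₀ : ℝ}
    (hcore : ∀ N ρ : ℝ, N₀ ≤ N →
      N ^ (-κ) ≤ ρ → ρ ≤ 1 / 4 → ∀ J : Finset ℝ, (∀ x ∈ J, N / 2 ≤ x ∧ x ≤ 2 * N) →
      (∀ x ∈ J, ∀ x' ∈ J, x ≠ x' → ρ * √N ≤ |x - x'|) →
      (∀ x ∈ J, ∀ q ∈ Iq (√N) ρ, ∀ s : ℕ, s.Prime → ρ / (4 * √N) ≤ |Real.log ((q : ℝ) * s / x)|) →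
      (J.card : ℝ) ≤ C * N ^ (1 / 2 - 8 * κ) * ρ ^ (-(3 : ℝ)))
    {N ρ δ : ℝ} (hN0 : N₀ ≤ N) (hN : 100 ≤ N) (hρ : 0 < ρ) (hρN : N ^ (-κ) ≤ ρ) (hρ4 : ρ ≤ 1 / 4)
    (B : Finset ℕ) (hB : ∀ n ∈ B, N ≤ n ∧ (n : ℝ) ≤ (1 + ρ) * N ∧ Bad δ n ∧
      4 * ρ * √N ≤ (n : ℝ) ^ (1 / 2 - δ)) (d r : ℕ) (hd : ρ * √N ≤ d) :
    (((B.filter fun n => n % d = r).card : ℕ) : ℝ) ≤
      C * N ^ (1 / 2 - 8 * κ) * ρ ^ (-(3 : ℝ)) := by
  classical
  have hR2 : √N ^ 2 = N := Real.sq_sqrt (by linarith)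
  have hR10 : 10 ≤ √N := by
    rw [Real.le_sqrt (by norm_num) (by linarith)]
    linarith
  have hρR : ρ * √N ≤ √N / 4 := by nlinarith
  have hρR0 : 0 < ρ * √N := by positivity
  set J : Finset ℝ := (B.filter fun n => n % d = r).image (fun n : ℕ => (n : ℝ) - ρ * √N) with hJ
  have hcard : J.card = (B.filter fun n => n % d = r).card := by
    rw [hJ]
    refine Finset.card_image_of_injective _ ?_
    intro a b hab
    have h1 : (a : ℝ) = b := by
      have h2 : (a : ℝ) - ρ * √N = (b : ℝ) - ρ * √N := hab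
      linarith
    exact_mod_cast h1
  rw [← hcard]
  refine hcore N ρ hN0 hρN hρ4 J ?_ ?_ ?_
  · intro x hx
    obtain ⟨n, hn, rfl⟩ := Finset.mem_image.1 hx
    obtain ⟨h1, h2, -, -⟩ := hB n (Finset.mem_filter.1 hn).1
    constructor <;> nlinarith
  · intro x hx x' hx' hne
    obtain ⟨n, hn, rfl⟩ := Finset.mem_image.1 hx
    obtain ⟨n', hn', rfl⟩ := Finset.mem_image.1 hx'
    have hmod : n % d = n' % d := by
      rw [(Finset.mem_filter.1 hn).2, (Finset.mem_filter.1 hn').2]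
    have hnn : n ≠ n' := by
      rintro rfl
      exact hne rfl
    have hdvd : (d : ℤ) ∣ (n : ℤ) - n' := by
      have : (n : ℤ) ≡ n' [ZMOD d] := by
        exact (Int.natCast_modEq_iff).2 hmod
      exact this.symm.dvd
    have h1 : (d : ℤ) ≤ |(n : ℤ) - n'| := by
      refine Int.le_of_dvd (abs_pos.2 ?_) ((dvd_abs _ _).2 hdvd)
      intro h2
      apply hnn
      omega
    have h2 : (d : ℝ) ≤ |(n : ℝ) - n'| := by exact_mod_cast h1
    have h3 : (n : ℝ) - ρ * √N - ((n' : ℝ) - ρ * √N) = (n : ℝ) - n' := by ring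
    rw [h3]
    linarith
  · intro x hx q hq s hs
    obtain ⟨n, hn, rfl⟩ := Finset.mem_image.1 hx
    obtain ⟨h1, h2, ⟨-, hbad⟩, h4⟩ := hB n (Finset.mem_filter.1 hn).1
    by_contra hlt
    push Not at hlt
    have h5 := key_F hN hρ hρ4 h1 h2 hq hs hlt
    have h6 := F_le n
    rw [abs_sub_comm, abs_of_nonneg (by linarith)] at hbad
    linarith

/-- one block -/
theorem block {κ C N₀ : ℝ} (hC : 0 < C)
    (hcore : ∀ N ρ : ℝ, N₀ ≤ N →
      N ^ (-κ) ≤ ρ → ρ ≤ 1 / 4 → ∀ J : Finset ℝ, (∀ x ∈ J, N / 2 ≤ x ∧ x ≤ 2 * N) →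
      (∀ x ∈ J, ∀ x' ∈ J, x ≠ x' → ρ * √N ≤ |x - x'|) →
      (∀ x ∈ J, ∀ q ∈ Iq (√N) ρ, ∀ s : ℕ, s.Prime → ρ / (4 * √N) ≤ |Real.log ((q : ℝ) * s / x)|) →
      (J.card : ℝ) ≤ C * N ^ (1 / 2 - 8 * κ) * ρ ^ (-(3 : ℝ)))
    {N ρ δ : ℝ} (hN0 : N₀ ≤ N) (hN : 100 ≤ N) (hρ : 0 < ρ) (hρN : N ^ (-κ) ≤ ρ) (hρ4 : ρ ≤ 1 / 4)
    (B : Finset ℕ) (hB : ∀ n ∈ B, N ≤ n ∧ (n : ℝ) ≤ (1 + ρ) * N ∧ Bad δ n ∧
      4 * ρ * √N ≤ (n : ℝ) ^ (1 / 2 - δ)) :
    (B.card : ℝ) ≤ √N * (C * N ^ (1 / 2 - 8 * κ) * ρ ^ (-(3 : ℝ))) := by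
  classical
  have hR10 : 10 ≤ √N := by
    rw [Real.le_sqrt (by norm_num) (by linarith)]
    linarith
  have hρR : ρ * √N ≤ √N / 4 := by nlinarith
  have hρR0 : 0 < ρ * √N := by positivity
  set d : ℕ := ⌈ρ * √N⌉₊ with hd
  have hd0 : 0 < d := Nat.ceil_pos.2 hρR0
  have hdle : (d : ℝ) ≤ √N := by
    have := Nat.ceil_lt_add_one hρR0.le
    rw [← hd] at this
    linarith
  have h1 : B.card = ∑ r ∈ range d, (B.filter fun n => n % d = r).card :=
    Finset.card_eq_sum_card_fiberwise fun n _ => by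
      simp only [coe_range, Set.mem_Iio]
      exact Nat.mod_lt _ hd0
  have h2 : 0 ≤ C * N ^ (1 / 2 - 8 * κ) * ρ ^ (-(3 : ℝ)) := by positivity
  rw [h1]
  push_cast
  calc ∑ r ∈ range d, (((B.filter fun n => n % d = r).card : ℕ) : ℝ) ≤
      ∑ _r ∈ range d, C * N ^ (1 / 2 - 8 * κ) * ρ ^ (-(3 : ℝ)) :=
        Finset.sum_le_sum fun r _ =>
          block_class hcore hN0 hN hρ hρN hρ4 B hB d r (Nat.le_ceil _)
    _ = d * (C * N ^ (1 / 2 - 8 * κ) * ρ ^ (-(3 : ℝ))) := by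
        rw [Finset.sum_const, card_range, nsmul_eq_mul]
    _ ≤ √N * (C * N ^ (1 / 2 - 8 * κ) * ρ ^ (-(3 : ℝ))) :=
        mul_le_mul_of_nonneg_right hdle h2

/-- one dyadic range -/
theorem dyadic {κ C N₀ : ℝ} (hκ : 0 < κ) (hκ1 : κ ≤ 1 / 16) (hC : 0 < C)
    (hcore : ∀ N ρ : ℝ, N₀ ≤ N →
      N ^ (-κ) ≤ ρ → ρ ≤ 1 / 4 → ∀ J : Finset ℝ, (∀ x ∈ J, N / 2 ≤ x ∧ x ≤ 2 * N) →
      (∀ x ∈ J, ∀ x' ∈ J, x ≠ x' → ρ * √N ≤ |x - x'|) →
      (∀ x ∈ J, ∀ q ∈ Iq (√N) ρ, ∀ s : ℕ, s.Prime → ρ / (4 * √N) ≤ |Real.log ((q : ℝ) * s / x)|) →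
      (J.card : ℝ) ≤ C * N ^ (1 / 2 - 8 * κ) * ρ ^ (-(3 : ℝ))) {X : ℝ} (hX0 : 2 * N₀ ≤ X)
    (hX : 200 ≤ X) (hXκ : 8 ≤ X ^ (κ / 2)) (B : Finset ℕ)
    (hB : ∀ n ∈ B, X / 2 ≤ n ∧ (n : ℝ) ≤ X ∧ Bad (κ / 2) n) :
    (B.card : ℝ) ≤ C * X ^ (1 - 4 * κ) := by
  classical
  have hXpos : 0 < X := by linarith
  set P : ℝ := X ^ κ with hP
  have hP64 : 64 ≤ P := by
    have h1 : P = X ^ (κ / 2) * X ^ (κ / 2) := by
      rw [hP, ← Real.rpow_add hXpos]
      congr 1
      ring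
    rw [h1]
    nlinarith
  have hP0 : 0 < P := by linarith
  set ρ : ℝ := 2 / P with hρ
  have hρ0 : 0 < ρ := by positivity
  have hρ4 : ρ ≤ 1 / 4 := by
    rw [hρ, div_le_div_iff₀ hP0 (by norm_num)]
    linarith
  set K : ℕ := ⌊1 / ρ⌋₊ + 1 with hK
  have hKle : (K : ℝ) ≤ P := by
    have h1 : (⌊1 / ρ⌋₊ : ℝ) ≤ 1 / ρ := Nat.floor_le (by positivity)
    have h2 : 1 / ρ = P / 2 := by
      rw [hρ, one_div_div]
    rw [hK]
    push_cast
    rw [h2] at h1
    rw [h2]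
    linarith
  set w : ℝ := ρ * X / 2 with hw
  have hw0 : 0 < w := by positivity
  set kk : ℕ → ℕ := fun n => ⌊((n : ℝ) - X / 2) / w⌋₊ with hkk
  have hkkK : ∀ n ∈ B, kk n ∈ range K := by
    intro n hn
    obtain ⟨h1, h2, -⟩ := hB n hn
    rw [mem_range, hK, Nat.lt_succ_iff]
    refine Nat.floor_le_floor ?_
    rw [div_le_div_iff₀ hw0 hρ0, hw]
    nlinarith
  have h1 : B.card = ∑ k ∈ range K, (B.filter fun n => kk n = k).card :=
    Finset.card_eq_sum_card_fiberwise fun n hn => hkkK n hn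
  have hblock : ∀ k ∈ range K, (((B.filter fun n => kk n = k).card : ℕ) : ℝ) ≤
      C * X ^ (1 - 5 * κ) := by
    intro k hk
    rcases (B.filter fun n => kk n = k).eq_empty_or_nonempty with he | ⟨n₀, hn₀⟩
    · rw [he, card_empty, Nat.cast_zero]
      positivity
    set N : ℝ := X / 2 + k * w with hNdef
    have hkw : 0 ≤ (k : ℝ) * w := by positivity
    have hmem : ∀ n ∈ B.filter fun n => kk n = k, N ≤ n ∧ (n : ℝ) ≤ N + w ∧ (n : ℝ) ≤ X ∧
        Bad (κ / 2) n := by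
      intro n hn
      obtain ⟨hnB, hnk⟩ := Finset.mem_filter.1 hn
      obtain ⟨h2, h3, h4⟩ := hB n hnB
      have h5 : 0 ≤ ((n : ℝ) - X / 2) / w := div_nonneg (by linarith) hw0.le
      have h6 := Nat.floor_le h5
      have h7 := Nat.lt_floor_add_one (((n : ℝ) - X / 2) / w)
      have h8 : (⌊((n : ℝ) - X / 2) / w⌋₊ : ℝ) = k := by exact_mod_cast hnk
      rw [h8] at h6 h7
      rw [le_div_iff₀ hw0] at h6
      rw [div_lt_iff₀ hw0] at h7
      refine ⟨by linarith, ?_, h3, h4⟩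
      nlinarith
    have hNX : N ≤ X := by
      obtain ⟨h2, -, h3, -⟩ := hmem n₀ hn₀
      linarith
    have hNX2 : X / 2 ≤ N := by linarith
    have hNpos : 0 < N := by linarith
    have hρN : N ^ (-κ) ≤ ρ := by
      have h2 : (X / 2) ^ κ ≤ N ^ κ := Real.rpow_le_rpow (by positivity) hNX2 hκ.le
      have h3 : (X / 2) ^ κ = P / 2 ^ κ := by
        rw [Real.div_rpow hXpos.le (by norm_num)]
      have h4 : (2 : ℝ) ^ κ ≤ 2 := by
        calc (2 : ℝ) ^ κ ≤ 2 ^ (1 : ℝ) :=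
              Real.rpow_le_rpow_of_exponent_le (by norm_num) (by linarith)
          _ = 2 := Real.rpow_one _
      have h5 : P / 2 ≤ N ^ κ := by
        refine le_trans ?_ (h3 ▸ h2)
        exact div_le_div_of_nonneg_left hP0.le (Real.rpow_pos_of_pos (by norm_num) _) h4
      rw [Real.rpow_neg hNpos.le, hρ]
      rw [inv_eq_one_div, div_le_div_iff₀ (Real.rpow_pos_of_pos hNpos _) hP0]
      linarith
    have h2 := block hC hcore (N := N) (ρ := ρ) (δ := κ / 2) (by linarith) (by linarith) hρ0 hρN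
      hρ4 (B.filter fun n => kk n = k) ?_
    · refine h2.trans ?_
      have h3 : √N ≤ X ^ (1 / 2 : ℝ) := by
        rw [Real.sqrt_eq_rpow]
        exact Real.rpow_le_rpow hNpos.le hNX (by norm_num)
      have h4 : N ^ (1 / 2 - 8 * κ) ≤ X ^ (1 / 2 - 8 * κ) :=
        Real.rpow_le_rpow hNpos.le hNX (by linarith)
      have h5 : ρ ^ (-(3 : ℝ)) ≤ X ^ (3 * κ) := by
        have h6 : P⁻¹ ≤ ρ := by
          rw [hρ, inv_eq_one_div]
          exact div_le_div_of_nonneg_right (by norm_num) hP0.le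
        have h7 : ρ ^ (-(3 : ℝ)) ≤ (P⁻¹) ^ (-(3 : ℝ)) :=
          Real.rpow_le_rpow_of_nonpos (by positivity) h6 (by norm_num)
        have h8 : (P⁻¹) ^ (-(3 : ℝ)) = X ^ (3 * κ) := by
          rw [hP, ← Real.rpow_neg hXpos.le, ← Real.rpow_mul hXpos.le]
          congr 1
          ring
        rwa [h8] at h7
      have hN1 : 0 ≤ N ^ (1 / 2 - 8 * κ) := Real.rpow_nonneg hNpos.le _
      have hρ1 : 0 ≤ ρ ^ (-(3 : ℝ)) := Real.rpow_nonneg hρ0.le _
      have hX1 : 0 ≤ X ^ (1 / 2 : ℝ) := Real.rpow_nonneg hXpos.le _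
      have hX2 : 0 ≤ X ^ (1 / 2 - 8 * κ) := Real.rpow_nonneg hXpos.le _
      calc √N * (C * N ^ (1 / 2 - 8 * κ) * ρ ^ (-(3 : ℝ))) ≤
          X ^ (1 / 2 : ℝ) * (C * X ^ (1 / 2 - 8 * κ) * X ^ (3 * κ)) := by
            refine mul_le_mul h3 ?_ (by positivity) hX1
            exact mul_le_mul (mul_le_mul_of_nonneg_left h4 hC.le) h5 hρ1 (by positivity)
        _ = C * (X ^ (1 / 2 : ℝ) * X ^ (1 / 2 - 8 * κ) * X ^ (3 * κ)) := by ring
        _ = C * X ^ (1 - 5 * κ) := by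
            rw [← Real.rpow_add hXpos, ← Real.rpow_add hXpos]
            congr 2
            ring
    · intro n hn
      obtain ⟨h3, h4, h5, h6⟩ := hmem n hn
      refine ⟨h3, ?_, h6, ?_⟩
      · have : w ≤ ρ * N := by rw [hw]; nlinarith
        linarith
      · have hnpos : (0 : ℝ) < n := by linarith
        have h7 : (n : ℝ) ^ (1 / 2 - κ / 2) = √n * (n : ℝ) ^ (-(κ / 2)) := by
          rw [Real.sqrt_eq_rpow, ← Real.rpow_add hnpos]
          congr 1
        have h8 : X ^ (-(κ / 2)) ≤ (n : ℝ) ^ (-(κ / 2)) :=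
          Real.rpow_le_rpow_of_nonpos hnpos h5 (by linarith)
        have h9 : √N ≤ √n := Real.sqrt_le_sqrt h3
        have h10 : 4 * ρ ≤ X ^ (-(κ / 2)) := by
          rw [Real.rpow_neg hXpos.le, hρ, inv_eq_one_div, ← mul_div_assoc,
            div_le_div_iff₀ hP0 (by positivity)]
          have h11 : P = X ^ (κ / 2) * X ^ (κ / 2) := by
            rw [hP, ← Real.rpow_add hXpos]
            congr 1
            ring
          rw [h11]
          nlinarith
        rw [h7]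
        have h12 : 0 ≤ X ^ (-(κ / 2)) := Real.rpow_nonneg hXpos.le _
        calc 4 * ρ * √N ≤ X ^ (-(κ / 2)) * √n :=
              mul_le_mul h10 h9 (Real.sqrt_nonneg _) h12
          _ ≤ (n : ℝ) ^ (-(κ / 2)) * √n := mul_le_mul_of_nonneg_right h8 (Real.sqrt_nonneg _)
          _ = √n * (n : ℝ) ^ (-(κ / 2)) := mul_comm _ _
  rw [h1]
  push_cast
  have hX3 : 0 ≤ C * X ^ (1 - 5 * κ) := by positivity
  calc ∑ k ∈ range K, (((B.filter fun n => kk n = k).card : ℕ) : ℝ) ≤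
      ∑ _k ∈ range K, C * X ^ (1 - 5 * κ) := Finset.sum_le_sum hblock
    _ = K * (C * X ^ (1 - 5 * κ)) := by rw [Finset.sum_const, card_range, nsmul_eq_mul]
    _ ≤ P * (C * X ^ (1 - 5 * κ)) := mul_le_mul_of_nonneg_right hKle hX3
    _ = C * (X ^ κ * X ^ (1 - 5 * κ)) := by rw [hP]; ring
    _ = C * X ^ (1 - 4 * κ) := by
        rw [← Real.rpow_add hXpos]
        congr 2
        ring

/-- **Row FIN.** -/
theorem finf (h : COREF) : FINF := by
  classical
  obtain ⟨κ, C, N₀, hκ, hκ1, hC, hcore⟩ := h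
  -- the threshold
  have ht : Filter.Tendsto (fun n : ℕ => ((n : ℝ)) ^ (κ / 2)) Filter.atTop Filter.atTop :=
    (tendsto_rpow_atTop (by linarith)).comp tendsto_natCast_atTop_atTop
  obtain ⟨n₁, hn₁⟩ := Filter.eventually_atTop.1 (ht.eventually_ge_atTop 8)
  set X₁ : ℕ := max n₁ (max 200 ⌈2 * N₀⌉₊) with hX₁
  set A : ℕ → Finset ℕ := fun m => (Finset.range (m + 1)).filter (fun n => Bad (κ / 2) n) with hA
  set β : ℝ := 1 - 4 * κ with hβ
  have hβ0 : 3 / 4 ≤ β := by rw [hβ]; linarith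
  set D : ℝ := max X₁ (3 * C) with hD
  have hD0 : 0 < D := lt_of_lt_of_le (by positivity) (le_max_right _ _)
  have hmain : ∀ m : ℕ, ((A m).card : ℝ) ≤ D * (m : ℝ) ^ β := by
    intro m
    induction m using Nat.strong_induction_on with
    | _ m ih =>
      rcases Nat.eq_zero_or_pos m with rfl | hm
      · have : A 0 = ∅ := by
          rw [hA]
          simp only [Finset.filter_eq_empty_iff, Finset.mem_range]
          rintro n hn ⟨h5, -⟩
          omega
        rw [this, card_empty, Nat.cast_zero]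
        positivity
      rcases lt_or_ge m X₁ with hlt | hge
      · have h1 : (A m).card ≤ m := by
          have h2 : A m ⊆ Finset.Icc 1 m := by
            intro n hn
            obtain ⟨h3, h4, -⟩ := Finset.mem_filter.1 hn
            rw [Finset.mem_Icc]
            have := Finset.mem_range.1 h3
            omega
          have := Finset.card_le_card h2
          simpa using this
        have h3 : ((A m).card : ℝ) ≤ m := by exact_mod_cast h1
        have h4 : (m : ℝ) ≤ X₁ := by exact_mod_cast hlt.le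
        have h5 : (1 : ℝ) ≤ (m : ℝ) ^ β :=
          Real.one_le_rpow (by exact_mod_cast hm) (by linarith)
        have h6 : (X₁ : ℝ) ≤ D := le_max_left _ _
        nlinarith
      · have hmn : n₁ ≤ m := (le_max_left _ _).trans hge
        have hm200 : 200 ≤ m := ((le_max_left _ _).trans (le_max_right _ _)).trans hge
        have hmN : 2 * N₀ ≤ m := by
          have h1 : ⌈2 * N₀⌉₊ ≤ m := ((le_max_right _ _).trans (le_max_right _ _)).trans hge
          exact (Nat.le_ceil _).trans (by exact_mod_cast h1)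
        have hmR : (200 : ℝ) ≤ m := by exact_mod_cast hm200
        have hsub : A m ⊆ A (m / 2) ∪ (A m).filter (fun n => m / 2 < n) := by
          intro n hn
          rcases Nat.lt_or_ge (m / 2) n with h1 | h1
          · exact Finset.mem_union_right _ (Finset.mem_filter.2 ⟨hn, h1⟩)
          · refine Finset.mem_union_left _ (Finset.mem_filter.2 ⟨?_, (Finset.mem_filter.1 hn).2⟩)
            rw [Finset.mem_range]
            omega
        have h1 : ((A m).card : ℝ) ≤ ((A (m / 2)).card : ℝ) +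
            (((A m).filter (fun n => m / 2 < n)).card : ℝ) := by
          have := (Finset.card_le_card hsub).trans (Finset.card_union_le _ _)
          exact_mod_cast this
        have h2 := ih (m / 2) (by omega)
        have h3 := dyadic hκ hκ1 hC hcore (X := (m : ℝ)) hmN hmR (hn₁ m hmn)
          ((A m).filter (fun n => m / 2 < n)) (by
            intro n hn
            obtain ⟨h4, h5⟩ := Finset.mem_filter.1 hn
            obtain ⟨h6, h7⟩ := Finset.mem_filter.1 h4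
            have h8 : n ≤ m := by
              have := Finset.mem_range.1 h6
              omega
            refine ⟨?_, by exact_mod_cast h8, h7⟩
            have h9 : m ≤ 2 * n := by omega
            have h10 : (m : ℝ) ≤ 2 * n := by exact_mod_cast h9
            linarith)
        have hm0 : (0 : ℝ) < m := by linarith
        have h4 : ((m / 2 : ℕ) : ℝ) ^ β ≤ (m : ℝ) ^ β * (3 / 5) := by
          have h5 : ((m / 2 : ℕ) : ℝ) ≤ (m : ℝ) / 2 := Nat.cast_div_le
          have h6 : ((m / 2 : ℕ) : ℝ) ^ β ≤ ((m : ℝ) / 2) ^ β :=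
            Real.rpow_le_rpow (Nat.cast_nonneg _) h5 (by linarith)
          have h7 : ((m : ℝ) / 2) ^ β = (m : ℝ) ^ β / 2 ^ β :=
            Real.div_rpow hm0.le (by norm_num) _
          have h8 : (5 / 3 : ℝ) ≤ 2 ^ β := by
            have h9 : (2 : ℝ) ^ (3 / 4 : ℝ) ≤ 2 ^ β :=
              Real.rpow_le_rpow_of_exponent_le (by norm_num) hβ0
            have h10 : (5 / 3 : ℝ) ≤ 2 ^ (3 / 4 : ℝ) := by
              have h11 : ((5 / 3 : ℝ) ^ (4 : ℝ)) ^ (1 / 4 : ℝ) ≤ ((2 : ℝ) ^ (3 : ℝ)) ^ (1 / 4 : ℝ) := by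
                refine Real.rpow_le_rpow (by positivity) ?_ (by norm_num)
                norm_num
              rw [← Real.rpow_mul (by norm_num), ← Real.rpow_mul (by norm_num)] at h11
              norm_num at h11 ⊢
              exact h11
            linarith
          have h12 : 0 < (m : ℝ) ^ β := Real.rpow_pos_of_pos hm0 _
          rw [h7] at h6
          refine h6.trans ?_
          rw [div_le_iff₀ (by positivity)]
          nlinarith
        have h5 : 3 * C ≤ D := le_max_right _ _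
        have h6 : 0 < (m : ℝ) ^ β := Real.rpow_pos_of_pos hm0 _
        calc ((A m).card : ℝ) ≤ D * ((m / 2 : ℕ) : ℝ) ^ β + C * (m : ℝ) ^ β :=
              h1.trans (add_le_add h2 h3)
          _ ≤ D * ((m : ℝ) ^ β * (3 / 5)) + C * (m : ℝ) ^ β := by
              have := mul_le_mul_of_nonneg_left h4 hD0.le
              linarith
          _ ≤ D * (m : ℝ) ^ β := by nlinarith
  refine ⟨κ / 2, D, by linarith, fun x hx => ?_⟩
  set m : ℕ := ⌊x⌋₊ with hm
  have hset : {n : ℕ | 5 ≤ n ∧ (n : ℝ) ≤ x ∧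
      (n : ℝ) ^ (1 / 2 - κ / 2) < |(F n : ℝ) - (n + √n)|} = (A m : Set ℕ) := by
    ext n
    rw [hA, Finset.coe_filter]
    simp only [Set.mem_ofPred_eq, Finset.mem_range, Bad]
    constructor
    · rintro ⟨h1, h2, h3⟩
      refine ⟨?_, h1, h3⟩
      have := Nat.le_floor h2
      omega
    · rintro ⟨h1, h2, h3⟩
      refine ⟨h2, ?_, h3⟩
      have h4 : n ≤ ⌊x⌋₊ := by omega
      exact (Nat.cast_le.2 h4).trans (Nat.floor_le (by linarith))
  rw [hset, Set.ncard_coe_finset]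
  refine (hmain m).trans ?_
  have h1 : (m : ℝ) ^ β ≤ x ^ β :=
    Real.rpow_le_rpow (Nat.cast_nonneg _) (Nat.floor_le (by linarith)) (by linarith)
  have h2 : x ^ β ≤ x ^ (1 - κ / 2) :=
    Real.rpow_le_rpow_of_exponent_le hx (by rw [hβ]; linarith)
  exact mul_le_mul_of_nonneg_left (h1.trans h2) hD0.le

end Pool.Agent.FN82
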