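import Pool.Agent.Lib.FN82.Defs
import Pool.Agent.Lib.OX.MT
import Pool.Agent.Lib.OX.INTa

/-!
# FN82, row HOH: primes in the interval `((1 - 2ρ)Y, (1 - ρ)Y]`, `ρ ≥ Y^(-δ)`.  helper82.
-/

set_option autoImplicit false

namespace Pool.Agent.FN82

open Finset MeasureTheory Filter Topology Pool.Agent.MRL Pool.Agent.MRF Pool.Agent.OX

namespace H1

/-- the Gaussian sum over primes near `x` -/
noncomputable def Wp (y T x : ℝ) : ℝ :=
  ∑ s ∈ SP y, Real.log s * Real.exp (-(Real.log ((s : ℝ) / y)) ^ 2 / 4) / s *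
    Real.exp (-(T * Real.log ((s : ℝ) / x)) ^ 2 / 4)

theorem integrable_eu {T : ℝ} (hT : 0 < T) (u : ℝ) : Integrable (fun t => eu u t * (g T t : ℂ)) :=
  OX.integrable_mul_g hT (continuous_eu u) (B := 1) (fun t => (norm_eu u t).le)

theorem integral_S {y T x : ℝ} (hT : 0 < T) (hx : 0 < x) :
    ∫ t : ℝ, Sy y t * xt x t * (g T t : ℂ) = ((√Real.pi * T * Wp y T x : ℝ) : ℂ) := by
  have hF : ∀ t : ℝ, Sy y t * xt x t * (g T t : ℂ) = ∑ s ∈ SP y,
      ((Real.log s * Real.exp (-(Real.log ((s : ℝ) / y)) ^ 2 / 4) / s : ℝ) : ℂ) *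
        (eu (Real.log ((s : ℝ) / x)) t * (g T t : ℂ)) := by
    intro t
    unfold Sy
    rw [Finset.sum_mul, Finset.sum_mul]
    refine Finset.sum_congr rfl fun s hs => ?_
    have hs' : (s : ℝ) ≠ 0 := by exact_mod_cast (SP_pos hs).ne'
    have e1 : eu (Real.log ((s : ℝ) / x)) t = nt s t * xt x t := by
      rw [nt_eq_eu, xt_eq_eu, eu_mul, Real.log_div hs' hx.ne']
      rfl
    rw [e1]
    ring
  simp_rw [hF]
  rw [integral_finsetSum _ fun s _ => (integrable_eu hT _).const_mul _]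
  unfold Wp
  rw [Finset.mul_sum, Complex.ofReal_sum]
  refine Finset.sum_congr rfl fun s _ => ?_
  rw [integral_const_mul, integral_eu_g hT, ← Complex.ofReal_mul]
  congr 1
  ring

theorem integral_M {y T : ℝ} (hT : 0 < T) :
    ∫ t : ℝ, my y t * xt y t * (g T t : ℂ) =
      ((2 * √Real.pi * √(Real.pi / (1 + 1 / T ^ 2)) : ℝ) : ℂ) := by
  have hb : 0 < 1 + 1 / T ^ 2 := by positivity
  have hM : ∀ t : ℝ, my y t * xt y t * (g T t : ℂ) = ((2 * √Real.pi : ℝ) : ℂ) *
      (eu 0 t * ((Real.exp (-(1 + 1 / T ^ 2) * t ^ 2) : ℝ) : ℂ)) := by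
    intro t
    have e3 : my y t = ((2 * √Real.pi * Real.exp (-t ^ 2) : ℝ) : ℂ) * eu (Real.log y) t := rfl
    have e2 : Real.exp (-(1 + 1 / T ^ 2) * t ^ 2) = Real.exp (-t ^ 2) * g T t := by
      rw [MRL.Bas.g_eq, ← Real.exp_add]
      congr 1
      ring
    have e1 : eu (Real.log y) t * xt y t = eu 0 t := by
      rw [xt_eq_eu, eu_mul, add_neg_cancel]
    rw [e2, e3, ← e1]
    push_cast
    ring
  simp_rw [hM]
  rw [integral_const_mul, integral_eu_gauss hb, ← Complex.ofReal_mul]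
  congr 1
  simp

theorem Wp_lower {y T : ℝ} (hT : 1 ≤ T) (hy : 0 < y)
    (hE : ∫ t : ℝ, ‖Ey y t‖ * g T t ≤ 1) : 1 / T ≤ Wp y T y := by
  have hT0 : 0 < T := by linarith
  have h1 : ∫ t : ℝ, Ey y t * xt y t * (g T t : ℂ) =
      ((√Real.pi * T * Wp y T y : ℝ) : ℂ) -
        ((2 * √Real.pi * √(Real.pi / (1 + 1 / T ^ 2)) : ℝ) : ℂ) := by
    rw [← integral_S hT0 hy, ← integral_M hT0, ← integral_sub]
    · refine integral_congr_ae (Filter.Eventually.of_forall fun t => ?_)
      simp only [Ey]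
      ring
    · exact OX.integrable_mul_g hT0 ((continuous_Sy y).mul (continuous_xt y))
        (B := ∑ s ∈ SP y, Real.log s / s) (fun t => by
          rw [norm_mul, norm_xt, mul_one]
          exact norm_Sy_le y t)
    · exact OX.integrable_mul_g hT0 ((continuous_my y).mul (continuous_xt y)) (B := 4)
        (fun t => by
          rw [norm_mul, norm_xt, mul_one]
          exact norm_my_le y t)
  have h2 : ‖∫ t : ℝ, Ey y t * xt y t * (g T t : ℂ)‖ ≤ 1 := by
    refine (norm_integral_le_integral_norm _).trans (le_trans (le_of_eq ?_) hE)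
    refine integral_congr_ae (Filter.Eventually.of_forall fun t => ?_)
    simp only
    rw [norm_mul_g, norm_mul, norm_xt, mul_one]
  rw [h1, ← Complex.ofReal_sub, Complex.norm_real, Real.norm_eq_abs] at h2
  have h3 := (abs_le.1 h2).1
  have hpi : 3 < Real.pi := Real.pi_gt_three
  have hpi4 : Real.pi < 4 := Real.pi_lt_four
  have h4 : 3 ≤ 2 * √Real.pi * √(Real.pi / (1 + 1 / T ^ 2)) := by
    have h5 : (3 : ℝ) / 2 ≤ Real.pi / (1 + 1 / T ^ 2) := by
      have h6 : 1 / T ^ 2 ≤ 1 := by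
        rw [div_le_one (by positivity)]
        nlinarith
      rw [div_le_div_iff₀ (by norm_num) (by positivity)]
      nlinarith
    have h7 : √(3 / 2) ≤ √(Real.pi / (1 + 1 / T ^ 2)) := Real.sqrt_le_sqrt h5
    have h8 : √3 ≤ √Real.pi := Real.sqrt_le_sqrt hpi.le
    have h9 : (3 : ℝ) / 2 ≤ √3 * √(3 / 2) := by
      rw [← Real.sqrt_mul (by norm_num)]
      refine Real.le_sqrt_of_sq_le (by norm_num)
    have h10 : √3 * √(3 / 2) ≤ √Real.pi * √(Real.pi / (1 + 1 / T ^ 2)) :=
      mul_le_mul h8 h7 (Real.sqrt_nonneg _) (Real.sqrt_nonneg _)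
    nlinarith
  have h5 : 2 ≤ √Real.pi * T * Wp y T y := by linarith
  have h6 : √Real.pi ≤ 2 := by
    rw [Real.sqrt_le_left (by norm_num)]
    linarith
  have hW : 0 ≤ Wp y T y := by
    unfold Wp
    refine Finset.sum_nonneg fun s hs => ?_
    have hl : 0 ≤ Real.log s := Real.log_nonneg (by exact_mod_cast SP_pos hs)
    positivity
  rw [div_le_iff₀ hT0]
  have h7 : √Real.pi * (T * Wp y T y) ≤ 2 * (T * Wp y T y) :=
    mul_le_mul_of_nonneg_right h6 (by positivity)
  nlinarith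

/-- the primes near `(1 - 3ρ/2)Y` are in the interval -/
theorem mem_Iq {Y ρ : ℝ} (hY : 0 < Y) (hρ : 0 < ρ) (hρ4 : ρ ≤ 1 / 4) {s : ℕ}
    (hs : s ∈ SP ((1 - 3 * ρ / 2) * Y))
    (hlog : |Real.log ((s : ℝ) / ((1 - 3 * ρ / 2) * Y))| < ρ / 2) : s ∈ Iq Y ρ := by
  have hs0 : (0 : ℝ) < s := by exact_mod_cast SP_pos hs
  have hx : 0 < (1 - 3 * ρ / 2) * Y := mul_pos (by linarith) hY
  have hr : 0 < (s : ℝ) / ((1 - 3 * ρ / 2) * Y) := by positivity
  obtain ⟨h1, h2⟩ := abs_lt.1 hlog
  have h3 : (s : ℝ) / ((1 - 3 * ρ / 2) * Y) < Real.exp (ρ / 2) :=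
    (Real.log_lt_iff_lt_exp hr).1 h2
  have h4 : Real.exp (-(ρ / 2)) < (s : ℝ) / ((1 - 3 * ρ / 2) * Y) :=
    (Real.lt_log_iff_exp_lt hr).1 h1
  rw [div_lt_iff₀ hx] at h3
  rw [lt_div_iff₀ hx] at h4
  -- upper bound for the exponential
  have h5 : Real.exp (ρ / 2) ≤ 1 + ρ / 2 + ρ ^ 2 / 4 := by
    have h6 := Real.abs_exp_sub_one_sub_id_le (x := ρ / 2) (by
      rw [abs_of_pos (by linarith)]
      linarith)
    have h7 := (abs_le.1 h6).2
    nlinarith
  have h6 : 1 - ρ / 2 ≤ Real.exp (-(ρ / 2)) := by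
    have := Real.add_one_le_exp (-(ρ / 2))
    linarith
  have h7 : (s : ℝ) ≤ (1 - ρ) * Y := by
    refine h3.le.trans ?_
    rw [← mul_assoc]
    refine mul_le_mul_of_nonneg_right ?_ hY.le
    refine (mul_le_mul_of_nonneg_right h5 (by linarith)).trans ?_
    nlinarith [mul_pos hρ hρ, mul_pos hρ (mul_pos hρ hρ)]
  have h8 : (1 - 2 * ρ) * Y < s := by
    refine lt_of_le_of_lt ?_ h4
    rw [← mul_assoc]
    refine mul_le_mul_of_nonneg_right ?_ hY.le
    refine le_trans ?_ (mul_le_mul_of_nonneg_right h6 (by linarith))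
    nlinarith [mul_pos hρ hρ]
  unfold Iq
  rw [Finset.mem_filter, Finset.mem_Icc]
  refine ⟨⟨SP_pos hs, Nat.le_floor h7⟩, (Finset.mem_filter.1 hs).2.1, h8⟩

/-- upper bound of the Gaussian sum by the sum of reciprocals of the interval -/
theorem Wp_upper {Y ρ T L : ℝ} (hY : 1 ≤ Y) (hρ : 0 < ρ) (hρ4 : ρ ≤ 1 / 4)
    (hT : T = 8 * L / ρ) (hL : L = Real.log Y) (hL0 : 0 ≤ L) :
    Wp ((1 - 3 * ρ / 2) * Y) T ((1 - 3 * ρ / 2) * Y) ≤
      L * SI Y ρ + Y ^ 2 * Real.exp (-(4 * L ^ 2)) := by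
  classical
  set x := (1 - 3 * ρ / 2) * Y with hx
  have hx0 : 0 < x := mul_pos (by linarith) (by linarith)
  have hxY : x ≤ Y := by
    rw [hx]
    exact mul_le_of_le_one_left (by linarith) (by linarith)
  -- termwise
  have hterm : ∀ s ∈ SP x, Real.log s * Real.exp (-(Real.log ((s : ℝ) / x)) ^ 2 / 4) / s *
      Real.exp (-(T * Real.log ((s : ℝ) / x)) ^ 2 / 4) ≤
      (if s ∈ Iq Y ρ then L * (1 / (s : ℝ)) else 0) + Real.exp (-(4 * L ^ 2)) := by
    intro s hs
    have hs1 : (1 : ℝ) ≤ s := by exact_mod_cast SP_pos hs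
    have hl : 0 ≤ Real.log s := Real.log_nonneg hs1
    have hls : Real.log s ≤ s := (Real.log_le_sub_one_of_pos (by linarith)).trans (by linarith)
    have he1 : Real.exp (-(Real.log ((s : ℝ) / x)) ^ 2 / 4) ≤ 1 := by
      rw [Real.exp_le_one_iff]
      nlinarith [sq_nonneg (Real.log ((s : ℝ) / x))]
    have he2 : Real.exp (-(T * Real.log ((s : ℝ) / x)) ^ 2 / 4) ≤ 1 := by
      rw [Real.exp_le_one_iff]
      nlinarith [sq_nonneg (T * Real.log ((s : ℝ) / x))]
    have h0 : Real.log s * Real.exp (-(Real.log ((s : ℝ) / x)) ^ 2 / 4) / s ≤ Real.log s / s :=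
      div_le_div_of_nonneg_right (mul_le_of_le_one_right hl he1) (by linarith)
    have h00 : 0 ≤ Real.log s * Real.exp (-(Real.log ((s : ℝ) / x)) ^ 2 / 4) / s := by positivity
    by_cases hmem : s ∈ Iq Y ρ
    · rw [if_pos hmem]
      have h1 : (s : ℝ) ≤ Y := by
        have h2 := (Finset.mem_Icc.1 (Finset.mem_filter.1 hmem).1).2
        have h3 : (s : ℝ) ≤ (1 - ρ) * Y := (Nat.le_floor_iff (mul_nonneg (by linarith)
          (by linarith))).1 h2
        exact h3.trans (mul_le_of_le_one_left (by linarith) (by linarith))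
      have h2 : Real.log s ≤ L := by
        rw [hL]
        exact Real.log_le_log (by linarith) h1
      have h3 : Real.log s * Real.exp (-(Real.log ((s : ℝ) / x)) ^ 2 / 4) / s *
          Real.exp (-(T * Real.log ((s : ℝ) / x)) ^ 2 / 4) ≤ L * (1 / (s : ℝ)) := by
        refine (mul_le_of_le_one_right h00 he2).trans (h0.trans ?_)
        rw [mul_one_div]
        exact div_le_div_of_nonneg_right h2 (by linarith)
      have h4 := (Real.exp_pos (-(4 * L ^ 2))).le
      linarith
    · rw [if_neg hmem, zero_add]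
      have h1 : ρ / 2 ≤ |Real.log ((s : ℝ) / x)| := by
        by_contra hcon
        push Not at hcon
        exact hmem (mem_Iq (by linarith) hρ hρ4 hs hcon)
      have h2 : Real.exp (-(T * Real.log ((s : ℝ) / x)) ^ 2 / 4) ≤ Real.exp (-(4 * L ^ 2)) := by
        refine Real.exp_le_exp.2 ?_
        have h3 : (ρ / 2) ^ 2 ≤ (Real.log ((s : ℝ) / x)) ^ 2 := by
          rw [← sq_abs (Real.log ((s : ℝ) / x))]
          exact pow_le_pow_left₀ (by linarith) h1 2
        have h4 : T ^ 2 * (ρ / 2) ^ 2 = 16 * L ^ 2 := by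
          rw [hT]
          field_simp
          ring
        have h5 : T ^ 2 * (ρ / 2) ^ 2 ≤ T ^ 2 * (Real.log ((s : ℝ) / x)) ^ 2 :=
          mul_le_mul_of_nonneg_left h3 (sq_nonneg _)
        rw [mul_pow]
        linarith
      have h3 : Real.log s / s ≤ 1 := by
        rw [div_le_one (by linarith)]
        exact hls
      calc _ ≤ 1 * Real.exp (-(4 * L ^ 2)) :=
            mul_le_mul (h0.trans h3) h2 (Real.exp_pos _).le zero_le_one
        _ = _ := one_mul _
  unfold Wp
  refine (Finset.sum_le_sum hterm).trans ?_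
  rw [Finset.sum_add_distrib, ← Finset.sum_filter, Finset.sum_const, nsmul_eq_mul]
  refine add_le_add ?_ ?_
  · unfold SI
    rw [Finset.mul_sum]
    refine Finset.sum_le_sum_of_subset_of_nonneg (fun s hs => (Finset.mem_filter.1 hs).2)
      fun s _ _ => by positivity
  · refine mul_le_mul_of_nonneg_right ?_ (Real.exp_pos _).le
    have h1 : (SP x).card ≤ ⌊x ^ 2⌋₊ := by
      refine (Finset.card_filter_le _ _).trans ?_
      simp
    have h2 : ((⌊x ^ 2⌋₊ : ℕ) : ℝ) ≤ x ^ 2 := Nat.floor_le (by positivity)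
    have h3 : ((SP x).card : ℝ) ≤ (⌊x ^ 2⌋₊ : ℕ) := by exact_mod_cast h1
    refine (h3.trans h2).trans ?_
    exact pow_le_pow_left₀ hx0.le hxY 2

end H1

open H1 in
/-- **row HOH** -/
theorem hoh (h : EL1) : HOH := by
  obtain ⟨κ, hκ, hκ', hE⟩ := h
  obtain ⟨C, X0, hC, hE⟩ := hE 1
  have hlog : Tendsto (fun Y : ℝ => Real.log Y) atTop atTop := Real.tendsto_log_atTop
  -- eventual facts
  have e1 : ∀ᶠ Y : ℝ in atTop, Real.log Y ^ (2 : ℝ) ≤ 1 / 64 * Y ^ (κ / 4) := by
    have h1 := (isLittleO_log_rpow_rpow_atTop (s := κ / 4) 2 (by positivity)).bound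
      (show (0 : ℝ) < 1 / 64 by norm_num)
    filter_upwards [h1, eventually_ge_atTop 1] with Y h2 h3
    rwa [Real.norm_eq_abs, Real.norm_eq_abs, abs_of_nonneg (Real.rpow_nonneg
      (Real.log_nonneg h3) _), abs_of_nonneg (by positivity)] at h2
  obtain ⟨Y0, hY0⟩ := ((e1.and (hlog.eventually_ge_atTop (max (100 : ℝ) (4 * C)))).and
    (eventually_ge_atTop (max (max X0 16) 1))).exists_forall_of_atTop
  refine ⟨κ / 2, 1 / 16, Y0, by positivity, by norm_num, fun Y ρ hY hρY hρ4 => ?_⟩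
  obtain ⟨⟨f1, f2⟩, f3⟩ := hY0 Y hY
  have hYX0 : X0 ≤ Y := ((le_max_left _ _).trans (le_max_left _ _)).trans f3
  have hY16 : 16 ≤ Y := ((le_max_right _ _).trans (le_max_left _ _)).trans f3
  have hYpos : 0 < Y := by linarith
  have hρ : 0 < ρ := lt_of_lt_of_le (by positivity) hρY
  set L := Real.log Y with hLdef
  have hL100 : 100 ≤ L := (le_max_left _ _).trans f2
  have hLC : 4 * C ≤ L := (le_max_right _ _).trans f2
  have hLpos : 0 < L := by linarith
  set x := (1 - 3 * ρ / 2) * Y with hx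
  have hx58 : 5 / 8 * Y ≤ x := by
    rw [hx]
    exact mul_le_mul_of_nonneg_right (by linarith) hYpos.le
  have hxY : x ≤ Y := by
    rw [hx]
    exact mul_le_of_le_one_left hYpos.le (by linarith)
  have hx0 : 0 < x := by linarith
  set T := 8 * L / ρ with hT
  have hT1 : 1 ≤ T := by
    rw [hT, le_div_iff₀ hρ]
    linarith
  have hT0 : 0 < T := by linarith
  -- the size of `T`
  have hρinv : 1 / ρ ≤ Y ^ (κ / 2) := by
    rw [div_le_iff₀ hρ]
    calc (1 : ℝ) = Y ^ (κ / 2) * Y ^ (-(κ / 2)) := by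
          rw [← Real.rpow_add hYpos, add_neg_cancel, Real.rpow_zero]
      _ ≤ Y ^ (κ / 2) * ρ := mul_le_mul_of_nonneg_left hρY (by positivity)
  have hTle : T ≤ 8 * L * Y ^ (κ / 2) := by
    rw [hT, div_eq_mul_one_div]
    exact mul_le_mul_of_nonneg_left hρinv (by positivity)
  have f1' : L * L ≤ 1 / 64 * Y ^ (κ / 4) := by
    have := f1
    rw [Real.rpow_two] at this
    rwa [← pow_two]
  have hLL : L ≤ 1 / 64 * Y ^ (κ / 4) := by
    have h1 : L ≤ L * L := by nlinarith
    exact h1.trans f1'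
  obtain ⟨R, hR1, hR2⟩ := hE Y x hYX0 (by
    have h1 : √Y ≤ Y := by
      rw [Real.sqrt_le_left (by linarith)]
      nlinarith
    linarith) (by nlinarith)
  -- the integral
  have hint : ∫ t : ℝ, ‖Ey x t‖ * g T t ≤ 1 := by
    have hTL : T * L ≤ 2 * Y := by
      calc T * L ≤ 8 * L * Y ^ (κ / 2) * L := mul_le_mul_of_nonneg_right hTle hLpos.le
        _ = 8 * (L * L) * Y ^ (κ / 2) := by ring
        _ ≤ 8 * (1 / 64 * Y ^ (κ / 4)) * Y ^ (κ / 2) := by
            refine mul_le_mul_of_nonneg_right ?_ (by positivity)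
            exact mul_le_mul_of_nonneg_left f1' (by norm_num)
        _ = 1 / 8 * (Y ^ (κ / 4) * Y ^ (κ / 2)) := by ring
        _ = 1 / 8 * Y ^ (κ / 4 + κ / 2) := by rw [← Real.rpow_add hYpos]
        _ ≤ 1 / 8 * Y ^ (1 : ℝ) := by
            refine mul_le_mul_of_nonneg_left ?_ (by norm_num)
            exact Real.rpow_le_rpow_of_exponent_le (by linarith) (by linarith)
        _ ≤ 2 * Y := by
            rw [Real.rpow_one]
            linarith
    have h1 := INT.split (a := fun t => ‖Ey x t‖) (b := fun _ => 1) (e := fun _ => 1)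
      (OX.continuous_Ey x).norm continuous_const continuous_const (fun t => norm_nonneg _)
      (fun _ => zero_le_one) (fun _ => zero_le_one) (Ma := x ^ 2 + 4) (Mb := 1) (Me := 1)
      (fun t => INT.norm_Ey_le x t) (fun _ => le_rfl) (fun _ => le_rfl) (T := T) (L := L)
      (δ := Y ^ (-κ)) (B := C * L ^ (-(1 : ℝ))) hT0 hLpos.le (by positivity) R
      (fun t ht hbad => by
        refine ⟨⌊t⌋, ?_, Int.floor_le t, (Int.lt_floor_add_one t).le⟩
        by_contra hcon
        exact hbad (hR1 t (ht.trans hTL) hcon))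
      (fun τ hτ => by simpa using hR2 τ hτ)
    simp only [mul_one, one_mul] at h1
    have h2 : ∫ t : ℝ, g T t = √Real.pi * T := by
      have h3 : ∀ t : ℝ, g T t = Real.exp (-(1 / T ^ 2) * t ^ 2) := fun t => MRL.Bas.g_eq t
      simp_rw [h3]
      rw [integral_gaussian, show Real.pi / (1 / T ^ 2) = Real.pi * T ^ 2 by field_simp,
        Real.sqrt_mul Real.pi_nonneg, Real.sqrt_sq hT0.le]
    rw [h2] at h1
    refine h1.trans ?_
    have hpi : √Real.pi ≤ 2 := by
      rw [Real.sqrt_le_left (by norm_num)]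
      linarith [Real.pi_lt_four]
    -- first term
    have t1 : Y ^ (-κ) * (√Real.pi * T) ≤ 1 / 4 := by
      calc Y ^ (-κ) * (√Real.pi * T) ≤ Y ^ (-κ) * (2 * (8 * L * Y ^ (κ / 2))) := by
            refine mul_le_mul_of_nonneg_left ?_ (by positivity)
            exact mul_le_mul hpi hTle hT0.le (by norm_num)
        _ ≤ Y ^ (-κ) * (2 * (8 * (1 / 64 * Y ^ (κ / 4)) * Y ^ (κ / 2))) := by
            refine mul_le_mul_of_nonneg_left ?_ (by positivity)
            refine mul_le_mul_of_nonneg_left ?_ (by norm_num)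
            refine mul_le_mul_of_nonneg_right ?_ (by positivity)
            linarith
        _ = 1 / 4 * (Y ^ (-κ) * Y ^ (κ / 4) * Y ^ (κ / 2)) := by ring
        _ = 1 / 4 * Y ^ (-κ + κ / 4 + κ / 2) := by rw [← Real.rpow_add hYpos, ← Real.rpow_add hYpos]
        _ ≤ 1 / 4 * 1 := by
            refine mul_le_mul_of_nonneg_left ?_ (by norm_num)
            exact Real.rpow_le_one_of_one_le_of_nonpos (by linarith) (by linarith)
        _ = 1 / 4 := mul_one _
    -- second term
    have t2 : C * L ^ (-(1 : ℝ)) ≤ 1 / 4 := by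
      rw [Real.rpow_neg_one, ← div_eq_mul_inv, div_le_iff₀ hLpos]
      linarith
    -- third term
    have t3 : (x ^ 2 + 4) * Real.exp (-(L ^ 2 / 2)) * (3 * T) ≤ 1 / 4 := by
      have hYL : Y = Real.exp L := by
        rw [hLdef, Real.exp_log hYpos]
      have g1 : x ^ 2 + 4 ≤ 2 * Y ^ 2 := by nlinarith
      have g2 : T ≤ Y := by
        calc T ≤ T * L := le_mul_of_one_le_right hT0.le (by linarith)
          _ ≤ _ := by
            calc T * L ≤ 8 * L * Y ^ (κ / 2) * L := mul_le_mul_of_nonneg_right hTle hLpos.le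
              _ = 8 * (L * L) * Y ^ (κ / 2) := by ring
              _ ≤ 8 * (1 / 64 * Y ^ (κ / 4)) * Y ^ (κ / 2) := by
                  refine mul_le_mul_of_nonneg_right ?_ (by positivity)
                  exact mul_le_mul_of_nonneg_left f1' (by norm_num)
              _ = 1 / 8 * (Y ^ (κ / 4) * Y ^ (κ / 2)) := by ring
              _ = 1 / 8 * Y ^ (κ / 4 + κ / 2) := by rw [← Real.rpow_add hYpos]
              _ ≤ 1 / 8 * Y ^ (1 : ℝ) := by
                  refine mul_le_mul_of_nonneg_left ?_ (by norm_num)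
                  exact Real.rpow_le_rpow_of_exponent_le (by linarith) (by linarith)
              _ ≤ Y := by
                  rw [Real.rpow_one]
                  linarith
      have g3 : (x ^ 2 + 4) * Real.exp (-(L ^ 2 / 2)) * (3 * T) ≤
          6 * (Y ^ 3 * Real.exp (-(L ^ 2 / 2))) := by
        calc (x ^ 2 + 4) * Real.exp (-(L ^ 2 / 2)) * (3 * T) ≤
              2 * Y ^ 2 * Real.exp (-(L ^ 2 / 2)) * (3 * Y) := by
                refine mul_le_mul ?_ (by linarith) (by positivity) (by positivity)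
                exact mul_le_mul_of_nonneg_right g1 (Real.exp_pos _).le
          _ = _ := by ring
      refine g3.trans ?_
      have g4 : Y ^ 3 * Real.exp (-(L ^ 2 / 2)) ≤ Real.exp (-L) := by
        rw [hYL, ← Real.exp_nat_mul, ← Real.exp_add]
        refine Real.exp_le_exp.2 ?_
        push_cast
        nlinarith
      have g5 : Real.exp (-L) ≤ 1 / 100 := by
        rw [Real.exp_neg, ← one_div]
        refine one_div_le_one_div_of_le (by norm_num) ?_
        have := Real.add_one_le_exp L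
        linarith
      linarith
    linarith
  have hlow := Wp_lower hT1 hx0 hint
  have hup := Wp_upper (Y := Y) (ρ := ρ) (T := T) (L := L) (by linarith) hρ hρ4 hT hLdef hLpos.le
  rw [← hx] at hup
  have hmain : 1 / T ≤ L * SI Y ρ + Y ^ 2 * Real.exp (-(4 * L ^ 2)) := hlow.trans hup
  -- the error
  have herr : Y ^ 2 * Real.exp (-(4 * L ^ 2)) ≤ 1 / (2 * T) := by
    have hYL : Y = Real.exp L := by
      rw [hLdef, Real.exp_log hYpos]
    have g2 : 2 * T ≤ Y := by
      calc 2 * T ≤ 2 * (8 * L * Y ^ (κ / 2)) := by linarith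
        _ ≤ 2 * (8 * (1 / 64 * Y ^ (κ / 4)) * Y ^ (κ / 2)) := by
            refine mul_le_mul_of_nonneg_left ?_ (by norm_num)
            refine mul_le_mul_of_nonneg_right ?_ (by positivity)
            linarith
        _ = 1 / 4 * (Y ^ (κ / 4) * Y ^ (κ / 2)) := by ring
        _ = 1 / 4 * Y ^ (κ / 4 + κ / 2) := by rw [← Real.rpow_add hYpos]
        _ ≤ 1 / 4 * Y ^ (1 : ℝ) := by
            refine mul_le_mul_of_nonneg_left ?_ (by norm_num)
            exact Real.rpow_le_rpow_of_exponent_le (by linarith) (by linarith)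
        _ ≤ Y := by
            rw [Real.rpow_one]
            linarith
    have g3 : Y ^ 2 * Real.exp (-(4 * L ^ 2)) ≤ 1 / Y := by
      rw [hYL, ← Real.exp_nat_mul, ← Real.exp_add, one_div, ← Real.exp_neg]
      refine Real.exp_le_exp.2 ?_
      push_cast
      nlinarith
    exact g3.trans (one_div_le_one_div_of_le (by positivity) g2)
  have h1 : 1 / (2 * T) ≤ L * SI Y ρ := by
    have h2 : 1 / T = 1 / (2 * T) + 1 / (2 * T) := by
      field_simp
      norm_num
    linarith
  have h2 : 1 / (2 * T) = ρ / (16 * L) := by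
    rw [hT]
    field_simp
    norm_num
  rw [h2, div_le_iff₀ (by positivity)] at h1
  rw [div_le_iff₀ (by positivity)]
  nlinarith

end Pool.Agent.FN82
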