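import Pool.Agent.Lib.FN82.Defs
import Pool.Agent.Lib.OX.RD

/-!
# MP_927447_nt, row MVD: Gaussian mean squares.  helper26
-/

set_option autoImplicit false

namespace Pool.Agent.FN82

open Finset MeasureTheory Pool.Agent.MRL Pool.Agent.MRF Pool.Agent.OX

noncomputable section

namespace MVDp

theorem summable_Z : Summable fun k : ℤ => 1 / (1 + (k : ℝ) ^ 2) := by
  have h1 : Summable fun k : ℤ => 1 / (k : ℝ) ^ 2 :=
    Real.summable_one_div_int_pow.2 (by norm_num)
  have h2 : Summable fun k : ℤ => if k = 0 then (1 : ℝ) else 0 :=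
    (hasSum_ite_eq (0 : ℤ) (1 : ℝ)).summable
  refine (h1.add h2).of_nonneg_of_le (fun k => by positivity) fun k => ?_
  by_cases hk : k = 0
  · subst hk
    simp
  · rw [if_neg hk, add_zero]
    have hk0 : 0 < (k : ℝ) ^ 2 := by
      have : (k : ℝ) ≠ 0 := by exact_mod_cast hk
      positivity
    exact one_div_le_one_div_of_le hk0 (by linarith)

/-- the constant -/
def Z : ℝ := ∑' k : ℤ, 1 / (1 + (k : ℝ) ^ 2)

theorem one_le_Z : 1 ≤ Z := by
  have h := summable_Z.sum_le_tsum {(0 : ℤ)} (fun k _ => by positivity)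
  simpa [Z] using h

/-- the sum over points at distance at least 1. -/
theorem spaced {ι : Type*} (S : Finset ι) (v : ι → ℝ)
    (hv : ∀ i ∈ S, ∀ j ∈ S, i ≠ j → 1 ≤ |v i - v j|) :
    ∑ i ∈ S, Real.exp (-(v i) ^ 2) ≤ 4 * Z := by
  classical
  have h1 : ∀ i ∈ S, Real.exp (-(v i) ^ 2) ≤ 4 * (1 / (1 + ((⌊v i⌋ : ℤ) : ℝ) ^ 2)) := by
    intro i _
    have h2 : Real.exp (-(v i) ^ 2) ≤ 1 / (1 + (v i) ^ 2) := by
      rw [Real.exp_neg, ← one_div]
      exact one_div_le_one_div_of_le (by positivity) (by linarith [Real.add_one_le_exp ((v i) ^ 2)])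
    refine h2.trans ?_
    rw [mul_one_div, div_le_div_iff₀ (by positivity) (by positivity)]
    have h3 := Int.floor_le (v i)
    have h4 := Int.lt_floor_add_one (v i)
    nlinarith [sq_nonneg (v i - ⌊v i⌋), sq_nonneg (v i + 1), sq_nonneg (v i)]
  have hinj : Set.InjOn (fun i => ⌊v i⌋) (S : Set ι) := by
    intro i hi j hj hij
    by_contra hne
    have h2 := hv i hi j hj hne
    have h3 := Int.abs_sub_lt_one_of_floor_eq_floor hij
    linarith
  calc ∑ i ∈ S, Real.exp (-(v i) ^ 2) ≤ ∑ i ∈ S, 4 * (1 / (1 + ((⌊v i⌋ : ℤ) : ℝ) ^ 2)) :=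
        sum_le_sum h1
    _ = 4 * ∑ k ∈ S.image (fun i => ⌊v i⌋), 1 / (1 + (k : ℝ) ^ 2) := by
        rw [sum_image hinj, mul_sum]
    _ ≤ 4 * Z := by
        refine mul_le_mul_of_nonneg_left ?_ (by norm_num)
        exact summable_Z.sum_le_tsum _ (fun k _ => by positivity)

/-- logarithms of numbers in `(0, M]` are spaced. -/
theorem log_sp {x y M : ℝ} (hx : 0 < x) (hy : 0 < y) (hxM : x ≤ M) (hyM : y ≤ M) :
    |x - y| / M ≤ |Real.log x - Real.log y| := by
  have hM : 0 < M := hx.trans_le hxM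
  have key : ∀ a b : ℝ, 0 < a → 0 < b → a ≤ M → b ≤ a → |a - b| / M ≤ |Real.log a - Real.log b| := by
    intro a b ha hb haM hba
    have h1 : Real.log a - Real.log b = -Real.log (b / a) := by
      rw [Real.log_div hb.ne' ha.ne']
      ring
    have h2 := Real.log_le_sub_one_of_pos (show 0 < b / a by positivity)
    have h3 : (a - b) / M ≤ (a - b) / a := div_le_div_of_nonneg_left (by linarith) ha haM
    have h4 : (a - b) / a = 1 - b / a := by
      field_simp
    rw [abs_of_nonneg (by linarith : 0 ≤ a - b)]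
    refine le_trans ?_ (le_abs_self _)
    linarith
  rcases le_total y x with h | h
  · exact key x y hx hy hxM h
  · rw [abs_sub_comm x y, abs_sub_comm (Real.log x)]
    exact key y x hy hx hyM h

theorem exp_le {T a b : ℝ} (h : 2 * |b| ≤ |T * a|) :
    Real.exp (-(T * a) ^ 2 / 4) ≤ Real.exp (-b ^ 2) := by
  refine Real.exp_le_exp.2 ?_
  have h1 : (2 * |b|) ^ 2 ≤ |T * a| ^ 2 := pow_le_pow_left₀ (by positivity) h 2
  rw [mul_pow, sq_abs, sq_abs] at h1
  linarith

theorem log3 : (1 : ℝ) ≤ Real.log 3 := by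
  rw [Real.le_log_iff_exp_le (by norm_num)]
  have := Real.exp_one_lt_d9
  linarith

end MVDp

open MVDp in
/-- **Row MVD.** -/
theorem mvd : MVD := by
  have hZ := one_le_Z
  refine ⟨√Real.pi * (4 * Z), 3, by positivity, ?_⟩
  intro N ρ hN hρ hρ1 J c hJ hsp hc
  have hN0 : (0 : ℝ) < N := by linarith
  have hL : 1 ≤ Real.log N := log3.trans (Real.log_le_log (by norm_num) hN)
  have hs : 0 < √N := Real.sqrt_pos.2 hN0
  have hss : √N * √N = N := Real.mul_self_sqrt hN0.le
  obtain ⟨T, hT⟩ : ∃ T : ℝ, T = TF N ρ := ⟨_, rfl⟩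
  have hT0 : 0 < T := by
    rw [hT]
    unfold TF
    positivity
  rw [← hT]
  obtain ⟨D, hD⟩ : ∃ D : ℝ, D = ρ * √N := ⟨_, rfl⟩
  have hD0 : 0 < D := by rw [hD]; positivity
  rw [← hD] at hsp
  have h1 : ∀ t : ℝ, ∑ x ∈ J, c x * xt x t = MRG.trig J c (fun x => -Real.log x) t := by
    intro t
    unfold MRG.trig xt
    refine sum_congr rfl fun x _ => ?_
    congr 3
    push_cast
    ring
  simp only [h1]
  refine (RDp.trig_le J c (fun x => -Real.log x) hT0 (M := 1) fun x _ => hc x).trans ?_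
  have h2 : ∀ x ∈ J, ∑ x' ∈ J, Real.exp (-(T * (-Real.log x - -Real.log x')) ^ 2 / 4) ≤ 4 * Z := by
    intro x hx
    refine le_trans (sum_le_sum fun x' hx' => ?_) (spaced J (fun x' => (x' - x) / D) ?_)
    · refine exp_le ?_
      have h3 := log_sp (x := x') (y := x) (M := 2 * N) (by linarith [(hJ x' hx').1])
        (by linarith [(hJ x hx).1]) (hJ x' hx').2 (hJ x hx).2
      have e1 : -Real.log x - -Real.log x' = Real.log x' - Real.log x := by ring
      rw [e1, abs_mul, abs_of_pos hT0, abs_div, abs_of_pos hD0]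
      have h4 : 2 * (|x' - x| / D) ≤ T * (|x' - x| / (2 * N)) := by
        have e2 : T * (|x' - x| / (2 * N)) = 16 * Real.log N * (|x' - x| / D) := by
          rw [hT, hD]
          unfold TF
          field_simp
          rw [Real.sq_sqrt hN0.le]
          ring
        rw [e2]
        have h5 : 0 ≤ |x' - x| / D := by positivity
        nlinarith
      exact h4.trans (mul_le_mul_of_nonneg_left h3 hT0.le)
    · intro i hi j hj hij
      have h3 := hsp i hi j hj hij
      have e1 : (i - x) / D - (j - x) / D = (i - j) / D := by ring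
      simp only [e1]
      rw [abs_div, abs_of_pos hD0, le_div_iff₀ hD0, one_mul]
      exact h3
  calc √Real.pi * T * 1 ^ 2 * ∑ x ∈ J, ∑ x' ∈ J,
        Real.exp (-(T * (-Real.log x - -Real.log x')) ^ 2 / 4)
      ≤ √Real.pi * T * 1 ^ 2 * ∑ x ∈ J, 4 * Z :=
        mul_le_mul_of_nonneg_left (sum_le_sum h2) (by positivity)
    _ = √Real.pi * (4 * Z) * J.card * T := by
        rw [sum_const, nsmul_eq_mul]
        ring

end

end Pool.Agent.FN82
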