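import Pool.Agent.Lib.FN82.Defs
import Pool.Agent.Lib.MRL.MV

/-!
# MP_927447_nt, row MVP: mean square of the short prime polynomial (helper16)
-/

set_option autoImplicit false

namespace Pool.Agent.FN82

open Finset Pool.Agent.MRL Pool.Agent.MRF Pool.Agent.OX MeasureTheory

theorem mvp : MVP := by
  have hpi := Real.pi_pos
  refine ⟨256 * Real.pi, 3, by positivity, ?_⟩
  intro N ρ hN hρ hρ1
  have hN0 : 0 < N := by linarith
  have hL1 : 1 ≤ Real.log N := by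
    rw [Real.le_log_iff_exp_le hN0]
    have := Real.exp_one_lt_d9
    linarith
  obtain ⟨Y, hY⟩ : ∃ Y, Y = √N := ⟨_, rfl⟩
  have hY1 : 1 ≤ Y := by
    rw [hY]
    exact Real.one_le_sqrt.2 (by linarith)
  have hY0 : 0 < Y := by linarith
  have hT : TF N ρ = 32 * Real.log N * Y / ρ := by rw [TF, hY]
  have hYT : Y ≤ TF N ρ := by
    rw [hT, le_div_iff₀ hρ]
    have h1 : Y * ρ ≤ Y * 1 := mul_le_mul_of_nonneg_left (by linarith) hY0.le
    have h2 : 1 * Y ≤ 32 * Real.log N * Y := mul_le_mul_of_nonneg_right (by linarith) hY0.le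
    linarith
  have hT0 : 0 < TF N ρ := by linarith
  rw [← hY]
  have hq : ∀ q ∈ Iq Y ρ, 1 ≤ q ∧ (q : ℝ) ≤ Y ∧ Y / 2 ≤ q := by
    intro q hq
    unfold Iq at hq
    rw [mem_filter, mem_Icc] at hq
    obtain ⟨⟨h1, h2⟩, -, h3⟩ := hq
    have h4 : (q : ℝ) ≤ (1 - ρ) * Y :=
      (Nat.le_floor_iff (mul_nonneg (by linarith) hY0.le)).1 h2
    refine ⟨h1, h4.trans ?_, ?_⟩
    · have h5 : (1 - ρ) * Y ≤ 1 * Y := mul_le_mul_of_nonneg_right (by linarith) hY0.le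
      linarith
    · have h5 : 1 / 2 * Y ≤ (1 - 2 * ρ) * Y :=
        mul_le_mul_of_nonneg_right (by linarith) hY0.le
      linarith
  have h1 := MV.mean_value_set (Iq Y ρ) (N := Y) hY1 (fun q h => ⟨(hq q h).1, (hq q h).2.1⟩)
    hT0 (fun q => ((1 / (q : ℝ) : ℝ) : ℂ))
  have h2 : ∑ q ∈ Iq Y ρ, ‖((1 / (q : ℝ) : ℝ) : ℂ)‖ ^ 2 ≤ 2 / Y * SI Y ρ := by
    unfold SI
    rw [mul_sum]
    refine sum_le_sum fun q h => ?_
    obtain ⟨a1, a2, a3⟩ := hq q h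
    have a0 : (0 : ℝ) < q := by exact_mod_cast a1
    rw [Complex.norm_real, Real.norm_eq_abs, sq_abs, sq]
    refine mul_le_mul_of_nonneg_right ?_ (by positivity)
    rw [div_le_div_iff₀ a0 hY0]
    linarith
  have hSI : 0 ≤ SI Y ρ := by
    unfold SI
    exact sum_nonneg fun q _ => by positivity
  show ∫ t : ℝ, ‖Pq Y ρ t‖ ^ 2 * g (TF N ρ) t ≤ _
  calc ∫ t : ℝ, ‖Pq Y ρ t‖ ^ 2 * g (TF N ρ) t
      ≤ 2 * Real.pi * (TF N ρ + Y) * ∑ q ∈ Iq Y ρ, ‖((1 / (q : ℝ) : ℝ) : ℂ)‖ ^ 2 := h1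
    _ ≤ 2 * Real.pi * (TF N ρ + TF N ρ) * (2 / Y * SI Y ρ) := by
        have h3 : (0 : ℝ) ≤ 2 / Y * SI Y ρ := by positivity
        gcongr
    _ = 256 * Real.pi * (Real.log N / ρ) * SI Y ρ := by
        rw [hT]
        field_simp
        ring

end Pool.Agent.FN82
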