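import Mathlib
import Pool.Agent.Lib.FN82.Defs
import Pool.Agent.Lib.OX.SZD

/-!
# MP_927447_nt, row ZDE: zero density near the line 1.  helper15
-/

set_option autoImplicit false

namespace Pool.Agent.FN82

open Finset Pool.Agent.MRL Pool.Agent.MRF Pool.Agent.OX

/-- a power of the logarithm against a power -/
theorem ZDEp.large (C2 a : ℝ) (hC2 : 0 < C2) (ha : 0 < a) : ∃ T₀ : ℝ, ∀ T : ℝ, T₀ ≤ T →
    216 * C2 * (Real.log T) ^ 5 * T ^ (-a) ≤ 1 / 8 := by
  have h1 := isLittleO_log_rpow_rpow_atTop (5 : ℝ) ha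
  have h2 := h1.bound (show (0 : ℝ) < 1 / (1728 * C2) by positivity)
  obtain ⟨T₀, hT₀⟩ := Filter.eventually_atTop.1 h2
  refine ⟨max 1 T₀, fun T hT => ?_⟩
  have hT1 : 1 ≤ T := (le_max_left _ _).trans hT
  have hT0 : 0 < T := by linarith
  have hl : 0 ≤ Real.log T := Real.log_nonneg hT1
  have h3 := hT₀ T ((le_max_right _ _).trans hT)
  have h4 : (Real.log T) ^ (5 : ℝ) = (Real.log T) ^ 5 := by
    rw [← Real.rpow_natCast]
    norm_num
  rw [h4, Real.norm_of_nonneg (by positivity), Real.norm_of_nonneg (by positivity)] at h3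
  have h5 : T ^ a * T ^ (-a) = 1 := by
    rw [← Real.rpow_add hT0, add_neg_cancel, Real.rpow_zero]
  calc 216 * C2 * (Real.log T) ^ 5 * T ^ (-a)
      ≤ 216 * C2 * (1 / (1728 * C2) * T ^ a) * T ^ (-a) := by
        refine mul_le_mul_of_nonneg_right ?_ (by positivity)
        exact mul_le_mul_of_nonneg_left h3 (by positivity)
    _ = 216 * C2 / (1728 * C2) * (T ^ a * T ^ (-a)) := by ring
    _ = 1 / 8 := by
        rw [h5]
        field_simp
        norm_num

/-- **Row ZDE.** -/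
theorem zde (h1 : SZ1) (h2 : SZ2) : ZDE := by
  intro ε hε
  obtain ⟨e, he, he8, he2⟩ : ∃ e : ℝ, 0 < e ∧ e ≤ ε / 8 ∧ e ≤ 1 / 2 :=
    ⟨min (ε / 8) (1 / 2), lt_min (by linarith) (by norm_num), min_le_left _ _, min_le_right _ _⟩
  obtain ⟨κ, C1, hκ, hκ', hC1, H1⟩ := h1 e he he2
  obtain ⟨η, C2, hη, hC2, H2⟩ := h2 (4 / e) (by rw [le_div_iff₀ he]; linarith)
  obtain ⟨T₀, hT₀⟩ : ∃ T₀ : ℝ, ∀ T : ℝ, T₀ ≤ T →
      216 * C2 * (Real.log T) ^ 5 * T ^ (-(e * η / 4)) ≤ 1 / 8 := ZDEp.large C2 (e * η / 4) hC2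
        (by positivity)
  set C : ℝ := max (max C1 ((4 : ℝ) ^ (1 / e))) (max (max 16 T₀) (1728 * C2 + 5)) with hC
  refine ⟨min κ (η / 4), C, lt_min hκ (by positivity), (min_le_left _ _).trans hκ', ?_, ?_⟩
  · exact hC1.trans ((le_max_left _ _).trans (le_max_left _ _))
  intro T σ hT hσκ' hσ1 Z hZ hsp
  have hσκ : 1 - κ ≤ σ := by
    have := min_le_left κ (η / 4)
    linarith
  have hση : 1 - σ ≤ η / 4 := by
    have := min_le_right κ (η / 4)
    linarith
  have hTT₀ : T₀ ≤ T :=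
    ((le_max_right _ _).trans (le_max_left _ _)).trans ((le_max_right _ _).trans hT)
  have hTC1 : C1 ≤ T := ((le_max_left _ _).trans (le_max_left _ _)).trans hT
  have hT4 : (4 : ℝ) ^ (1 / e) ≤ T := ((le_max_right _ _).trans (le_max_left _ _)).trans hT
  have hT16 : 16 ≤ T :=
    ((le_max_left _ _).trans (le_max_left _ _)).trans ((le_max_right _ _).trans hT)
  have hC5 : 1728 * C2 + 5 ≤ C := (le_max_right _ _).trans (le_max_right _ _)
  have hT0 : 0 < T := by linarith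
  have hT1 : 1 ≤ T := by linarith
  have hx4 : 4 ≤ T ^ e := by
    have h3 := Real.rpow_le_rpow (by positivity) hT4 he.le
    rwa [← Real.rpow_mul (by norm_num), one_div_mul_cancel he.ne', Real.rpow_one] at h3
  -- the logarithm
  have hlog : Real.exp 1 ≤ Real.log T := by
    have h3 : Real.log 16 ≤ Real.log T := Real.log_le_log (by norm_num) hT16
    have h4 : Real.log 16 = 4 * Real.log 2 := by
      rw [show (16 : ℝ) = 2 ^ 4 by norm_num, Real.log_pow]
      norm_num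
    have h5 := Real.log_two_gt_d9
    have h6 := Real.exp_one_lt_d9
    linarith
  have hlog1 : 1 ≤ Real.log T := by
    have := Real.add_one_le_exp (1 : ℝ)
    linarith
  -- the length
  set U : ℕ := ⌊T ^ e⌋₊ with hU
  have hUle : (U : ℝ) ≤ T ^ e := Nat.floor_le (by positivity)
  have hU4 : 4 ≤ U := Nat.le_floor (by exact_mod_cast hx4)
  have hUlt : T ^ e < U + 1 := Nat.lt_floor_add_one _
  have hU4' : (4 : ℝ) ≤ U := by exact_mod_cast hU4
  have hUge : T ^ e / 2 ≤ U := by linarith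
  have hU0 : (0 : ℝ) < U := by linarith
  have hUsq : T ^ (e / 2) ≤ U := by
    have h3 : T ^ (e / 2) * T ^ (e / 2) = T ^ e := by
      rw [← Real.rpow_add hT0]
      congr 1
      ring
    have h4 : 0 < T ^ (e / 2) := by positivity
    have h5 : 2 ≤ T ^ (e / 2) := by nlinarith
    nlinarith
  have hlogU : Real.log U ≤ e * Real.log T := by
    rw [← Real.log_rpow hT0]
    exact Real.log_le_log hU0 hUle
  -- the number of blocks
  have hJ : ((Nat.log 2 U + 1 : ℕ) : ℝ) ≤ 2 * Real.log T := by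
    have h3 : (Nat.log 2 U : ℝ) ≤ Real.logb 2 U := Real.natLog_le_logb U 2
    have h4 : Real.logb 2 U * Real.log 2 = Real.log U := by
      rw [Real.logb, div_mul_cancel₀]
      exact (Real.log_pos (by norm_num)).ne'
    have h5 := Real.log_two_gt_d9
    have h6 : (0 : ℝ) ≤ Nat.log 2 U := Nat.cast_nonneg _
    push_cast
    nlinarith
  have hJ0 : (0 : ℝ) ≤ ((Nat.log 2 U + 1 : ℕ) : ℝ) := Nat.cast_nonneg _
  -- one block
  set b : ℕ → ℂ → ℂ := fun j ρ =>
    ∑ k ∈ (Ioc U (U ^ 2)).filter (fun k => Nat.log 2 (k / U) = j), bU U k * (k : ℂ) ^ (-ρ) with hb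
  have hblock : ∀ j ∈ range (Nat.log 2 U + 1), ∑ ρ ∈ Z, ‖b j ρ‖ ^ 2 ≤
      54 * C2 * (Real.log T) ^ 3 * (T ^ (ε * (1 - σ)) + Z.card * T ^ (-(e * η / 4))) := by
    intro j hj
    rw [Finset.mem_range, Nat.lt_succ_iff] at hj
    have hjU : 2 ^ j ≤ U := (Nat.pow_le_pow_right (by norm_num) hj).trans
      (Nat.pow_log_le_self 2 (by omega))
    set K : ℕ := 2 ^ j * U with hK
    have hUK : U ≤ K := Nat.le_mul_of_pos_left _ (by positivity)
    have hKU : K ≤ U ^ 2 := by rw [hK, pow_two]; exact Nat.mul_le_mul_right _ hjU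
    have hUK' : (U : ℝ) ≤ K := by exact_mod_cast hUK
    have hKU' : (K : ℝ) ≤ (U : ℝ) ^ 2 := by exact_mod_cast hKU
    have hK0 : (0 : ℝ) < K := by linarith
    have h3 := H2 K σ Z ((Ioc U (U ^ 2)).filter (fun k => Nat.log 2 (k / U) = j)) (bU U) (by omega)
      (by linarith) (fun ρ hρ => ⟨(hZ ρ hρ).2.1, by
        by_contra hlt
        push Not at hlt
        exact riemannZeta_ne_zero_of_one_le_re hlt.le (hZ ρ hρ).1⟩) hsp (by
      intro ρ hρ ρ' hρ'
      have g1 : |ρ.im - ρ'.im| ≤ 16 * T := by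
        have := abs_sub ρ.im ρ'.im
        have := (hZ ρ hρ).2.2.2
        have := (hZ ρ' hρ').2.2.2
        linarith
      have g2 : T ^ (2 : ℝ) ≤ (K : ℝ) ^ (4 / e) := by
        calc T ^ (2 : ℝ) = (T ^ (e / 2)) ^ (4 / e) := by
              rw [← Real.rpow_mul hT0.le]
              congr 1
              field_simp
              norm_num
          _ ≤ _ := Real.rpow_le_rpow (by positivity) (hUsq.trans hUK') (by positivity)
      rw [Real.rpow_two] at g2
      nlinarith) (fun k hk => SZD_mem U (by omega) j k hk)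
    refine h3.trans ?_
    have h4 := SZD_block U K (by omega) ((Ioc U (U ^ 2)).filter (fun k => Nat.log 2 (k / U) = j))
      (fun k hk => SZD_mem U (by omega) j k hk)
    -- the logarithm
    have h7 : 1 + Real.log (2 * K) ≤ 3 * Real.log T := by
      have g1 : Real.log (2 * K) ≤ Real.log (T ^ (2 : ℝ)) := by
        refine Real.log_le_log (by positivity) ?_
        have g2 : (U : ℝ) ^ 2 ≤ T := by
          calc (U : ℝ) ^ 2 ≤ (T ^ e) ^ 2 := pow_le_pow_left₀ hU0.le hUle 2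
            _ = T ^ (2 * e) := by
              rw [← Real.rpow_natCast, ← Real.rpow_mul hT0.le]
              congr 1
              push_cast
              ring
            _ ≤ T ^ (1 : ℝ) := Real.rpow_le_rpow_of_exponent_le hT1 (by linarith)
            _ = T := Real.rpow_one T
        rw [Real.rpow_two]
        nlinarith
      rw [Real.log_rpow hT0] at g1
      linarith
    have h8 : 0 ≤ 1 + Real.log (2 * K) := by
      have : 0 ≤ Real.log (2 * K) := Real.log_nonneg (by linarith)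
      linarith
    have h9 : (1 + Real.log (2 * K)) ^ 3 ≤ 27 * (Real.log T) ^ 3 := by
      calc _ ≤ (3 * Real.log T) ^ 3 := pow_le_pow_left₀ h8 h7 3
        _ = _ := by ring
    have h10 : (K : ℝ) * ((K : ℝ) ^ (-(2 * σ)) * K) ≤ T ^ (ε * (1 - σ)) := by
      calc (K : ℝ) * ((K : ℝ) ^ (-(2 * σ)) * K) = (K : ℝ) ^ (2 - 2 * σ) := by
            rw [show (2 : ℝ) - 2 * σ = 1 + (-(2 * σ) + 1) by ring, Real.rpow_add hK0,
              Real.rpow_add hK0, Real.rpow_one]
        _ ≤ ((U : ℝ) ^ 2) ^ (2 - 2 * σ) := Real.rpow_le_rpow hK0.le hKU' (by linarith)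
        _ ≤ ((T ^ e) ^ 2) ^ (2 - 2 * σ) :=
            Real.rpow_le_rpow (by positivity) (pow_le_pow_left₀ hU0.le hUle 2) (by linarith)
        _ = T ^ (4 * e * (1 - σ)) := by
            rw [← Real.rpow_natCast (T ^ e) 2, ← Real.rpow_mul hT0.le, ← Real.rpow_mul hT0.le]
            congr 1
            push_cast
            ring
        _ ≤ _ := by
            refine Real.rpow_le_rpow_of_exponent_le hT1 ?_
            refine mul_le_mul_of_nonneg_right ?_ (by linarith)
            linarith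
    have h11 : (K : ℝ) * ((K : ℝ) ^ (-(2 * σ)) * (K : ℝ) ^ (1 - η)) ≤ T ^ (-(e * η / 4)) := by
      calc (K : ℝ) * ((K : ℝ) ^ (-(2 * σ)) * (K : ℝ) ^ (1 - η)) = (K : ℝ) ^ (2 - 2 * σ - η) := by
            rw [show (2 : ℝ) - 2 * σ - η = 1 + (-(2 * σ) + (1 - η)) by ring, Real.rpow_add hK0,
              Real.rpow_add hK0, Real.rpow_one]
        _ ≤ (K : ℝ) ^ (-(η / 2)) :=
            Real.rpow_le_rpow_of_exponent_le (by linarith) (by linarith)
        _ ≤ (T ^ (e / 2)) ^ (-(η / 2)) :=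
            Real.rpow_le_rpow_of_nonpos (by positivity) (hUsq.trans hUK') (by linarith)
        _ = _ := by
            rw [← Real.rpow_mul hT0.le]
            congr 1
            ring
    calc C2 * (↑K + ↑Z.card * (K : ℝ) ^ (1 - η)) * (K : ℝ) ^ (-(2 * σ)) *
          ∑ k ∈ (Ioc U (U ^ 2)).filter (fun k => Nat.log 2 (k / U) = j), ‖bU U k‖ ^ 2
        ≤ C2 * (↑K + ↑Z.card * (K : ℝ) ^ (1 - η)) * (K : ℝ) ^ (-(2 * σ)) *
            (2 * K * (27 * (Real.log T) ^ 3)) := by
          refine mul_le_mul_of_nonneg_left (h4.trans ?_) (by positivity)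
          exact mul_le_mul_of_nonneg_left h9 (by positivity)
      _ = 54 * C2 * (Real.log T) ^ 3 * ((K : ℝ) * ((K : ℝ) ^ (-(2 * σ)) * K) +
            Z.card * ((K : ℝ) * ((K : ℝ) ^ (-(2 * σ)) * (K : ℝ) ^ (1 - η)))) := by ring
      _ ≤ _ := by
          refine mul_le_mul_of_nonneg_left (add_le_add h10 ?_) (by positivity)
          exact mul_le_mul_of_nonneg_left h11 (by positivity)
  -- every zero
  have hzero : ∀ ρ ∈ Z, (1 : ℝ) / 4 ≤ ((Nat.log 2 U + 1 : ℕ) : ℝ) *
      ∑ j ∈ range (Nat.log 2 U + 1), ‖b j ρ‖ ^ 2 := by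
    intro ρ hρ
    obtain ⟨g1, g2, g3, g4⟩ := hZ ρ hρ
    have h3 := H1 T ρ hTC1 g1 (hσκ.trans g2) g3 g4
    rw [SZD_split U (by omega)] at h3
    have h4 : (1 : ℝ) / 2 ≤ ∑ j ∈ range (Nat.log 2 U + 1), ‖b j ρ‖ := h3.trans (norm_sum_le _ _)
    have h5 := sq_sum_le_card_mul_sum_sq (s := range (Nat.log 2 U + 1)) (f := fun j => ‖b j ρ‖)
    rw [Finset.card_range] at h5
    refine le_trans ?_ h5
    nlinarith
  set X : ℝ := T ^ (ε * (1 - σ)) with hX
  have hX0 : 0 < X := by positivity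
  set Q : ℝ := T ^ (-(e * η / 4)) with hQ
  have hQ0 : 0 < Q := by positivity
  have hsum : (Z.card : ℝ) * (1 / 4) ≤ ((Nat.log 2 U + 1 : ℕ) : ℝ) *
      (((Nat.log 2 U + 1 : ℕ) : ℝ) * (54 * C2 * (Real.log T) ^ 3 * (X + Z.card * Q))) := by
    calc (Z.card : ℝ) * (1 / 4) = ∑ ρ ∈ Z, (1 : ℝ) / 4 := by
          rw [Finset.sum_const, nsmul_eq_mul]
      _ ≤ ∑ ρ ∈ Z, ((Nat.log 2 U + 1 : ℕ) : ℝ) * ∑ j ∈ range (Nat.log 2 U + 1), ‖b j ρ‖ ^ 2 :=
          Finset.sum_le_sum hzero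
      _ = ((Nat.log 2 U + 1 : ℕ) : ℝ) * ∑ j ∈ range (Nat.log 2 U + 1), ∑ ρ ∈ Z, ‖b j ρ‖ ^ 2 := by
          rw [← Finset.mul_sum, Finset.sum_comm]
      _ ≤ ((Nat.log 2 U + 1 : ℕ) : ℝ) * ∑ j ∈ range (Nat.log 2 U + 1),
            54 * C2 * (Real.log T) ^ 3 * (X + Z.card * Q) :=
          mul_le_mul_of_nonneg_left (Finset.sum_le_sum hblock) hJ0
      _ = _ := by rw [Finset.sum_const, Finset.card_range, nsmul_eq_mul]
  have h3 : (Z.card : ℝ) ≤ 1728 * C2 * (Real.log T) ^ 5 * X := by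
    have h4 : ((Nat.log 2 U + 1 : ℕ) : ℝ) *
        (((Nat.log 2 U + 1 : ℕ) : ℝ) * (54 * C2 * (Real.log T) ^ 3 * (X + Z.card * Q))) ≤
        2 * Real.log T * (2 * Real.log T * (54 * C2 * (Real.log T) ^ 3 * (X + Z.card * Q))) := by
      refine mul_le_mul hJ ?_ (by positivity) (by positivity)
      exact mul_le_mul_of_nonneg_right hJ (by positivity)
    have h5 : 2 * Real.log T * (2 * Real.log T * (54 * C2 * (Real.log T) ^ 3 * (X + Z.card * Q))) =
        216 * C2 * (Real.log T) ^ 5 * X + Z.card * (216 * C2 * (Real.log T) ^ 5 * Q) := by ring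
    have h6 : (Z.card : ℝ) * (216 * C2 * (Real.log T) ^ 5 * Q) ≤ Z.card * (1 / 8) :=
      mul_le_mul_of_nonneg_left (hT₀ T hTT₀) (by positivity)
    linarith
  refine h3.trans ?_
  have h4 : 1728 * C2 ≤ (Real.log T) ^ (C - 5) := by
    calc 1728 * C2 ≤ C - 5 + 1 := by linarith
      _ ≤ Real.exp (C - 5) := Real.add_one_le_exp _
      _ = (Real.exp 1) ^ (C - 5) := by rw [← Real.exp_mul, one_mul]
      _ ≤ _ := Real.rpow_le_rpow (Real.exp_pos _).le hlog (by nlinarith)
  calc 1728 * C2 * (Real.log T) ^ 5 * X ≤ (Real.log T) ^ (C - 5) * (Real.log T) ^ 5 * X := by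
        refine mul_le_mul_of_nonneg_right (mul_le_mul_of_nonneg_right h4 (by positivity)) hX0.le
    _ = X * (Real.log T) ^ C := by
        rw [← Real.rpow_natCast (Real.log T) 5, ← Real.rpow_add (by linarith)]
        rw [mul_comm]
        congr 2
        push_cast
        ring

end Pool.Agent.FN82
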