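import Mathlib
import Pool.Agent.Lib.OX.Top
import Pool.Agent.Lib.FN82.Defs
import Pool.Agent.Lib.FN82.ZDE
import Pool.Agent.Lib.FN82.EL1
import Pool.Agent.Lib.FN82.HOH
import Pool.Agent.Lib.FN82.BADQ
import Pool.Agent.Lib.FN82.MVP
import Pool.Agent.Lib.FN82.MVD
import Pool.Agent.Lib.FN82.CORE
import Pool.Agent.Lib.FN82.FIN

/-!
# MP_927447_nt: the assembly without hypotheses.  helper82.
-/

set_option autoImplicit false

namespace Pool.Agent.FN82

open Pool.Agent.MRL Pool.Agent.MR2 Pool.Agent.OX

/-- zero density near the line 1 -/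
theorem zde_all : ZDE := zde (sz1 zap vdc_row) (sz2 vdc_row)

/-- the error term of the long prime polynomial -/
theorem el1_all : EL1 := el1 (zg zap) pg zf_all (pp zf_all pg) zde_all

/-- primes in intervals of length `Y ^ (1 - δ)` -/
theorem hoh_all : HOH := hoh el1_all

theorem coref_all : COREF := coref el1_all hoh_all badq mvp mvd

theorem finf_all : FINF := finf coref_all

end Pool.Agent.FN82
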